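import Mathlib

/-!
# Products of semi-invariant pairings and determinants
-/

namespace Pool.Agent.W522.S

open Module

variable {K : Type*} [Field K] {X : Type*} [AddCommGroup X] [Module K X] {Γ : Type*} [Group Γ]
  (R : Representation K Γ X)

/-- The multilinear form `φ` is potentially semi-invariant: the elements of a subgroup of finite
index multiply it by scalars. -/
def Semi {κ : Type*} (φ : MultilinearMap K (fun _ : κ => X) K) : Prop :=
  ∃ Δ : Subgroup Γ, Δ.FiniteIndex ∧ ∃ θ : Γ → K, ∀ g ∈ Δ, ∀ v,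
    φ (fun k => R g (v k)) = θ g * φ v

/-- The bilinear form `B` is potentially semi-invariant. -/
def Semi2 (B : X →ₗ[K] X →ₗ[K] K) : Prop :=
  ∃ Δ : Subgroup Γ, Δ.FiniteIndex ∧ ∃ θ : Γ → K, ∀ g ∈ Δ, ∀ u v, B (R g u) (R g v) = θ g * B u v

/-- The determinant form `(v₁, …, v_d) ↦ det (T₁ v₁, …, T_d v_d)`, where the `T_j` are linear maps
from `X` to `K ^ d`, is potentially semi-invariant. -/
def SemiDet {d : ℕ} (T : Fin d → X →ₗ[K] (Fin d → K)) : Prop :=
  ∃ Δ : Subgroup Γ, Δ.FiniteIndex ∧ ∃ θ : Γ → K, ∀ g ∈ Δ, ∀ v : Fin d → X,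
    Matrix.det (Matrix.of fun j => T j (R g (v j))) =
      θ g * Matrix.det (Matrix.of fun j => T j (v j))

/-- The function `f` is a product of potentially semi-invariant bilinear forms and potentially
semi-invariant determinant forms; every variable in `S` occurs in exactly one factor and the
other variables do not occur. -/
inductive IsProduct {κ : Type*} [DecidableEq κ] : Finset κ → ((κ → X) → K) → Prop
  | one : IsProduct ∅ (fun _ => 1)
  | pairing (S : Finset κ) (f : (κ → X) → K) (h : IsProduct S f) (k l : κ) (hk : k ∉ S)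
      (hl : l ∉ S) (hkl : k ≠ l) (B : X →ₗ[K] X →ₗ[K] K) (hB : Semi2 R B) :
      IsProduct (insert k (insert l S)) (fun v => B (v k) (v l) * f v)
  | det (S : Finset κ) (f : (κ → X) → K) (h : IsProduct S f) (d : ℕ) (k : Fin d ↪ κ)
      (hk : ∀ j, k j ∉ S) (T : Fin d → X →ₗ[K] (Fin d → K)) (hT : SemiDet R T) :
      IsProduct (Finset.univ.map k ∪ S)
        (fun v => Matrix.det (Matrix.of fun j => T j (v (k j))) * f v)

end Pool.Agent.W522.S
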