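import Mathlib
import Pool.Agent.W522.T.C3
import Pool.Agent.W522.S.Defs

/-!
# Potentially semi-invariant forms and their Lie algebra
-/

set_option linter.unusedSectionVars false

namespace Pool.Agent.W522.S

open Module Pool.Agent.H204R3.SP Pool.Agent.H204R3.GP Pool.Agent.W522.U Pool.Agent.W522.T

noncomputable section

section defs

variable {K : Type*} [Field K] {V : Type*} [AddCommGroup V] [Module K V] {Γ : Type*} [Group Γ]
  (ρ : Representation K Γ V)

/-- The derivation of `X` multiplies the form by `c`. -/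
def Scal {κ : Type*} [Fintype κ] [DecidableEq κ] (X : Module.End K V)
    (φ : MultilinearMap K (fun _ : κ => V) K) (c : K) : Prop :=
  ∀ v : κ → V, ∑ k, φ (Function.update v k (X (v k))) = c * φ v

theorem scal_add {κ : Type*} [Fintype κ] [DecidableEq κ] {X Y : Module.End K V}
    {φ : MultilinearMap K (fun _ : κ => V) K} {a b : K} (hX : Scal X φ a) (hY : Scal Y φ b) :
    Scal (X + Y) φ (a + b) := by
  intro v
  rw [add_mul, ← hX v, ← hY v, ← Finset.sum_add_distrib]
  refine Finset.sum_congr rfl fun k _ => ?_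
  rw [LinearMap.add_apply, MultilinearMap.map_update_add]

theorem scal_smul {κ : Type*} [Fintype κ] [DecidableEq κ] {X : Module.End K V}
    {φ : MultilinearMap K (fun _ : κ => V) K} {a : K} (c : K) (hX : Scal X φ a) :
    Scal (c • X) φ (c * a) := by
  intro v
  rw [mul_assoc, ← hX v, Finset.mul_sum]
  refine Finset.sum_congr rfl fun k _ => ?_
  rw [LinearMap.smul_apply, MultilinearMap.map_update_smul, smul_eq_mul]

theorem scal_zero {κ : Type*} [Fintype κ] [DecidableEq κ]
    (φ : MultilinearMap K (fun _ : κ => V) K) : Scal (0 : Module.End K V) φ 0 := by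
  intro v
  rw [zero_mul]
  refine Finset.sum_eq_zero fun k _ => ?_
  rw [LinearMap.zero_apply]
  exact φ.map_coord_zero k (Function.update_self _ _ _)

theorem scal_bracket {κ : Type*} [Fintype κ] [DecidableEq κ] {X Y : Module.End K V}
    {φ : MultilinearMap K (fun _ : κ => V) K} {a b : K} (hX : Scal X φ a) (hY : Scal Y φ b) :
    Scal (X * Y - Y * X) φ 0 := by
  intro v
  -- the double sums
  have key : ∀ (A B : Module.End K V) (a b : K), Scal A φ a → Scal B φ b →
      ∑ j, φ (Function.update v j (B (A (v j)))) = b * (a * φ v)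
        -∑ j, ∑ k ∈ Finset.univ.erase j,
          φ (Function.update (Function.update v j (A (v j))) k (B (v k))) := by
    intro A B a b hA hB
    rw [← hA v, Finset.mul_sum, ← Finset.sum_sub_distrib]
    refine Finset.sum_congr rfl fun j _ => ?_
    have h1 := hB (Function.update v j (A (v j)))
    rw [← Finset.add_sum_erase _ _ (Finset.mem_univ j), Function.update_self,
      Function.update_idem] at h1
    rw [eq_sub_iff_add_eq, ← h1]
    congr 1
    refine Finset.sum_congr rfl fun k hk => ?_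
    rw [Function.update_of_ne (Finset.ne_of_mem_erase hk)]
  have h1 : ∀ k, φ (Function.update v k ((X * Y - Y * X) (v k))) =
      φ (Function.update v k (X (Y (v k)))) - φ (Function.update v k (Y (X (v k)))) := by
    intro k
    rw [LinearMap.sub_apply, MultilinearMap.map_update_sub]
    rfl
  rw [Finset.sum_congr rfl (fun k _ => h1 k), Finset.sum_sub_distrib, key Y X b a hY hX,
    key X Y a b hX hY]
  have h2 : ∑ j, ∑ k ∈ Finset.univ.erase j,
      φ (Function.update (Function.update v j (Y (v j))) k (X (v k))) =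
      ∑ j, ∑ k ∈ Finset.univ.erase j,
      φ (Function.update (Function.update v j (X (v j))) k (Y (v k))) := by
    have h3 : ∀ (A B : Module.End K V), ∑ j, ∑ k ∈ Finset.univ.erase j,
        φ (Function.update (Function.update v j (A (v j))) k (B (v k))) =
        ∑ j, ∑ k, if k ≠ j then
          φ (Function.update (Function.update v j (A (v j))) k (B (v k))) else 0 := by
      intro A B
      refine Finset.sum_congr rfl fun j _ => ?_
      rw [← Finset.sum_filter]
      refine Finset.sum_congr ?_ fun _ _ => rfl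
      ext k
      simp
    rw [h3, h3, Finset.sum_comm]
    refine Finset.sum_congr rfl fun j _ => Finset.sum_congr rfl fun k _ => ?_
    by_cases h : k = j
    · subst h
      simp
    · rw [if_pos (Ne.symm h), if_pos h, Function.update_comm (Ne.symm h)]
  rw [h2]
  ring

/-- The endomorphisms whose derivations multiply all potentially semi-invariant forms by
scalars. -/
def lie1 : Submodule K (Module.End K V) where
  carrier := {X | ∀ (n : ℕ) (φ : MultilinearMap K (fun _ : Fin n => V) K), Semi ρ φ →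
    ∃ c, Scal X φ c}
  zero_mem' := fun n φ _ => ⟨0, scal_zero φ⟩
  add_mem' := by
    intro X Y hX hY n φ hφ
    obtain ⟨a, ha⟩ := hX n φ hφ
    obtain ⟨b, hb⟩ := hY n φ hφ
    exact ⟨_, scal_add ha hb⟩
  smul_mem' := by
    intro c X hX n φ hφ
    obtain ⟨a, ha⟩ := hX n φ hφ
    exact ⟨_, scal_smul c ha⟩

/-- The endomorphisms whose derivations kill all potentially semi-invariant forms. -/
def lie0 : Submodule K (Module.End K V) where
  carrier := {X | ∀ (n : ℕ) (φ : MultilinearMap K (fun _ : Fin n => V) K), Semi ρ φ →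
    Scal X φ 0}
  zero_mem' := fun n φ _ => scal_zero φ
  add_mem' := by
    intro X Y hX hY n φ hφ
    have h1 := scal_add (hX n φ hφ) (hY n φ hφ)
    rwa [add_zero] at h1
  smul_mem' := by
    intro c X hX n φ hφ
    have h1 := scal_smul c (hX n φ hφ)
    rwa [mul_zero] at h1

theorem lie0_le : lie0 ρ ≤ lie1 ρ := fun _ hX n φ hφ => ⟨0, hX n φ hφ⟩

theorem lie_bracket {X Y : Module.End K V} (hX : X ∈ lie1 ρ) (hY : Y ∈ lie1 ρ) :
    X * Y - Y * X ∈ lie0 ρ := by
  intro n φ hφ
  obtain ⟨a, ha⟩ := hX n φ hφ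
  obtain ⟨b, hb⟩ := hY n φ hφ
  exact scal_bracket ha hb

variable {ρ}

theorem Semi.conj {κ : Type*} {φ : MultilinearMap K (fun _ : κ => V) K} (hφ : Semi ρ φ) (s : Γ) :
    Semi ρ (φ.compLinearMap (fun _ => ρ s)) := by
  obtain ⟨Δ, hΔ, θ, hφ⟩ := hφ
  refine ⟨Δ.comap (MulAut.conj s).toMonoidHom, ⟨by
    rw [Subgroup.index_comap_of_surjective _ (MulAut.conj s).surjective]
    exact hΔ.index_ne_zero⟩, fun t => θ (s * t * s⁻¹), fun t ht v => ?_⟩
  have h1 : s * t * s⁻¹ ∈ Δ := by
    rw [Subgroup.mem_comap] at ht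
    exact ht
  have h2 := hφ _ h1 (fun k => ρ s (v k))
  change φ (fun k => ρ s (ρ t (v k))) = θ (s * t * s⁻¹) * φ (fun k => ρ s (v k))
  have h3 : ∀ k, ρ (s * t * s⁻¹) (ρ s (v k)) = ρ s (ρ t (v k)) := by
    intro k
    rw [map_mul, map_mul, Module.End.mul_apply, Module.End.mul_apply, rho_inv]
  simp only [h3] at h2
  exact h2

theorem scal_conj {κ : Type*} [Fintype κ] [DecidableEq κ] (s : Γ) {X : Module.End K V}
    {φ : MultilinearMap K (fun _ : κ => V) K} {c : K}
    (h : Scal X (φ.compLinearMap (fun _ => ρ s)) c) : Scal (ρ s * X * ρ s⁻¹) φ c := by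
  intro v
  have h1 := h (fun k => ρ s⁻¹ (v k))
  have h0 : (φ.compLinearMap (fun _ => ρ s)) (fun k => ρ s⁻¹ (v k)) = φ v := by
    change φ (fun k => ρ s (ρ s⁻¹ (v k))) = _
    congr 1
    funext k
    exact rho_inv' ρ s (v k)
  rw [h0] at h1
  rw [← h1]
  refine Finset.sum_congr rfl fun k _ => ?_
  change _ = φ (fun l => ρ s (Function.update (fun k => ρ s⁻¹ (v k)) k (X (ρ s⁻¹ (v k))) l))
  congr 1
  funext l
  by_cases h : l = k
  · subst h
    rw [Function.update_self, Function.update_self]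
    rfl
  · rw [Function.update_of_ne h, Function.update_of_ne h, rho_inv']

theorem lie1_conj (s : Γ) {X : Module.End K V} (hX : X ∈ lie1 ρ) : ρ s * X * ρ s⁻¹ ∈ lie1 ρ := by
  intro n _ hφ
  obtain ⟨c, hc⟩ := hX n _ (hφ.conj s)
  exact ⟨c, scal_conj s hc⟩

theorem lie0_conj (s : Γ) {X : Module.End K V} (hX : X ∈ lie0 ρ) : ρ s * X * ρ s⁻¹ ∈ lie0 ρ :=
  fun n φ hφ => scal_conj s (hX n _ (hφ.conj s))

/-- The same for any finite set of variables. -/
theorem scal_of_lie0 {κ : Type*} [Fintype κ] [DecidableEq κ] {X : Module.End K V}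
    (hX : X ∈ lie0 ρ) {φ : MultilinearMap K (fun _ : κ => V) K} (hφ : Semi ρ φ) :
    Scal X φ 0 := by
  obtain ⟨Δ, hΔ, θ, hθ⟩ := hφ
  let e := Fintype.equivFin κ
  have h1 := hX _ (φ.domDomCongr e) ⟨Δ, hΔ, θ, fun s hs v => by
    rw [MultilinearMap.domDomCongr_apply, MultilinearMap.domDomCongr_apply]
    exact hθ s hs _⟩
  intro v
  have h2 := h1 (fun i => v (e.symm i))
  rw [zero_mul] at h2 ⊢
  rw [← h2, ← Equiv.sum_comp e]
  refine Finset.sum_congr rfl fun k _ => ?_
  rw [MultilinearMap.domDomCongr_apply]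
  congr 1
  funext l
  simp only [Equiv.symm_apply_apply]
  by_cases h : l = k
  · subst h
    rw [Function.update_self, Function.update_self]
  · rw [Function.update_of_ne h, Function.update_of_ne (fun h' => h (e.injective h')),
      Equiv.symm_apply_apply]

theorem scal_two {B : V →ₗ[K] V →ₗ[K] K} {X : Module.End K V} {c : K} (h : Scal X (bil2 B) c)
    (u v : V) : B (X u) v + B u (X v) = c * B u v := by
  have h1 := h ![u, v]
  rw [Fin.sum_univ_two, bil2_apply, bil2_apply, bil2_apply] at h1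
  simpa using h1

theorem semi_bil2 {B : V →ₗ[K] V →ₗ[K] K} (hB : Semi2 ρ B) : Semi ρ (bil2 B) := by
  obtain ⟨Δ, hΔ, θ, h⟩ := hB
  refine ⟨Δ, hΔ, θ, fun s hs v => ?_⟩
  rw [bil2_apply, bil2_apply]
  exact h s hs _ _

theorem lie1_two {B : V →ₗ[K] V →ₗ[K] K} (hB : Semi2 ρ B) {X : Module.End K V}
    (hX : X ∈ lie1 ρ) : ∃ c, ∀ u v, B (X u) v + B u (X v) = c * B u v := by
  obtain ⟨c, hc⟩ := hX _ _ (semi_bil2 hB)
  exact ⟨c, scal_two hc⟩

theorem lie0_two {B : V →ₗ[K] V →ₗ[K] K} (hB : Semi2 ρ B) {X : Module.End K V}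
    (hX : X ∈ lie0 ρ) (u v : V) : B (X u) v + B u (X v) = 0 := by
  have h1 := scal_two (hX _ _ (semi_bil2 hB)) u v
  rwa [zero_mul] at h1

end defs

end

end Pool.Agent.W522.S
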