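import Mathlib
import Pool.Agent.W522.S.S1
import Pool.Agent.W522.T.E1

/-!
# The Lie algebra of the semi-invariant forms on a direct sum
-/

set_option linter.unusedSectionVars false

namespace Pool.Agent.W522.S

open Module Pool.Agent.H204R3.SP Pool.Agent.H204R3.GP
open Pool.Agent.W522.U (piRep piRep_apply piRep_single blk blk_apply blk_single par par_apply
  par_inj par_bij finrank_st r_inv r_inv' Irr gen_eig gen_pow gen_single exists_pow_mem om_skew)
open Pool.Agent.W522.T (brk LieFam Types Ty NoTwist full_indep independent exists_area trace_one_dim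
  trace_rk gen_ne_zero IsLog lc lc_zero lc_one deriv_multi gen_pow_apply full conj_one Ind cj
  exists_reflect exists_avoid brk_tr)

noncomputable section

section cramer

variable {K : Type*} [Field K] {V : Type*} [AddCommGroup V] [Module K V] {ι : Type*} [Fintype ι]
  [DecidableEq ι] (b : Basis ι K V)

/-- Cramer's rule. -/
theorem cramer_vec (v : ι → V) (u : V) :
    ∑ k, b.det (Function.update v k u) • v k = b.det v • u := by
  have h1 := Matrix.mulVec_cramer (b.toMatrix v) (b.repr u)
  refine b.ext_elem fun i => ?_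
  have h2 := congrFun h1 i
  rw [Matrix.mulVec, dotProduct] at h2
  rw [map_smul, Finsupp.smul_apply, smul_eq_mul, _root_.map_sum, Finsupp.finsetSum_apply]
  rw [Pi.smul_apply, smul_eq_mul] at h2
  rw [b.det_apply, ← h2]
  refine Finset.sum_congr rfl fun k _ => ?_
  rw [map_smul, Finsupp.smul_apply, smul_eq_mul, Matrix.cramer_apply, b.det_apply,
    Basis.toMatrix_update, Basis.toMatrix_apply, mul_comm]

theorem det_rk (φ : Dual K V) (u : V) (v : ι → V) :
    ∑ k, b.det (Function.update v k (φ (v k) • u)) = φ u * b.det v := by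
  have h1 := congrArg φ (cramer_vec b v u)
  rw [_root_.map_sum, map_smul, smul_eq_mul] at h1
  rw [mul_comm, ← h1]
  refine Finset.sum_congr rfl fun k _ => ?_
  rw [map_smul, AlternatingMap.map_update_smul, smul_eq_mul, smul_eq_mul, mul_comm]

theorem det_trace [FiniteDimensional K V] (X : Module.End K V) (v : ι → V) :
    ∑ k, b.det (Function.update v k (X (v k))) = LinearMap.trace K V X * b.det v := by
  have h1 : X = ∑ i, (b.coord i).smulRight (X (b i)) := by
    refine b.ext fun j => ?_
    rw [LinearMap.sum_apply, Finset.sum_eq_single j]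
    · simp
    · intro i _ hi
      simp [hi.symm]
    · intro h
      exact absurd (Finset.mem_univ _) h
  have h2 : LinearMap.trace K V X = ∑ i, b.coord i (X (b i)) := by
    conv_lhs => rw [h1]
    rw [_root_.map_sum]
    exact Finset.sum_congr rfl fun i _ => LinearMap.trace_smulRight _ _
  rw [h2, Finset.sum_mul, ← Finset.sum_congr rfl (fun i _ => det_rk b (b.coord i) (X (b i)) v),
    Finset.sum_comm]
  refine Finset.sum_congr rfl fun k _ => ?_
  conv_lhs => rw [h1]
  rw [LinearMap.sum_apply, AlternatingMap.map_update_sum]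
  rfl

end cramer

variable {K : Type*} [Field K] [CharZero K]
  {I : Type*} [Fintype I] [DecidableEq I] {E : I → Type*} [∀ i, AddCommGroup (E i)]
  [∀ i, Module K (E i)] [∀ i, FiniteDimensional K (E i)] {G : Type*} [Group G]
  (r : ∀ i, Representation K G (E i))

/-- The families which multiply the semi-invariant forms by scalars. -/
def f1 : Submodule K (∀ i, Module.End K (E i)) := (lie1 (piRep r)).comap blk

/-- The families which kill the semi-invariant forms. -/
def f0 : Submodule K (∀ i, Module.End K (E i)) := (lie0 (piRep r)).comap blk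

theorem mem_f0 (X : ∀ i, Module.End K (E i)) : X ∈ f0 r ↔ blk X ∈ lie0 (piRep r) := Iff.rfl

theorem mem_f1 (X : ∀ i, Module.End K (E i)) : X ∈ f1 r ↔ blk X ∈ lie1 (piRep r) := Iff.rfl

theorem f0_le : f0 r ≤ f1 r := fun _ hX => lie0_le _ hX

theorem brk_mem {X Y : ∀ i, Module.End K (E i)} (hX : X ∈ f1 r) (hY : Y ∈ f1 r) :
    brk X Y ∈ f0 r := by
  have h1 := lie_bracket (piRep r) hX hY
  exact h1

theorem cj_mem1 (g : G) {X : ∀ i, Module.End K (E i)} (hX : X ∈ f1 r) : cj r g X ∈ f1 r := by
  have h1 := lie1_conj (ρ := piRep r) g hX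
  exact h1

theorem cj_mem0 (g : G) {X : ∀ i, Module.End K (E i)} (hX : X ∈ f0 r) : cj r g X ∈ f0 r := by
  have h1 := lie0_conj (ρ := piRep r) g hX
  exact h1

theorem lieFam_f0 : LieFam r (f0 r) where
  br := fun _ hX _ hY => brk_mem r (f0_le r hX) (f0_le r hY)
  conj := fun g _ hX => cj_mem0 r g hX

/-- The determinant of a component is a semi-invariant form. -/
theorem det_semi (i : I) {ι : Type*} [Fintype ι] [DecidableEq ι] (b : Basis ι K (E i)) :
    Semi (piRep r) ((b.det : MultilinearMap K (fun _ : ι => E i) K).compLinearMap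
      (fun _ => LinearMap.proj i)) := by
  refine ⟨⊤, inferInstance, fun g => LinearMap.det (r i g), fun g _ v => ?_⟩
  exact Basis.det_comp b (r i g) (fun k => v k i)

theorem f0_tr {X : ∀ i, Module.End K (E i)} (hX : X ∈ f0 r) (i : I) :
    LinearMap.trace K (E i) (X i) = 0 := by
  classical
  let b := Module.finBasis K (E i)
  have h1 := scal_of_lie0 hX (det_semi r i b) (fun k => Pi.single i (b k))
  rw [zero_mul] at h1
  have h2 := det_trace b (X i) b
  rw [b.det_self, mul_one] at h2
  rw [← h2, ← h1]
  refine Finset.sum_congr rfl fun k _ => ?_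
  change _ = b.det (fun l => (Function.update (fun k => (Pi.single i (b k) : ∀ i, E i)) k
    (blk X (Pi.single i (b k))) l) i)
  congr 1
  funext l
  by_cases h : l = k
  · subst h
    rw [Function.update_self, Function.update_self, blk_single, Pi.single_eq_same]
  · rw [Function.update_of_ne h, Function.update_of_ne h, Pi.single_eq_same]

variable {r} (ω : (∀ i, E i) →ₗ[K] (∀ i, E i) →ₗ[K] K) (halt : ∀ u, ω u u = 0)
  (hnd : ∀ u, (∀ w, ω u w = 0) → u = 0)
  (st : I → I) (hst : ∀ i, st (st i) = i)
  (hor : ∀ i j, j ≠ st i → ∀ (u : E i) (v : E j), ω (Pi.single i u) (Pi.single j v) = 0)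
  (χ : I → G → K)
  (hωr : ∀ i g (u : E i) (v : E (st i)), ω (Pi.single i (r i g u)) (Pi.single (st i)
    (r (st i) g v)) = χ i g * ω (Pi.single i u) (Pi.single (st i) v))
  (htw : ∀ i j, i ≠ j → 2 ≤ finrank K (E i) → 2 ≤ finrank K (E j) →
    ∀ (T : E i →ₗ[K] E j) (ψ : G → K), (∀ g u, T (r i g u) = ψ g • r j g (T u)) → T = 0)

include hor hωr in
theorem om_sim (i : I) (g : G) (u w : ∀ i, E i) :
    ω (Pi.single i (r i g (u i))) (piRep r g w) = χ i g * ω (Pi.single i (u i)) w := by
  have h1 : ∀ (x : E i) (w : ∀ i, E i), ω (Pi.single i x) w =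
      ω (Pi.single i x) (Pi.single (st i) (w (st i))) := by
    intro x w
    conv_lhs => rw [← Finset.univ_sum_single w]
    rw [_root_.map_sum, Finset.sum_eq_single (st i)]
    · intro j _ hj
      exact hor i j hj _ _
    · intro h
      exact absurd (Finset.mem_univ _) h
  rw [h1, h1 (u i) w, ← hωr]
  rfl

include hor hωr in
/-- The pairing of two components is semi-invariant. -/
theorem pair_semi (i : I) : Semi2 (piRep r)
    (ω.comp ((LinearMap.single K E i).comp (LinearMap.proj i))) := by
  refine ⟨⊤, inferInstance, χ i, fun g _ u w => ?_⟩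
  exact om_sim ω st hor χ hωr i g u w

include hor hωr in
theorem f0_sp {X : ∀ i, Module.End K (E i)} (hX : X ∈ f0 r) (i : I) (u : E i) (v : E (st i)) :
    ω (Pi.single i (X i u)) (Pi.single (st i) v) +
      ω (Pi.single i u) (Pi.single (st i) (X (st i) v)) = 0 := by
  have h1 := lie0_two (pair_semi ω st hor χ hωr i) hX (Pi.single i u) (Pi.single (st i) v)
  rw [blk_single, blk_single] at h1
  simpa using h1

include hnd hor hωr in
theorem chi_ne' {i : I} (hi : 0 < finrank K (E i)) (g : G) : χ i g ≠ 0 := by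
  intro h
  have _ : Nontrivial (E i) := Module.nontrivial_of_finrank_pos hi
  obtain ⟨u, hu⟩ := _root_.exists_ne (0 : E i)
  apply hu
  have h1 := par_inj ω hnd st hor i (st i) rfl
  have h2 : r i g u = 0 := by
    apply h1
    rw [map_zero]
    refine LinearMap.ext fun v => ?_
    rw [LinearMap.zero_apply, par_apply]
    have h3 := hωr i g u (r (st i) g⁻¹ v)
    rw [r_inv', h, zero_mul] at h3
    exact h3
  rw [← r_inv (r := r i) g u, h2, map_zero]

include hnd hor hst hωr htw in
/-- No twisted homomorphisms to the dual. -/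
theorem no_dual (i j : I) (hij : i ≠ st j) (hi : 2 ≤ finrank K (E i)) (hj : 2 ≤ finrank K (E j))
    (T : E i →ₗ[K] Dual K (E j)) (ψ : G → K)
    (hT : ∀ g u v, T (r i g u) (r j g v) = ψ g * T u v) : T = 0 := by
  have hbij := par_bij ω hnd st hst hor (st j) j (hst j).symm
  let B : E (st j) ≃ₗ[K] Dual K (E j) := LinearEquiv.ofBijective _ hbij
  have hB : ∀ w, B w = par ω (st j) j w := fun _ => rfl
  let T' : E i →ₗ[K] E (st j) := B.symm.toLinearMap.comp T
  have hBT : ∀ u, B (T' u) = T u := fun u => B.apply_symm_apply _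
  have hjj : st (st j) = j := hst j
  have hsim : ∀ g (w : E (st j)) (v : E j), par ω (st j) j (r (st j) g w) (r j g v) =
      χ (st j) g * par ω (st j) j w v := by
    intro g w v
    have h1 := hωr (st j) g w
    rw [hst j] at h1
    exact h1 v
  have h1 := htw i (st j) hij hi (by rw [finrank_st ω hnd st hst hor]; exact hj) T'
    (fun g => ψ g * (χ (st j) g)⁻¹) (by
    intro g u
    apply B.injective
    rw [hBT, map_smul]
    ext v
    rw [LinearMap.smul_apply, hB, smul_eq_mul]
    have h2 := hT g u (r j g⁻¹ v)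
    rw [r_inv'] at h2
    rw [h2]
    have h3 := hsim g (T' u) (r j g⁻¹ v)
    rw [r_inv'] at h3
    rw [h3, ← hB, hBT]
    have := chi_ne' ω hnd st hor χ hωr (i := st j)
      (by rw [finrank_st ω hnd st hst hor]; omega) g
    field_simp)
  have h2 : T = B.toLinearMap.comp T' := by
    ext1 u
    exact (hBT u).symm
  rw [h2, h1, LinearMap.comp_zero]

variable (hirr : ∀ i, 2 ≤ finrank K (E i) → Irr (r i))
  (hnil : ∀ i, 2 ≤ finrank K (E i) → ∃ X ∈ f0 r,
    ∃ (u : E i) (φ : Dual K (E i)), u ≠ 0 ∧ φ ≠ 0 ∧ φ u = 0 ∧ X i = φ.smulRight u)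

include halt hnd hωr hst hor htw hirr hnil in
theorem types_f0 : Types r (f0 r) (fun i => 2 ≤ finrank K (E i)) (fun i => st i = i)
    (fun i => par ω i i) χ where
  irr := hirr
  alt := fun i _ u => halt _
  inj := fun i hi => par_inj ω hnd st hor i i hi.symm
  sim := by
    intro i hi g u v
    have h1 := hωr i g u
    rw [hi] at h1
    exact h1 v
  sp := by
    intro i hi X hX u v
    have h1 := f0_sp ω st hor χ hωr hX i u
    rw [hi] at h1
    exact h1 v
  nf := by
    intro i hi his β ψ hβ hsim
    have h1 := no_dual ω hnd st hst hor χ hωr htw i i (fun h => his h.symm) hi hi β ψ hsim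
    have h2 : 0 < finrank K (E i) := by omega
    have _ : Nontrivial (E i) := Module.nontrivial_of_finrank_pos h2
    obtain ⟨u, hu⟩ := _root_.exists_ne (0 : E i)
    apply hu
    apply hβ
    rw [h1, LinearMap.zero_apply, LinearMap.zero_apply]
  tr := fun X hX i => f0_tr r hX i
  nil := hnil

include halt hnd hωr hst hor htw hirr hnil in
/-- All rank one operators of one component. -/
theorem exists_elem (i : I) (hi : 2 ≤ finrank K (E i)) (u : E i) (φ : Dual K (E i))
    (hφ : Ty (fun i => st i = i) (fun i => par ω i i) i u φ) :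
    ∃ X ∈ f0 r, X i = φ.smulRight u ∧ ∀ j, j ≠ i → j ≠ st i → X j = 0 := by
  classical
  have hT := types_f0 ω halt hnd st hst hor χ hωr htw hirr hnil
  have h𝔥 := lieFam_f0 r
  obtain ⟨X, hX, hXi, hXj⟩ := full_indep h𝔥 hT hi
    ((Finset.univ.erase i).erase (st i)) (by
      intro j hj
      rw [Finset.mem_erase, Finset.mem_erase] at hj
      by_cases hj2 : 2 ≤ finrank K (E j)
      · have hji : i ≠ st j := fun h => hj.1 (by rw [h, hst])
        refine independent h𝔥 hT hi hj2 ⟨?_, ?_⟩ ⟨?_, ?_⟩
        · intro T ψ h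
          exact htw i j (Ne.symm hj.2.1) hi hj2 T ψ h
        · intro T ψ h
          refine no_dual ω hnd st hst hor χ hωr htw i j hji hi hj2 T ψ fun g u v => ?_
          rw [h g u, LinearMap.smul_apply, smul_eq_mul]
          congr 1
          change T u (r j g⁻¹ (r j g v)) = _
          rw [r_inv]
        · intro T ψ h
          exact htw j i hj.2.1 hj2 hi T ψ h
        · intro T ψ h
          refine no_dual ω hnd st hst hor χ hωr htw j i (fun h => hj.1 h) hj2 hi
            T ψ fun g u v => ?_
          rw [h g u, LinearMap.smul_apply, smul_eq_mul]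
          congr 1
          change T u (r i g⁻¹ (r i g v)) = _
          rw [r_inv]
      · obtain ⟨N, hN, u, φ, hu, hφ, hφu, hNi⟩ := hT.nil i hi
        exact ⟨N, hN, trace_one_dim (by omega) (N j) (f0_tr r hN j), u, φ, hu, hφ, hφu, hNi⟩) u φ hφ
  refine ⟨X, hX, hXi, fun j h1 h2 => hXj j ?_⟩
  rw [Finset.mem_erase, Finset.mem_erase]
  exact ⟨h2, h1, Finset.mem_univ _⟩

end

end Pool.Agent.W522.S
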