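import Mathlib
import Pool.Agent.W522.S.S2

/-!
# Toral and unipotent elements, reflections
-/

set_option linter.unusedSectionVars false

namespace Pool.Agent.W522.S

open Module Pool.Agent.H204R3.SP Pool.Agent.H204R3.GP
open Pool.Agent.W522.U (piRep piRep_apply piRep_single blk blk_apply blk_single par par_apply
  par_inj par_bij finrank_st r_inv r_inv' Irr gen_eig gen_pow gen_single exists_pow_mem om_skew)
open Pool.Agent.W522.T (brk LieFam Types Ty NoTwist full_indep independent exists_area trace_one_dim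
  trace_rk gen_ne_zero IsLog lc lc_zero lc_one deriv_multi gen_pow_apply full conj_one Ind cj
  exists_reflect exists_avoid brk_tr trace_sp)

noncomputable section

/-- The scalar can be checked on basis vectors. -/
theorem scal_of_basis {K V R κ : Type*} [Field K] [AddCommGroup V] [Module K V] [Fintype R]
    (e : Basis R K V) [Fintype κ] [DecidableEq κ] (X : Module.End K V)
    (φ : MultilinearMap K (fun _ : κ => V) K) (c : K)
    (h : ∀ J : κ → R, ∑ k, φ (Function.update (fun l => e (J l)) k (X (e (J k)))) =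
      c * φ (fun l => e (J l))) : Scal X φ c := by
  let D : MultilinearMap K (fun _ : κ => V) K :=
    ∑ k, φ.compLinearMap (fun l => if l = k then X else LinearMap.id)
  have hD : ∀ v, D v = ∑ k, φ (Function.update v k (X (v k))) := by
    intro v
    change (∑ k, φ.compLinearMap (fun l => if l = k then X else LinearMap.id)) v = _
    rw [MultilinearMap.sum_apply]
    refine Finset.sum_congr rfl fun k _ => ?_
    rw [MultilinearMap.compLinearMap_apply]
    congr 1
    funext l
    by_cases hl : l = k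
    · subst hl
      rw [Function.update_self, if_pos rfl]
    · rw [Function.update_of_ne hl, if_neg hl]
      rfl
  have h0 : D = c • φ := by
    refine Basis.ext_multilinear (fun _ => e) fun J => ?_
    rw [hD, MultilinearMap.smul_apply, smul_eq_mul]
    exact h J
  intro v
  rw [← hD, h0, MultilinearMap.smul_apply, smul_eq_mul]

variable {K : Type*} [Field K] [CharZero K]
  {I : Type*} [Fintype I] [DecidableEq I] {E : I → Type*} [∀ i, AddCommGroup (E i)]
  [∀ i, Module K (E i)] [∀ i, FiniteDimensional K (E i)] {G : Type*} [Group G]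
  (r : ∀ i, Representation K G (E i))

theorem semi_pow {V κ : Type*} [AddCommGroup V] [Module K V]
    (φ : MultilinearMap K (fun _ : κ => V) K) (T : Module.End K V) (c : K)
    (h : ∀ v, φ (fun k => T (v k)) = c * φ v) (n : ℕ) (v : κ → V) :
    φ (fun k => (T ^ n) (v k)) = c ^ n * φ v := by
  induction n generalizing v with
  | zero => simp
  | succ n ih =>
    simp only [pow_succ, Module.End.mul_apply]
    rw [ih (fun k => T (v k)), h]
    ring

/-- A basis of generalised eigenvectors and a logarithm give an element of the Lie algebra. -/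
theorem toral (γ : G) {ι : I → Type*} [∀ j, Fintype (ι j)] (b : ∀ j, Basis (ι j) K (E j))
    (x : ∀ j, ι j → K) (hb : ∀ j k, b j k ∈ Module.End.maxGenEigenspace (r j γ) (x j k))
    {f : K → K} (hf : IsLog f) :
    (fun j => (b j).constr K (fun k => f (x j k) • b j k)) ∈ f1 r := by
  classical
  rw [mem_f1]
  intro m φ hφ
  obtain ⟨Δ, hΔ, θ, hφ⟩ := hφ
  obtain ⟨M, hM0, hM⟩ := exists_pow_mem Δ hΔ γ
  have hMK : (M : K) ≠ 0 := Nat.cast_ne_zero.2 hM0
  refine ⟨f (θ (γ ^ M)) / M, scal_of_basis (Pi.basis b) _ φ _ fun J => ?_⟩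
  have h1 : ∀ p : Σ j, ι j, blk (fun j => (b j).constr K (fun k => f (x j k) • b j k))
      (Pi.basis b p) = f (x p.1 p.2) • Pi.basis b p := by
    intro p
    rw [Pi.basis_apply, blk_single, Basis.constr_basis, Pi.single_smul]
  have h2 : ∀ k, φ (Function.update (fun l => Pi.basis b (J l)) k (blk (fun j => (b j).constr K
      (fun k => f (x j k) • b j k)) (Pi.basis b (J k)))) =
      f (x (J k).1 (J k).2) * φ (fun l => Pi.basis b (J l)) := by
    intro k
    rw [h1, φ.map_update_smul, Function.update_eq_self, smul_eq_mul]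
  rw [Finset.sum_congr rfl (fun k _ => h2 k), ← Finset.sum_mul]
  by_cases h0 : φ (fun l => Pi.basis b (J l)) = 0
  · rw [h0, mul_zero, mul_zero]
  · congr 1
    have hx : ∀ p : Σ j, ι j, x p.1 p.2 ≠ 0 := fun p =>
      gen_ne_zero (r_inv (r := r p.1) γ) ((b p.1).ne_zero p.2) (hb p.1 p.2)
    have h3 := gen_eig φ (piRep r γ ^ M) (θ (γ ^ M)) (fun v => by
      rw [← map_pow]
      exact hφ _ hM v) (fun k => x (J k).1 (J k).2 ^ M) (fun l => Pi.basis b (J l)) (fun k => by
      refine gen_pow _ _ _ ?_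
      rw [Pi.basis_apply]
      exact gen_single γ _ _ (hb _ _)) h0
    have h4 := congrArg f h3
    rw [hf.prod _ _ (fun k _ => pow_ne_zero _ (hx _))] at h4
    have h5 : ∀ k ∈ (Finset.univ : Finset (Fin m)), f (x (J k).1 (J k).2 ^ M) =
        M * f (x (J k).1 (J k).2) := fun k _ => hf.pow (hx _) M
    rw [Finset.sum_congr rfl h5, ← Finset.mul_sum] at h4
    rw [h4, mul_div_cancel_left₀ _ hMK]

/-- The logarithm of the unipotent part of an element. -/
theorem unipotent (γ : G) {ι : I → Type*} [∀ j, Fintype (ι j)] (b : ∀ j, Basis (ι j) K (E j))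
    (x : ∀ j, ι j → K) (hb : ∀ j k, b j k ∈ Module.End.maxGenEigenspace (r j γ) (x j k)) :
    ∃ L : ℕ, (fun j => (b j).constr K (fun k => ∑ l : Fin (L + 2), lc K l.1 •
      (((x j k)⁻¹ • (r j γ - x j k • (1 : Module.End K (E j)))) ^ l.1) (b j k))) ∈ f0 r := by
  classical
  let L : ℕ := ∑ j, finrank K (E j)
  have hL : ∀ j, finrank K (E j) ≤ L + 1 := fun j =>
    (Finset.single_le_sum (f := fun j => finrank K (E j)) (fun _ _ => Nat.zero_le _)
      (Finset.mem_univ j)).trans (Nat.le_succ _)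
  have hbL : ∀ j k, ((r j γ - x j k • (1 : Module.End K (E j))) ^ (L + 1)) (b j k) = 0 := by
    intro j k
    have h1 := hb j k
    rw [Module.End.maxGenEigenspace_eq_genEigenspace_finrank, Module.End.mem_genEigenspace_nat,
      LinearMap.mem_ker] at h1
    obtain ⟨d, hd⟩ := Nat.exists_eq_add_of_le (hL j)
    rw [hd, add_comm _ d, pow_add, Module.End.mul_apply, h1, map_zero]
  refine ⟨L, ?_⟩
  set N : ∀ j, ι j → Module.End K (E j) := fun j k =>
    (x j k)⁻¹ • (r j γ - x j k • (1 : Module.End K (E j))) with hN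
  have hx : ∀ p : Σ j, ι j, x p.1 p.2 ≠ 0 := fun p =>
    gen_ne_zero (r_inv (r := r p.1) γ) ((b p.1).ne_zero p.2) (hb p.1 p.2)
  rw [mem_f0]
  intro m φ hφ
  obtain ⟨Δ, hΔ, θ, hφ⟩ := hφ
  refine scal_of_basis (Pi.basis b) _ φ 0 fun J => ?_
  rw [zero_mul]
  obtain ⟨M, hM0, hM⟩ := exists_pow_mem Δ hΔ γ
  have h4 : ∀ (j : I) (k : ι j) (n : ℕ), (Pi.single j (r j (γ ^ n) (b j k)) : ∀ j, E j) =
      (x j k) ^ n • ∑ l : Fin (L + 2), (n.choose l.1 : K) • (Pi.single j ((N j k ^ l.1) (b j k)) :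
        ∀ j, E j) := by
    intro j k n
    have h5 := gen_pow_apply (r j γ) (hx ⟨j, k⟩) (hbL j k) n
    have h6 : r j (γ ^ n) (b j k) = (x j k) ^ n • ∑ l : Fin (L + 2), (n.choose l.1 : K) •
        (N j k ^ l.1) (b j k) := by
      rw [← h5, smul_smul, ← mul_pow, mul_inv_cancel₀ (hx ⟨j, k⟩), one_pow, one_smul, map_pow]
    rw [h6]
    change LinearMap.single K E j _ = _ • ∑ l : Fin (L + 2), _ • LinearMap.single K E j _
    rw [map_smul, _root_.map_sum]
    congr 1
    refine Finset.sum_congr rfl fun l _ => ?_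
    rw [map_smul]
  let w : Fin m → Fin (L + 1 + 1) → (∀ j, E j) := fun k l =>
    Pi.single (J k).1 ((N (J k).1 (J k).2 ^ l.1) (b (J k).1 (J k).2))
  have hw0 : ∀ k, w k 0 = Pi.basis b (J k) := by
    intro k
    rw [Pi.basis_apply]
    simp only [w]
    rw [Fin.val_zero, pow_zero]
    rfl
  have hφM : ∀ v, φ (fun k => (piRep r γ ^ M) (v k)) = θ (γ ^ M) * φ v := by
    intro v
    rw [← map_pow]
    exact hφ _ hM v
  have key := deriv_multi φ w M hM0 (by
    intro n
    have h5 : φ (fun k => piRep r (γ ^ (M * n)) (w k 0)) = θ (γ ^ M) ^ n *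
        φ (fun k => w k 0) := by
      have h6 := semi_pow φ (piRep r γ ^ M) _ hφM n (fun k => w k 0)
      rw [← h6, map_pow, pow_mul]
    have h6 : (fun k => piRep r (γ ^ (M * n)) (w k 0)) = fun k =>
        (x (J k).1 (J k).2 ^ (M * n)) • ∑ l : Fin (L + 1 + 1), ((M * n).choose l.1 : K) • w k l := by
      funext k
      rw [hw0, Pi.basis_apply, piRep_single, h4]
    rw [h6, MultilinearMap.map_smul_univ, smul_eq_mul] at h5
    have h7 : (∏ k, x (J k).1 (J k).2 ^ (M * n)) ≠ 0 :=
      Finset.prod_ne_zero_iff.2 fun k _ => pow_ne_zero _ (hx _)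
    apply mul_left_cancel₀ h7
    rw [h5]
    by_cases h0 : φ (fun k => w k 0) = 0
    · rw [h0, mul_zero, mul_zero]
    · congr 1
      have h8 := gen_eig φ (piRep r γ ^ M) (θ (γ ^ M)) hφM
        (fun k => x (J k).1 (J k).2 ^ M) (fun k => w k 0) (fun k => by
        refine gen_pow _ _ _ ?_
        rw [hw0, Pi.basis_apply]
        exact gen_single γ _ _ (hb _ _)) h0
      have h9 : ∀ k, x (J k).1 (J k).2 ^ (M * n) = (x (J k).1 (J k).2 ^ M) ^ n := fun k =>
        pow_mul _ _ _
      rw [Finset.prod_congr rfl (fun k _ => h9 k), Finset.prod_pow, ← h8])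
  rw [← key]
  refine Finset.sum_congr rfl fun k _ => ?_
  have h10 : blk (fun j => (b j).constr K (fun k => ∑ l : Fin (L + 2), lc K l.1 •
      ((N j k) ^ l.1) (b j k))) (Pi.basis b (J k)) = ∑ l : Fin (L + 1 + 1), lc K l.1 • w k l := by
    rw [Pi.basis_apply, blk_single, Basis.constr_basis]
    change LinearMap.single K E _ _ = ∑ l : Fin (L + 2), _ • LinearMap.single K E _ _
    rw [_root_.map_sum]
    refine Finset.sum_congr rfl fun l _ => ?_
    rw [map_smul]
  rw [h10, MultilinearMap.map_update_sum]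
  refine Finset.sum_congr rfl fun l _ => ?_
  rw [MultilinearMap.map_update_smul, smul_eq_mul]
  congr 3
  funext k
  exact (hw0 k).symm

variable {r}

/-- A reflection produces a transvection. -/
theorem nil_of_refl {i : I} (hirr : Irr (r i)) (h2 : 2 ≤ finrank K (E i))
    {X : ∀ i, Module.End K (E i)} (hX : X ∈ f1 r) {c₀ c₁ : K} (hc₁ : c₁ ≠ 0) {v : E i}
    {ξ : Dual K (E i)} (hξ : ξ v = 1) (hXi : ∀ w, X i w = c₀ • w + (c₁ * ξ w) • v) :
    ∃ Z ∈ f0 r, ∃ (u : E i) (φ : Dual K (E i)), u ≠ 0 ∧ φ ≠ 0 ∧ φ u = 0 ∧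
      Z i = φ.smulRight u := by
  have hv : v ≠ 0 := by
    rintro rfl
    rw [map_zero] at hξ
    exact zero_ne_one hξ
  obtain ⟨g, hg1, hg2⟩ := exists_reflect hirr h2 hξ
  set Y := cj r g X with hY
  have hYm : Y ∈ f1 r := cj_mem1 r g hX
  have h1 : brk X Y ∈ f0 r := brk_mem r hX hYm
  have h3 : brk X (brk X Y) ∈ f0 r := brk_mem r hX (f0_le r h1)
  refine ⟨brk X (brk X Y) + c₁ • brk X Y, Submodule.add_mem _ h3 (Submodule.smul_mem _ _ h1), v,
    (2 * c₁ ^ 3 * ξ (r i g v)) • (ξ.comp (r i g⁻¹) - ξ (r i g⁻¹ v) • ξ), hv, ?_, ?_, ?_⟩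
  · intro h
    rcases smul_eq_zero.1 h with h4 | h4
    · have h5 : (2 : K) * c₁ ^ 3 ≠ 0 := mul_ne_zero two_ne_zero (pow_ne_zero _ hc₁)
      exact (mul_ne_zero h5 hg1) h4
    · exact hg2 _ (sub_eq_zero.1 h4)
  · rw [LinearMap.smul_apply, LinearMap.sub_apply, LinearMap.comp_apply, LinearMap.smul_apply, hξ,
      smul_eq_mul, smul_eq_mul, mul_one, sub_self, mul_zero]
  · have hYi : ∀ w, Y i w = c₀ • w + (c₁ * ξ (r i g⁻¹ w)) • r i g v := by
      intro w
      change r i g (X i (r i g⁻¹ w)) = _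
      rw [hXi, map_add, map_smul, map_smul, r_inv']
    refine LinearMap.ext fun w => ?_
    have hb : ∀ (A B : ∀ i, Module.End K (E i)) (w : E i), brk A B i w = A i (B i w) - B i (A i w) :=
      fun _ _ _ => rfl
    rw [Pi.add_apply, Pi.smul_apply, LinearMap.add_apply, LinearMap.smul_apply, hb, hb X Y, hb X Y]
    simp only [hXi, hYi, map_add, map_sub, map_smul, smul_eq_mul, hξ, LinearMap.smulRight_apply,
      LinearMap.smul_apply, LinearMap.sub_apply, LinearMap.comp_apply]
    module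

/-- A symplectic reflection produces a transvection. -/
theorem nil_of_sprefl {i : I} (hirr : Irr (r i)) (h2 : 2 ≤ finrank K (E i))
    (B : E i →ₗ[K] Dual K (E i)) (hB : Function.Injective B) (halt : ∀ u, B u u = 0)
    (χ : G → K) (hχ : ∀ g, χ g ≠ 0)
    (hsim : ∀ g u v, B (r i g u) (r i g v) = χ g * B u v)
    (hsp : ∀ X ∈ f1 r, ∃ c : K, ∀ u v, B (X i u) v + B u (X i v) = c * B u v)
    {X : ∀ i, Module.End K (E i)} (hX : X ∈ f1 r) {c₀ δ : K} (hδ : δ ≠ 0)
    {ι : Type*} [Fintype ι] [DecidableEq ι] (b : Basis ι K (E i)) {k₁ k₂ : ι} (hk : k₁ ≠ k₂)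
    (hXi : ∀ w, X i w = c₀ • w + (δ * b.coord k₁ w) • b k₁ - (δ * b.coord k₂ w) • b k₂) :
    ∃ Z ∈ f0 r, ∃ (u : E i) (φ : Dual K (E i)), u ≠ 0 ∧ φ ≠ 0 ∧ φ u = 0 ∧
      Z i = φ.smulRight u := by
  have hskew : ∀ u v, B u v = -B v u := by
    intro u v
    have h1 := halt (u + v)
    simp only [map_add, LinearMap.add_apply, halt, zero_add, add_zero] at h1
    linear_combination h1
  set v₁ := b k₁ with hv₁
  set v₂ := b k₂ with hv₂
  set ξ₁ := b.coord k₁ with hξ₁
  set ξ₂ := b.coord k₂ with hξ₂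
  have e11 : ξ₁ v₁ = 1 := by simp [hξ₁, hv₁]
  have e12 : ξ₁ v₂ = 0 := by simp [hξ₁, hv₂, hk.symm]
  have e21 : ξ₂ v₁ = 0 := by simp [hξ₂, hv₁, hk]
  have e22 : ξ₂ v₂ = 1 := by simp [hξ₂, hv₂]
  -- the constant
  obtain ⟨c, hc⟩ := hsp X hX
  have hc₀ : c = 2 * c₀ := by
    have h3 := trace_sp B hB (X i - (c / 2) • LinearMap.id) (by
      intro u v
      have h4 := hc u v
      simp only [LinearMap.sub_apply, LinearMap.smul_apply, LinearMap.id_apply, map_sub, map_smul,
        smul_eq_mul]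
      linear_combination h4)
    have h4 : X i - (c / 2) • LinearMap.id = (c₀ - c / 2) • LinearMap.id +
        (δ • ξ₁).smulRight v₁ - (δ • ξ₂).smulRight v₂ := by
      refine LinearMap.ext fun w => ?_
      rw [LinearMap.sub_apply, hXi, LinearMap.sub_apply, LinearMap.add_apply,
        LinearMap.smul_apply, LinearMap.smul_apply, LinearMap.smulRight_apply,
        LinearMap.smulRight_apply, LinearMap.smul_apply, LinearMap.smul_apply, LinearMap.id_apply,
        smul_eq_mul, smul_eq_mul]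
      module
    rw [h4, map_sub, map_add, map_smul, trace_rk, trace_rk, LinearMap.trace_id,
      LinearMap.smul_apply, LinearMap.smul_apply, e11, e22, smul_eq_mul, smul_eq_mul, mul_one,
      add_sub_cancel_right] at h3
    rcases mul_eq_zero.1 h3 with h5 | h5
    · linear_combination (-2) * h5
    · rw [Nat.cast_eq_zero] at h5
      omega
  subst hc₀
  -- the form on the two vectors
  have hw : ∀ w, B v₁ w = ξ₂ w * B v₁ v₂ := by
    intro w
    have h3 := hc v₁ w
    have h4 : X i v₁ = (c₀ + δ) • v₁ := by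
      rw [hXi, e11, e21, mul_one, mul_zero, zero_smul, sub_zero, add_smul]
    rw [h4, hXi, map_smul, LinearMap.smul_apply, map_sub, map_add, map_smul, map_smul, map_smul,
      halt, smul_zero, add_zero, smul_eq_mul, smul_eq_mul, smul_eq_mul] at h3
    apply mul_left_cancel₀ hδ
    linear_combination h3
  have hw' : ∀ w, B w v₂ = ξ₁ w * B v₁ v₂ := by
    intro w
    have h3 := hc w v₂
    have h4 : X i v₂ = (c₀ - δ) • v₂ := by
      rw [hXi, e12, e22, mul_one, mul_zero, zero_smul, add_zero, sub_smul]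
    rw [h4, hXi, map_sub, LinearMap.sub_apply, map_add, LinearMap.add_apply, map_smul, map_smul,
      map_smul, LinearMap.smul_apply, LinearMap.smul_apply, LinearMap.smul_apply, halt, smul_zero,
      sub_zero, map_smul, smul_eq_mul, smul_eq_mul, smul_eq_mul] at h3
    apply mul_left_cancel₀ hδ
    linear_combination -h3
  have hβ : B v₁ v₂ ≠ 0 := by
    intro h
    have h3 : B v₁ = 0 := by
      refine LinearMap.ext fun w => ?_
      rw [hw, h, mul_zero, LinearMap.zero_apply]
    have h4 := hB (h3.trans (map_zero B).symm)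
    exact b.ne_zero k₁ h4
  -- the conjugating element
  have hker : ∀ (ξ : Dual K (E i)) (v : E i), ξ v = 1 → LinearMap.ker ξ ≠ ⊤ := by
    intro ξ v h1 h3
    rw [LinearMap.ker_eq_top] at h3
    rw [h3, LinearMap.zero_apply] at h1
    exact zero_ne_one h1
  classical
  obtain ⟨g', hg'⟩ := exists_avoid hirr (b.ne_zero k₂) {LinearMap.ker ξ₁, LinearMap.ker ξ₂} (by
    intro W hW
    rw [Finset.mem_insert, Finset.mem_singleton] at hW
    rcases hW with rfl | rfl
    · exact hker ξ₁ v₁ e11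
    · exact hker ξ₂ v₂ e22)
  have h1 : ξ₁ (r i g' v₂) ≠ 0 := fun h => hg' _ (by simp) (LinearMap.mem_ker.2 h)
  have h3 : ξ₂ (r i g' v₂) ≠ 0 := fun h => hg' _ (by simp) (LinearMap.mem_ker.2 h)
  obtain ⟨g, rfl⟩ : ∃ g : G, g' = g⁻¹ := ⟨g'⁻¹, (inv_inv g').symm⟩
  set w₀ := r i g⁻¹ v₂ with hw₀
  set Y := cj r g X with hY
  have hYm : Y ∈ f1 r := cj_mem1 r g hX
  have hξY : ξ₁ (Y i v₂) * B v₁ v₂ = χ g * (2 * δ * B v₁ v₂ * ξ₁ w₀ * ξ₂ w₀) := by
    rw [← hw']
    change B (r i g (X i (r i g⁻¹ v₂))) v₂ = _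
    have h4 := hsim g (X i w₀) w₀
    have h5 : r i g w₀ = v₂ := by
      rw [hw₀, r_inv']
    rw [h5] at h4
    rw [h4, hXi, map_sub, LinearMap.sub_apply, map_add, LinearMap.add_apply, map_smul, map_smul,
      map_smul, LinearMap.smul_apply, LinearMap.smul_apply, LinearMap.smul_apply, halt, smul_zero,
      hskew v₂ w₀, hw w₀, hw' w₀, smul_eq_mul, smul_eq_mul]
    ring
  have hξY0 : ξ₁ (Y i v₂) ≠ 0 := by
    intro h
    rw [h, zero_mul] at hξY
    have h4 : χ g * (2 * δ * B v₁ v₂ * ξ₁ w₀ * ξ₂ w₀) ≠ 0 :=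
      mul_ne_zero (hχ g) (mul_ne_zero (mul_ne_zero (mul_ne_zero (mul_ne_zero two_ne_zero hδ)
        hβ) h1) h3)
    exact h4 hξY.symm
  have m1 : brk X Y ∈ f0 r := brk_mem r hX hYm
  have m2 : brk X (brk X Y) ∈ f0 r := brk_mem r hX (f0_le r m1)
  have m3 : brk X (brk X (brk X Y)) ∈ f0 r := brk_mem r hX (f0_le r m2)
  have m4 : brk X (brk X (brk X (brk X Y))) ∈ f0 r := brk_mem r hX (f0_le r m3)
  refine ⟨brk X (brk X (brk X (brk X Y))) + (2 * δ) • brk X (brk X (brk X Y)) -
    (δ ^ 2) • brk X (brk X Y) - (2 * δ ^ 3) • brk X Y,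
    Submodule.sub_mem _ (Submodule.sub_mem _ (Submodule.add_mem _ m4 (Submodule.smul_mem _ _ m3))
      (Submodule.smul_mem _ _ m2)) (Submodule.smul_mem _ _ m1), v₁,
    (24 * δ ^ 4 * ξ₁ (Y i v₂)) • ξ₂, b.ne_zero k₁, ?_, ?_, ?_⟩
  · intro h
    rcases smul_eq_zero.1 h with h4 | h4
    · have h5 : (24 : K) * δ ^ 4 ≠ 0 := mul_ne_zero (by norm_num) (pow_ne_zero _ hδ)
      exact (mul_ne_zero h5 hξY0) h4
    · rw [h4, LinearMap.zero_apply] at e22
      exact zero_ne_one e22
  · rw [LinearMap.smul_apply, e21, smul_zero]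
  · refine LinearMap.ext fun w => ?_
    have hb : ∀ (A C : ∀ i, Module.End K (E i)) (w : E i),
        brk A C i w = A i (C i w) - C i (A i w) := fun _ _ _ => rfl
    simp only [Pi.add_apply, Pi.sub_apply, Pi.smul_apply, LinearMap.add_apply,
      LinearMap.sub_apply, LinearMap.smul_apply, hb]
    simp only [hXi, map_sub, map_add, map_smul, smul_eq_mul, e11, e12, e21, e22,
      LinearMap.smulRight_apply, LinearMap.smul_apply]
    module


end

end Pool.Agent.W522.S
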