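import Mathlib
import Pool.Agent.W522.S.S3

/-!
# The operators of two paired vectors
-/

set_option linter.unusedSectionVars false

namespace Pool.Agent.W522.S

open Module Pool.Agent.H204R3.SP Pool.Agent.H204R3.GP
open Pool.Agent.W522.U (piRep piRep_apply piRep_single blk blk_apply blk_single par par_apply
  par_inj par_bij finrank_st r_inv r_inv' Irr gen_eig gen_pow gen_single exists_pow_mem om_skew cnt)
open Pool.Agent.W522.T (brk LieFam Types Ty NoTwist full_indep independent exists_area trace_one_dim
  trace_rk gen_ne_zero IsLog lc lc_zero lc_one deriv_multi gen_pow_apply full conj_one Ind cj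
  exists_reflect exists_avoid brk_tr trace_sp TS span_types)

noncomputable section

variable {K : Type*} [Field K] [CharZero K]
  {I : Type*} [Fintype I] [DecidableEq I] {E : I → Type*} [∀ i, AddCommGroup (E i)]
  [∀ i, Module K (E i)] [∀ i, FiniteDimensional K (E i)] {G : Type*} [Group G]
  {r : ∀ i, Representation K G (E i)}
  (ω : (∀ i, E i) →ₗ[K] (∀ i, E i) →ₗ[K] K) (halt : ∀ u, ω u u = 0)
  (hnd : ∀ u, (∀ w, ω u w = 0) → u = 0)
  (st : I → I) (hst : ∀ i, st (st i) = i)
  (hor : ∀ i j, j ≠ st i → ∀ (u : E i) (v : E j), ω (Pi.single i u) (Pi.single j v) = 0)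
  (χ : I → G → K)
  (hωr : ∀ i g (u : E i) (v : E (st i)), ω (Pi.single i (r i g u)) (Pi.single (st i)
    (r (st i) g v)) = χ i g * ω (Pi.single i u) (Pi.single (st i) v))
  (htw : ∀ i j, i ≠ j → 2 ≤ finrank K (E i) → 2 ≤ finrank K (E j) →
    ∀ (T : E i →ₗ[K] E j) (ψ : G → K), (∀ g u, T (r i g u) = ψ g • r j g (T u)) → T = 0)
  (hirr : ∀ i, 2 ≤ finrank K (E i) → Irr (r i))
  (hnil : ∀ i, 2 ≤ finrank K (E i) → ∃ X ∈ f0 r,
    ∃ (u : E i) (φ : Dual K (E i)), u ≠ 0 ∧ φ ≠ 0 ∧ φ u = 0 ∧ X i = φ.smulRight u)
  (hdim : ∀ i, 2 ≤ finrank K (E i) ∨ (finrank K (E i) = 1 ∧ st i ≠ i))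

include halt in
theorem SS_skew (p q x y : ∀ i, E i) : ω (SS ω p q x) y + ω x (SS ω p q y) = 0 := by
  have h := om_skew ω halt
  rw [SS_apply, SS_apply]
  simp only [map_add, map_smul, LinearMap.add_apply, LinearMap.smul_apply, smul_eq_mul]
  rw [h x q, h x p]
  ring

/-- The family of operators of two vectors in paired components. -/
def fam (i : I) (u : E i) (w : E (st i)) : ∀ j, Module.End K (E j) := fun j =>
  (LinearMap.proj j).comp ((SS ω (Pi.single i u) (Pi.single (st i) w)).comp
    (LinearMap.single K E j))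

theorem fam_apply (i : I) (u : E i) (w : E (st i)) (j : I) (x : E j) :
    fam ω st i u w j x = (SS ω (Pi.single i u) (Pi.single (st i) w) (Pi.single j x)) j := rfl

include hst hor in
theorem blk_fam (i : I) (u : E i) (w : E (st i)) :
    blk (fam ω st i u w) = SS ω (Pi.single i u) (Pi.single (st i) w) := by
  refine LinearMap.pi_ext fun j x => ?_
  rw [blk_single, fam_apply, SS_apply]
  funext k
  by_cases hk : k = j
  · subst hk
    rw [Pi.single_eq_same]
  · rw [Pi.single_eq_of_ne hk, Pi.add_apply, Pi.smul_apply, Pi.smul_apply]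
    by_cases h1 : j = st i
    · subst h1
      by_cases h2 : k = i
      · subst h2
        by_cases h3 : st k = k
        · exact absurd h3.symm hk
        · rw [Pi.single_eq_of_ne hk, smul_zero, zero_add]
          rw [hor (st k) (st k) (fun h => h3 (by rw [hst] at h; exact h)), zero_smul]
      · rw [Pi.single_eq_of_ne hk, Pi.single_eq_of_ne h2, smul_zero, smul_zero, add_zero]
    · rw [hor i j h1, zero_smul, zero_add]
      by_cases h2 : j = i
      · subst h2
        rw [Pi.single_eq_of_ne hk, smul_zero]
      · rw [hor (st i) j (by rw [hst]; exact h2), zero_smul]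

include hor in
theorem fam_zero (hst : ∀ i, st (st i) = i) (i : I) (u : E i) (w : E (st i)) (j : I)
    (h1 : j ≠ i) (h2 : j ≠ st i) : fam ω st i u w j = 0 := by
  refine LinearMap.ext fun x => ?_
  rw [fam_apply, SS_apply, hor i j h2, hor (st i) j (by rw [hst]; exact h1), zero_smul, zero_smul,
    add_zero]
  rfl

include hnd hst hor in
/-- Families with one component in the Lie algebra of its type. -/
theorem fam_eq {X Z : ∀ j, Module.End K (E j)} {i : I} (hi : X i = Z i)
    (hXj : ∀ j, j ≠ i → j ≠ st i → X j = 0) (hZj : ∀ j, j ≠ i → j ≠ st i → Z j = 0)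
    (hX : ∀ (u : E i) (v : E (st i)), ω (Pi.single i (X i u)) (Pi.single (st i) v) +
      ω (Pi.single i u) (Pi.single (st i) (X (st i) v)) = 0)
    (hZ : ∀ (u : E i) (v : E (st i)), ω (Pi.single i (Z i u)) (Pi.single (st i) v) +
      ω (Pi.single i u) (Pi.single (st i) (Z (st i) v)) = 0)
    (halt : ∀ u, ω u u = 0) : X = Z := by
  have hsk := om_skew ω halt
  funext j
  by_cases h1 : j = i
  · subst h1
    exact hi
  by_cases h2 : j = st i
  · subst h2
    refine LinearMap.ext fun v => ?_
    have hinj := par_inj ω hnd st hor (st i) i (hst i).symm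
    apply hinj
    refine LinearMap.ext fun u => ?_
    rw [par_apply, par_apply, hsk _ (Pi.single i u), hsk _ (Pi.single i u)]
    have h3 := hX u v
    have h4 := hZ u v
    rw [hi] at h3
    linear_combination h4 - h3
  · rw [hXj j h1 h2, hZj j h1 h2]

include halt hnd hωr hst hor htw hirr hnil in
theorem fam_mem {i : I} (hi : 2 ≤ finrank K (E i)) {X : ∀ j, Module.End K (E j)}
    (hXj : ∀ j, j ≠ i → j ≠ st i → X j = 0)
    (hX : ∀ (u : E i) (v : E (st i)), ω (Pi.single i (X i u)) (Pi.single (st i) v) +
      ω (Pi.single i u) (Pi.single (st i) (X (st i) v)) = 0)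
    (htr : LinearMap.trace K (E i) (X i) = 0) : X ∈ f0 r := by
  have hT := types_f0 ω halt hnd st hst hor χ hωr htw hirr hnil
  have h1 : X i ∈ TS (fun i => st i = i) (fun i => par ω i i) i := by
    refine span_types hT (X i) htr fun hs u v => ?_
    have h2 := hX u
    rw [hs] at h2
    exact h2 v
  have key : ∀ n ∈ TS (K := K) (fun i => st i = i) (fun i => par ω i i) i,
      ∃ Z ∈ f0 r, Z i = n ∧ ∀ j, j ≠ i → j ≠ st i → Z j = 0 := by
    intro n hn
    induction hn using Submodule.span_induction with
    | mem n hn =>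
      obtain ⟨w, ψ, hw, rfl⟩ := hn
      exact exists_elem ω halt hnd st hst hor χ hωr htw hirr hnil i hi w ψ hw
    | zero => exact ⟨0, Submodule.zero_mem _, rfl, fun _ _ _ => rfl⟩
    | add a b _ _ ha hb =>
      obtain ⟨Z, hZ, hZi, hZj⟩ := ha
      obtain ⟨Z', hZ', hZi', hZj'⟩ := hb
      refine ⟨Z + Z', Submodule.add_mem _ hZ hZ', by rw [Pi.add_apply, hZi, hZi'],
        fun j h1 h2 => ?_⟩
      rw [Pi.add_apply, hZj j h1 h2, hZj' j h1 h2, add_zero]
    | smul c a _ ha =>
      obtain ⟨Z, hZ, hZi, hZj⟩ := ha
      refine ⟨c • Z, Submodule.smul_mem _ _ hZ, by rw [Pi.smul_apply, hZi], fun j h1 h2 => ?_⟩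
      rw [Pi.smul_apply, hZj j h1 h2, smul_zero]
  obtain ⟨Z, hZ, hZi, hZj⟩ := key _ h1
  have h2 : X = Z := fam_eq ω hnd st hst hor hZi.symm hXj hZj hX
    (fun u v => f0_sp ω st hor χ hωr hZ i u v) halt
  rw [h2]
  exact hZ

/-- The form depends only on the components of type `t`. -/
def Pure {κ : Type*} (t : κ → I) (Φ : MultilinearMap K (fun _ : κ => ∀ i, E i) K) : Prop :=
  ∀ v v' : κ → ∀ i, E i, (∀ k, v k (t k) = v' k (t k)) → Φ v = Φ v'

/-- The central family of a component which is not symplectic. -/
def cen (i : I) : ∀ j, Module.End K (E j) := fun j => if j = i then 1 else if j = st i then -1 else 0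

theorem cen_apply (i j : I) (x : E j) : cen (K := K) (E := E) st i j x =
    (if j = i then (1 : K) else if j = st i then -1 else 0) • x := by
  unfold cen
  split_ifs
  · simp
  · simp
  · simp

theorem cen_scal {κ : Type*} [Fintype κ] [DecidableEq κ] {t : κ → I}
    {Φ : MultilinearMap K (fun _ : κ => ∀ i, E i) K} (hp : Pure t Φ) {i : I} (hi : st i ≠ i) :
    Scal (blk (cen (K := K) (E := E) st i)) Φ ((cnt t i : K) - cnt t (st i)) := by
  intro v
  have h1 : ∀ k, Φ (Function.update v k (blk (cen (K := K) (E := E) st i) (v k))) =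
      (if t k = i then (1 : K) else if t k = st i then -1 else 0) * Φ v := by
    intro k
    rw [← smul_eq_mul, ← Function.update_eq_self k v, ← MultilinearMap.map_update_smul,
      Function.update_eq_self]
    refine hp _ _ fun l => ?_
    by_cases hl : l = k
    · subst hl
      rw [Function.update_self, Function.update_self, blk_apply, cen_apply]
      rfl
    · rw [Function.update_of_ne hl, Function.update_of_ne hl]
  rw [Finset.sum_congr rfl (fun k _ => h1 k), ← Finset.sum_mul]
  congr 1
  unfold cnt
  push_cast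
  rw [← Finset.sum_sub_distrib]
  refine Finset.sum_congr rfl fun k _ => ?_
  by_cases h2 : t k = i
  · rw [if_pos h2, if_pos h2, if_neg (by rw [h2]; exact hi.symm)]
    ring
  · rw [if_neg h2, if_neg h2]
    by_cases h3 : t k = st i
    · rw [if_pos h3, if_pos h3]
      ring
    · rw [if_neg h3, if_neg h3]
      ring

include hor in
theorem fam_trace (halt : ∀ u, ω u u = 0) {i : I} (hi : st i ≠ i) (u : E i) (w : E (st i)) :
    LinearMap.trace K (E i) (fam ω st i u w i) = ω (Pi.single (st i) w) (Pi.single i u) := by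
  have h1 : fam ω st i u w i = ((ω (Pi.single (st i) w)).comp (LinearMap.single K E i)).smulRight
      u := by
    refine LinearMap.ext fun x => ?_
    rw [fam_apply, SS_apply, hor i i hi.symm, zero_smul, zero_add, Pi.smul_apply,
      Pi.single_eq_same]
    rfl
  rw [h1, LinearMap.trace_smulRight]
  rfl

include halt hst hor in
theorem fam_line {i : I} (hi : st i ≠ i) (h1 : finrank K (E i) = 1)
    (hnd : ∀ u, (∀ w, ω u w = 0) → u = 0) (u : E i) (w : E (st i)) :
    fam ω st i u w = ω (Pi.single (st i) w) (Pi.single i u) • cen (K := K) (E := E) st i := by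
  have hsk := om_skew ω halt
  refine fam_eq (i := i) ω hnd st hst hor ?_ (fun j h2 h3 => fam_zero ω st hor hst i u w j h2 h3)
    (fun j h2 h3 => ?_) (fun x y => ?_) (fun x y => ?_) halt
  · obtain ⟨v, hv, hspan⟩ := finrank_eq_one_iff'.1 h1
    refine LinearMap.ext fun x => ?_
    rw [fam_apply, SS_apply, hor i i hi.symm, zero_smul, zero_add, Pi.smul_apply,
      Pi.single_eq_same, Pi.smul_apply, LinearMap.smul_apply, cen_apply, if_pos rfl, one_smul]
    obtain ⟨a, rfl⟩ := hspan u
    obtain ⟨b, rfl⟩ := hspan x
    rw [Pi.single_smul, Pi.single_smul, map_smul, map_smul, smul_smul, smul_smul, smul_eq_mul,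
      smul_eq_mul]
    congr 1
    ring
  · rw [Pi.smul_apply, cen, if_neg h2, if_neg h3, smul_zero]
  · have h2 := SS_skew ω halt (Pi.single i u) (Pi.single (st i) w) (Pi.single i x)
      (Pi.single (st i) y)
    rw [← blk_fam ω st hst hor, blk_single, blk_single] at h2
    exact h2
  · rw [Pi.smul_apply, Pi.smul_apply, LinearMap.smul_apply, LinearMap.smul_apply, cen_apply,
      cen_apply, if_pos rfl, if_neg hi, if_pos rfl, one_smul, Pi.single_smul, map_smul,
      Pi.single_smul, Pi.single_smul, map_smul, map_smul, LinearMap.smul_apply]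
    module

include halt hnd hωr hst hor htw hirr hnil hdim in
/-- The action of the operator of two paired vectors on a pure form. -/
theorem ss_scal {κ : Type*} [Fintype κ] [DecidableEq κ] {t : κ → I}
    {Φ : MultilinearMap K (fun _ : κ => ∀ i, E i) K} (hΦ : Semi (piRep r) Φ) (hp : Pure t Φ)
    (i : I) (u : E i) (w : E (st i)) :
    Scal (SS ω (Pi.single i u) (Pi.single (st i) w)) Φ
      (ω (Pi.single (st i) w) (Pi.single i u) *
        (((cnt t i : K) - cnt t (st i)) / finrank K (E i))) := by
  have hsp : ∀ (x : E i) (y : E (st i)),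
      ω (Pi.single i (fam ω st i u w i x)) (Pi.single (st i) y) +
      ω (Pi.single i x) (Pi.single (st i) (fam ω st i u w (st i) y)) = 0 := by
    intro x y
    have h2 := SS_skew ω halt (Pi.single i u) (Pi.single (st i) w) (Pi.single i x)
      (Pi.single (st i) y)
    rw [← blk_fam ω st hst hor, blk_single, blk_single] at h2
    exact h2
  by_cases hi : st i = i
  · -- the symplectic case
    have h2 : 2 ≤ finrank K (E i) := by
      rcases hdim i with h | h
      · exact h
      · exact absurd hi h.2
    have hT := types_f0 ω halt hnd st hst hor χ hωr htw hirr hnil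
    have h3 : fam ω st i u w ∈ f0 r := by
      refine fam_mem ω halt hnd st hst hor χ hωr htw hirr hnil h2
        (fun j h2 h3 => fam_zero ω st hor hst i u w j h2 h3) hsp ?_
      refine trace_sp (par ω i i) (par_inj ω hnd st hor i i hi.symm) _ fun x y => ?_
      have h4 := hsp x
      rw [hi] at h4
      exact h4 y
    have h4 := scal_of_lie0 ((mem_f0 r _).1 h3) hΦ
    rw [blk_fam ω st hst hor] at h4
    have h5 : ((cnt t i : K) - cnt t (st i)) = 0 := by rw [hi, sub_self]
    rw [h5, zero_div, mul_zero]
    exact h4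
  · set τ := ω (Pi.single (st i) w) (Pi.single i u) with hτ
    have hpos : (finrank K (E i) : K) ≠ 0 := by
      rw [Nat.cast_ne_zero]
      rcases hdim i with h | h
      · omega
      · omega
    have hc := cen_scal (K := K) (E := E) st hp hi
    rcases hdim i with h2 | h2
    · have h3 : fam ω st i u w - (τ / finrank K (E i)) • cen (K := K) (E := E) st i ∈ f0 r := by
        refine fam_mem ω halt hnd st hst hor χ hωr htw hirr hnil h2 (fun j h2 h3 => ?_)
          (fun x y => ?_) ?_
        · rw [Pi.sub_apply, Pi.smul_apply, fam_zero ω st hor hst i u w j h2 h3, cen, if_neg h2,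
            if_neg h3, smul_zero, sub_zero]
        · have h4 := hsp x y
          rw [Pi.sub_apply, Pi.sub_apply, Pi.smul_apply, Pi.smul_apply, LinearMap.sub_apply,
            LinearMap.sub_apply, LinearMap.smul_apply, LinearMap.smul_apply, cen_apply, cen_apply,
            if_pos rfl, if_neg hi, if_pos rfl, one_smul, Pi.single_sub, Pi.single_sub,
            Pi.single_smul, Pi.single_smul, Pi.single_smul, map_sub, map_sub, LinearMap.sub_apply,
            map_smul, map_smul, map_smul, LinearMap.smul_apply]
          simp only [smul_eq_mul]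
          linear_combination h4
        · rw [Pi.sub_apply, Pi.smul_apply, map_sub, map_smul, fam_trace ω st hor halt hi]
          have h4 : cen (K := K) (E := E) st i i = 1 := by
            unfold cen
            rw [if_pos rfl]
          rw [h4, LinearMap.trace_one, ← hτ, smul_eq_mul, div_mul_cancel₀ _ hpos, sub_self]
      have h4 := scal_add (scal_of_lie0 ((mem_f0 r _).1 h3) hΦ)
        (scal_smul (τ / finrank K (E i)) hc)
      have h5 : blk (fam ω st i u w - (τ / finrank K (E i)) • cen (K := K) (E := E) st i) +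
          (τ / (finrank K (E i) : K)) • blk (cen (K := K) (E := E) st i) =
          SS ω (Pi.single i u) (Pi.single (st i) w) := by
        rw [map_sub, map_smul, sub_add_cancel, blk_fam ω st hst hor]
      rw [h5] at h4
      have h6 : 0 + τ / (finrank K (E i) : K) * ((cnt t i : K) - cnt t (st i)) =
          τ * (((cnt t i : K) - cnt t (st i)) / finrank K (E i)) := by
        field_simp
        ring
      rwa [h6] at h4
    · have h3 := scal_smul τ hc
      rw [← map_smul, ← fam_line ω halt st hst hor hi h2.1 hnd, blk_fam ω st hst hor] at h3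
      rw [h2.1, Nat.cast_one, div_one]
      exact h3

end

end Pool.Agent.W522.S
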