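import Mathlib
import Pool.Agent.W522.S.S4

/-!
# Products of multilinear forms
-/

set_option linter.unusedSectionVars false

namespace Pool.Agent.W522.S

open Module Pool.Agent.H204R3.SP Pool.Agent.H204R3.GP

noncomputable section

section prod

variable {K : Type*} [Field K] {V : Type*} [AddCommGroup V] [Module K V]

theorem upd_sigma {L : Type*} [Fintype L] {B : L → Type*} [DecidableEq (Σ l, B l)]
    [DecidableEq L] (ψ : ∀ l, MultilinearMap K (fun _ : B l => V) K) [∀ l, DecidableEq (B l)]
    (v : (Σ l, B l) → V) (p : Σ l, B l) (z : V) :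
    ∏ l, ψ l (fun y => Function.update v p z ⟨l, y⟩) =
      ψ p.1 (Function.update (fun y => v ⟨p.1, y⟩) p.2 z) *
        ∏ l ∈ Finset.univ.erase p.1, ψ l (fun y => v ⟨l, y⟩) := by
  rw [← Finset.mul_prod_erase Finset.univ (fun l => ψ l (fun y => Function.update v p z ⟨l, y⟩))
    (Finset.mem_univ p.1)]
  congr 1
  · congr 1
    funext y
    by_cases h : y = p.2
    · rw [h, Function.update_self]
      exact (Function.update_self p.2 z (fun y => v ⟨p.1, y⟩)).symm
    · rw [Function.update_of_ne h, Function.update_of_ne]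
      intro h2
      apply h
      have h3 : (⟨p.1, y⟩ : Σ l, B l) = ⟨p.1, p.2⟩ := h2
      exact eq_of_heq (Sigma.mk.inj h3).2
  · refine Finset.prod_congr rfl fun l hl => ?_
    congr 1
    funext y
    rw [Function.update_of_ne]
    intro h2
    exact Finset.ne_of_mem_erase hl (congrArg Sigma.fst h2)

/-- The product of forms in disjoint sets of variables. -/
def prodM {L : Type*} [Fintype L] {B : L → Type*}
    (ψ : ∀ l, MultilinearMap K (fun _ : B l => V) K) :
    MultilinearMap K (fun _ : (Σ l, B l) => V) K where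
  toFun v := ∏ l, ψ l (fun y => v ⟨l, y⟩)
  map_update_add' := by
    classical
    intro _ v p x y
    rw [upd_sigma, upd_sigma, upd_sigma, MultilinearMap.map_update_add, add_mul]
  map_update_smul' := by
    classical
    intro _ v p c x
    rw [upd_sigma, upd_sigma, MultilinearMap.map_update_smul, smul_eq_mul, smul_eq_mul, mul_assoc]

theorem prodM_apply {L : Type*} [Fintype L] {B : L → Type*}
    (ψ : ∀ l, MultilinearMap K (fun _ : B l => V) K) (v : (Σ l, B l) → V) :
    prodM ψ v = ∏ l, ψ l (fun y => v ⟨l, y⟩) := rfl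

theorem scal_prodM {L : Type*} [Fintype L] [DecidableEq L] {B : L → Type*} [∀ l, Fintype (B l)]
    [∀ l, DecidableEq (B l)] {ψ : ∀ l, MultilinearMap K (fun _ : B l => V) K}
    {X : Module.End K V} {c : L → K} (h : ∀ l, Scal X (ψ l) (c l)) :
    Scal X (prodM ψ) (∑ l, c l) := by
  intro v
  rw [Fintype.sum_sigma, Finset.sum_mul]
  refine Finset.sum_congr rfl fun l _ => ?_
  have h1 : ∀ y, prodM ψ (Function.update v ⟨l, y⟩ (X (v ⟨l, y⟩))) =
      ψ l (Function.update (fun y => v ⟨l, y⟩) y (X (v ⟨l, y⟩))) *
        ∏ l ∈ Finset.univ.erase l, ψ l (fun y => v ⟨l, y⟩) := fun y => by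
    rw [prodM_apply, upd_sigma]
  rw [Finset.sum_congr rfl (fun y _ => h1 y), ← Finset.sum_mul, h l (fun y => v ⟨l, y⟩),
    prodM_apply, mul_assoc, Finset.mul_prod_erase Finset.univ
      (fun l => ψ l (fun y => v ⟨l, y⟩)) (Finset.mem_univ l)]

/-- The product of two forms. -/
def mulM {κ κ' : Type*} (φ : MultilinearMap K (fun _ : κ => V) K)
    (ψ : MultilinearMap K (fun _ : κ' => V) K) : MultilinearMap K (fun _ : κ ⊕ κ' => V) K :=
  (LinearMap.mul' K K).compMultilinearMap (φ.domCoprod ψ)

theorem mulM_apply {κ κ' : Type*} (φ : MultilinearMap K (fun _ : κ => V) K)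
    (ψ : MultilinearMap K (fun _ : κ' => V) K) (v : κ ⊕ κ' → V) :
    mulM φ ψ v = φ (fun k => v (Sum.inl k)) * ψ (fun k => v (Sum.inr k)) := by
  unfold mulM
  rw [LinearMap.compMultilinearMap_apply, MultilinearMap.domCoprod_apply, LinearMap.mul'_apply]

theorem scal_mulM {κ κ' : Type*} [Fintype κ] [DecidableEq κ] [Fintype κ'] [DecidableEq κ']
    {φ : MultilinearMap K (fun _ : κ => V) K} {ψ : MultilinearMap K (fun _ : κ' => V) K}
    {X : Module.End K V} {a b : K} (ha : Scal X φ a) (hb : Scal X ψ b) :
    Scal X (mulM φ ψ) (a + b) := by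
  intro v
  rw [Fintype.sum_sum_type, mulM_apply]
  have h1 : ∀ k : κ, mulM φ ψ (Function.update v (Sum.inl k) (X (v (Sum.inl k)))) =
      φ (Function.update (fun k => v (Sum.inl k)) k (X (v (Sum.inl k)))) *
        ψ (fun k => v (Sum.inr k)) := by
    intro k
    rw [mulM_apply]
    congr 1
    congr 1
    funext l
    by_cases h : l = k
    · subst h
      rw [Function.update_self, Function.update_self]
    · rw [Function.update_of_ne h, Function.update_of_ne (fun h' => h (Sum.inl_injective h'))]
  have h2 : ∀ k : κ', mulM φ ψ (Function.update v (Sum.inr k) (X (v (Sum.inr k)))) =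
      φ (fun k => v (Sum.inl k)) *
        ψ (Function.update (fun k => v (Sum.inr k)) k (X (v (Sum.inr k)))) := by
    intro k
    rw [mulM_apply]
    congr 1
    congr 1
    funext l
    by_cases h : l = k
    · subst h
      rw [Function.update_self, Function.update_self]
    · rw [Function.update_of_ne h, Function.update_of_ne (fun h' => h (Sum.inr_injective h'))]
  rw [Finset.sum_congr rfl (fun k _ => h1 k), Finset.sum_congr rfl (fun k _ => h2 k),
    ← Finset.sum_mul, ← Finset.mul_sum, ha, hb]
  ring

end prod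

section isProduct

variable {K : Type*} [Field K] {X : Type*} [AddCommGroup X] [Module K X] {Γ : Type*} [Group Γ]
  {R : Representation K Γ X} {κ : Type*} [DecidableEq κ]

/-- Determinant factors indexed by any finite type. -/
theorem IsProduct.detB {S : Finset κ} {f : (κ → X) → K} (h : IsProduct R S f) {B : Type*}
    [Fintype B] [DecidableEq B] (p : B → κ) (hp : Function.Injective p) (hS : ∀ y, p y ∉ S)
    (T : B → X →ₗ[K] (B → K))
    (hT : ∃ Δ : Subgroup Γ, Δ.FiniteIndex ∧ ∃ θ : Γ → K, ∀ g ∈ Δ, ∀ v : B → X,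
      Matrix.det (Matrix.of fun y => T y (R g (v y))) =
        θ g * Matrix.det (Matrix.of fun y => T y (v y))) :
    IsProduct R (Finset.univ.image p ∪ S)
      (fun v => Matrix.det (Matrix.of fun y => T y (v (p y))) * f v) := by
  let e := Fintype.equivFin B
  let T' : Fin (Fintype.card B) → X →ₗ[K] (Fin (Fintype.card B) → K) := fun j =>
    (LinearMap.funLeft K K e.symm).comp (T (e.symm j))
  have hdet : ∀ v : B → X, Matrix.det (Matrix.of fun j => T' j (v (e.symm j))) =
      Matrix.det (Matrix.of fun y => T y (v y)) := by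
    intro v
    rw [← Matrix.det_submatrix_equiv_self e.symm (Matrix.of fun y => T y (v y))]
    rfl
  have h1 := IsProduct.det S f h _ (e.symm.toEmbedding.trans ⟨p, hp⟩) (fun j => hS _) T' (by
    obtain ⟨Δ, hΔ, θ, hθ⟩ := hT
    refine ⟨Δ, hΔ, θ, fun g hg v => ?_⟩
    have h2 := hdet (fun y => R g (v (e y)))
    have h3 := hdet (fun y => v (e y))
    simp only [Equiv.apply_symm_apply] at h2 h3
    rw [h2, h3]
    exact hθ g hg (fun y => v (e y)))
  have h2 : Finset.univ.map (e.symm.toEmbedding.trans ⟨p, hp⟩) = Finset.univ.image p := by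
    ext k
    simp only [Finset.mem_map, Finset.mem_univ, true_and, Finset.mem_image]
    constructor
    · rintro ⟨j, rfl⟩
      exact ⟨_, rfl⟩
    · rintro ⟨y, rfl⟩
      exact ⟨e y, by simp⟩
  rw [h2] at h1
  have h3 : (fun v : κ → X => Matrix.det (Matrix.of fun j => T' j
      (v ((e.symm.toEmbedding.trans ⟨p, hp⟩) j))) * f v) =
      fun v => Matrix.det (Matrix.of fun y => T y (v (p y))) * f v := by
    funext v
    rw [← hdet (fun y => v (p y))]
    rfl
  rw [h3] at h1
  exact h1

end isProduct

end

end Pool.Agent.W522.S
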