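import Mathlib
import Pool.Agent.W522.S.S5
import Pool.Agent.W522.T.B6

/-!
# The first fundamental theorem for pure forms multiplied by determinants
-/

set_option linter.unusedSectionVars false

namespace Pool.Agent.W522.S

open Module Pool.Agent.H204R3.SP Pool.Agent.H204R3.GP
open Pool.Agent.W522.U (piRep piRep_apply piRep_single blk blk_apply blk_single par par_apply
  par_inj par_bij finrank_st r_inv r_inv' Irr gen_eig gen_pow gen_single exists_pow_mem om_skew cnt
  exists_fb finrank_lab e_single e_zero)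
open Pool.Agent.W522.T (brk LieFam Types Ty NoTwist full_indep independent exists_area trace_one_dim
  trace_rk gen_ne_zero IsLog lc lc_zero lc_one deriv_multi gen_pow_apply full conj_one Ind cj
  exists_reflect exists_avoid brk_tr trace_sp TS span_types)

noncomputable section

variable {K : Type*} [Field K] [CharZero K]
  {I : Type*} [Fintype I] [DecidableEq I] {E : I → Type*} [∀ i, AddCommGroup (E i)]
  [∀ i, Module K (E i)] [∀ i, FiniteDimensional K (E i)] {G : Type*} [Group G]
  {r : ∀ i, Representation K G (E i)}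
  (ω : (∀ i, E i) →ₗ[K] (∀ i, E i) →ₗ[K] K) (halt : ∀ u, ω u u = 0)
  (hnd : ∀ u, (∀ w, ω u w = 0) → u = 0)
  (st : I → I) (hst : ∀ i, st (st i) = i)
  (hor : ∀ i j, j ≠ st i → ∀ (u : E i) (v : E j), ω (Pi.single i u) (Pi.single j v) = 0)
  (χ : I → G → K)
  (hωr : ∀ i g (u : E i) (v : E (st i)), ω (Pi.single i (r i g u)) (Pi.single (st i)
    (r (st i) g v)) = χ i g * ω (Pi.single i u) (Pi.single (st i) v))
  (htw : ∀ i j, i ≠ j → 2 ≤ finrank K (E i) → 2 ≤ finrank K (E j) →
    ∀ (T : E i →ₗ[K] E j) (ψ : G → K), (∀ g u, T (r i g u) = ψ g • r j g (T u)) → T = 0)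
  (hirr : ∀ i, 2 ≤ finrank K (E i) → Irr (r i))
  (hnil : ∀ i, 2 ≤ finrank K (E i) → ∃ X ∈ f0 r,
    ∃ (u : E i) (φ : Dual K (E i)), u ≠ 0 ∧ φ ≠ 0 ∧ φ u = 0 ∧ X i = φ.smulRight u)
  (hdim : ∀ i, 2 ≤ finrank K (E i) ∨ (finrank K (E i) = 1 ∧ st i ≠ i))

theorem det_scal (j : I) {ι : Type*} [Fintype ι] [DecidableEq ι] (b : Basis ι K (E j))
    (F : ∀ j, Module.End K (E j)) :
    Scal (blk F) ((b.det : MultilinearMap K (fun _ : ι => E j) K).compLinearMap
      (fun _ => LinearMap.proj j)) (LinearMap.trace K (E j) (F j)) := by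
  intro v
  have h1 := det_trace b (F j) (fun k => v k j)
  refine Eq.trans ?_ h1
  refine Finset.sum_congr rfl fun k _ => ?_
  change b.det (fun l => (Function.update v k (blk F (v k)) l) j) = _
  congr 1
  funext l
  by_cases h : l = k
  · subst h
    rw [Function.update_self, Function.update_self, blk_apply]
  · rw [Function.update_of_ne h, Function.update_of_ne h]

variable {n : ℕ} (e : Basis (Fin n ⊕ Fin n) K (∀ i, E i)) (lab : Fin n ⊕ Fin n → I)
  (hlab : ∀ x, e x = Pi.single (lab x) (e x (lab x)))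
  (hlab' : ∀ x, lab x.swap = st (lab x))
  (he0 : ∀ x y, y ≠ x.swap → ω (e x) (e y) = 0) (he1 : ∀ x, ω (e x) (e x.swap) ≠ 0)

include halt he0 in
theorem SS_diag (x z : Fin n ⊕ Fin n) : SS ω (e x) (e x.swap) (e z) =
    (ω (e x) (e x.swap) * ((if z = x.swap then 1 else 0) - (if z = x then 1 else 0))) • e z := by
  rw [SS_apply]
  by_cases h1 : z = x.swap
  · subst h1
    have h2 : x.swap ≠ x := by
      intro h
      rcases x with x | x <;> simp at h
    rw [halt, zero_smul, add_zero, if_pos rfl, if_neg h2, sub_zero, mul_one]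
  · by_cases h2 : z = x
    · subst h2
      rw [halt, zero_smul, zero_add, if_neg h1, if_pos rfl, om_skew ω halt (e z.swap) (e z)]
      congr 1
      ring
    · rw [if_neg h1, if_neg h2, he0 x z h1, he0 x.swap z (by rw [Sum.swap_swap]; exact h2),
        zero_smul, zero_smul, add_zero, sub_zero, mul_zero, zero_smul]

include halt he0 in
theorem scal_diag {κ : Type*} [Fintype κ] [DecidableEq κ]
    {Φ : MultilinearMap K (fun _ : κ => ∀ i, E i) K} {x : Fin n ⊕ Fin n} {c : K}
    (h : Scal (SS ω (e x) (e x.swap)) Φ c) (J : κ → Fin n ⊕ Fin n)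
    (hJ : Φ (fun k => e (J k)) ≠ 0) :
    ω (e x) (e x.swap) * ((cnt J x.swap : K) - cnt J x) = c := by
  have h1 := h (fun k => e (J k))
  apply mul_right_cancel₀ hJ
  rw [← h1]
  have h2 : ∀ k, Φ (Function.update (fun k => e (J k)) k (SS ω (e x) (e x.swap) (e (J k)))) =
      (ω (e x) (e x.swap) * ((if J k = x.swap then 1 else 0) - (if J k = x then 1 else 0))) *
        Φ (fun k => e (J k)) := by
    intro k
    rw [SS_diag ω halt e he0, MultilinearMap.map_update_smul, Function.update_eq_self, smul_eq_mul]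
  rw [Finset.sum_congr rfl (fun k _ => h2 k), ← Finset.sum_mul, ← Finset.mul_sum]
  congr 2
  unfold cnt
  push_cast
  rw [Finset.sum_sub_distrib]

include halt hnd hωr hst hor htw hirr hnil hdim hlab hlab' he0 he1 in
/-- The weights of a pure form are integers. -/
theorem exists_int {κ : Type*} [Fintype κ] [DecidableEq κ] {t : κ → I}
    {Φ : MultilinearMap K (fun _ : κ => ∀ i, E i) K} (hΦ : Semi (piRep r) Φ) (hp : Pure t Φ)
    (h0 : Φ ≠ 0) : ∃ a : I → ℤ, (∀ i, a (st i) = -a i) ∧
      ∀ i, ((cnt t i : K) - cnt t (st i)) / finrank K (E i) = a i := by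
  obtain ⟨J, hJ⟩ : ∃ J : κ → Fin n ⊕ Fin n, Φ (fun k => e (J k)) ≠ 0 := by
    by_contra hcon
    push Not at hcon
    apply h0
    refine Basis.ext_multilinear (fun _ => e) fun J => ?_
    rw [hcon]
    rfl
  have key : ∀ i, ∃ a : ℤ, ((cnt t i : K) - cnt t (st i)) / finrank K (E i) = a := by
    intro i
    have hpos : 0 < (Finset.univ.filter (fun y => lab y = i)).card := by
      rw [← finrank_lab e lab hlab]
      rcases hdim i with h | h
      · omega
      · omega
    obtain ⟨x, hx⟩ := Finset.card_pos.1 hpos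
    rw [Finset.mem_filter] at hx
    obtain ⟨-, hx⟩ := hx
    subst hx
    have h1 := ss_scal ω halt hnd st hst hor χ hωr htw hirr hnil hdim hΦ hp (lab x) (e x (lab x))
      (e x.swap (st (lab x)))
    have h2 : (Pi.single (st (lab x)) (e x.swap (st (lab x))) : ∀ i, E i) = e x.swap := by
      have h3 := hlab x.swap
      rw [hlab'] at h3
      exact h3.symm
    rw [h2, ← hlab x] at h1
    have h3 := scal_diag ω halt e he0 h1 J hJ
    rw [om_skew ω halt (e x.swap) (e x), neg_mul, ← mul_neg] at h3
    have h4 := mul_left_cancel₀ (he1 x) h3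
    refine ⟨(cnt J x : ℤ) - cnt J x.swap, ?_⟩
    push_cast
    linear_combination h4
  choose a ha using key
  refine ⟨a, fun i => ?_, ha⟩
  have h1 : ((a (st i) : ℤ) : K) = ((-a i : ℤ) : K) := by
    push_cast
    rw [← ha, ← ha, hst, finrank_st ω hnd st hst hor]
    ring
  exact_mod_cast h1

/-- The product of pairings over a matching. -/
def MM {κ : Type*} {m : ℕ} (ε : Fin m × Fin 2 ≃ κ) (c : Fin m → I) :
    MultilinearMap K (fun _ : κ => ∀ i, E i) K :=
  (prodM (fun s => bil2 (ω.comp ((LinearMap.single K E (c s)).comp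
    (LinearMap.proj (c s)))))).domDomCongr ((Equiv.sigmaEquivProd (Fin m) (Fin 2)).trans ε)

theorem MM_apply {κ : Type*} {m : ℕ} (ε : Fin m × Fin 2 ≃ κ) (c : Fin m → I)
    (v : κ → ∀ i, E i) : MM ω ε c v = ∏ s, ω (Pi.single (c s) (v (ε (s, 0)) (c s)))
      (v (ε (s, 1))) := by
  unfold MM
  rw [MultilinearMap.domDomCongr_apply, prodM_apply]
  refine Finset.prod_congr rfl fun s _ => ?_
  rw [bil2_apply]
  rfl

include hlab in
theorem e_pc (c : I) (x : Fin n ⊕ Fin n) : (Pi.single c (e x c) : ∀ i, E i) =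
    if lab x = c then e x else 0 := by
  split_ifs with h
  · subst h
    exact (hlab x).symm
  · rw [e_zero e lab hlab h, Pi.single_zero]

include halt hst hlab hlab' he0 he1 in
/-- A form killed by the operators of all pairs of vectors in paired components is a linear
combination of products of pairings. -/
theorem fft_forms {κ : Type*} [Fintype κ] [DecidableEq κ] {t : κ → I}
    {Φ : MultilinearMap K (fun _ : κ => ∀ i, E i) K} (hp : Pure t Φ)
    (hs : ∀ b c, lab c = st (lab b) → Scal (SS ω (e b) (e c)) Φ 0) (h0 : Φ ≠ 0) :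
    ∃ m, Φ ∈ Submodule.span K {M | ∃ (ε : Fin m × Fin 2 ≃ κ) (c : Fin m → I), M = MM ω ε c} := by
  have hJJ : ∀ x y, ω (e x) (e y) = JJ Sum.swap (fun x => ω (e x) (e x.swap)) x y := by
    intro x y
    unfold JJ
    split_ifs with h
    · rw [h]
    · exact he0 x y h
  obtain ⟨J, hJ⟩ : ∃ J : κ → Fin n ⊕ Fin n, Φ (fun k => e (J k)) ≠ 0 := by
    by_contra hcon
    push Not at hcon
    apply h0
    refine Basis.ext_multilinear (fun _ => e) fun J => ?_
    rw [hcon]
    rfl
  have hbal : ∀ x, cnt J x = cnt J x.swap := by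
    intro x
    have h1 := scal_diag ω halt e he0 (hs x x.swap (hlab' x)) J hJ
    have h2 := (mul_eq_zero.1 h1).resolve_left (he1 x)
    have h3 : (cnt J x.swap : K) = cnt J x := by linear_combination h2
    exact_mod_cast h3.symm
  have hcard : ∃ m, Fintype.card κ = 2 * m := by
    refine ⟨∑ x : Fin n, cnt J (Sum.inl x), ?_⟩
    have h1 : Fintype.card κ = ∑ x : Fin n ⊕ Fin n, cnt J x := by
      unfold cnt
      rw [Finset.sum_comm]
      simp
    rw [h1, Fintype.sum_sum_type, two_mul]
    congr 1
    refine Finset.sum_congr rfl fun x _ => ?_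
    exact hbal (Sum.inr x)
  obtain ⟨m, hm⟩ := hcard
  refine ⟨m, ?_⟩
  let coef : MultilinearMap K (fun _ : κ => ∀ i, E i) K →ₗ[K] ((κ → Fin n ⊕ Fin n) → K) :=
    { toFun := fun φ J => φ (fun k => e (J k))
      map_add' := fun _ _ => rfl
      map_smul' := fun _ _ => rfl }
  have hinj : Function.Injective coef := fun φ φ' h =>
    Basis.ext_multilinear (fun _ => e) fun J => congrFun h J
  have hF : coef Φ ∈ InvG lab Sum.swap (fun x => ω (e x) (e x.swap)) κ t := by
    refine ⟨fun b c hbc J => ?_, fun J hJ k => ?_⟩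
    · have h3 := hs b c (by rw [← hbc, hlab']) (fun k => e (J k))
      rw [zero_mul] at h3
      rw [← h3]
      refine Finset.sum_congr rfl fun k _ => ?_
      rw [SS_apply, hJJ, hJJ, MultilinearMap.map_update_add, MultilinearMap.map_update_smul,
        MultilinearMap.map_update_smul, smul_eq_mul, smul_eq_mul]
      have h4 : ∀ z, coef Φ (Function.update J k z) =
          Φ (Function.update (fun k => e (J k)) k (e z)) := by
        intro z
        change Φ (fun l => e (Function.update J k z l)) = _
        congr 1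
        funext l
        by_cases hl : l = k
        · subst hl
          rw [Function.update_self, Function.update_self]
        · rw [Function.update_of_ne hl, Function.update_of_ne hl]
      rw [h4, h4]
    · by_contra h
      apply hJ
      change Φ (fun k => e (J k)) = 0
      rw [hp (fun k => e (J k)) (Function.update (fun k => e (J k)) k 0) (fun l => ?_)]
      · exact Φ.map_coord_zero k (Function.update_self _ _ _)
      · by_cases hl : l = k
        · subst hl
          rw [Function.update_self, e_zero e lab hlab h]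
          rfl
        · rw [Function.update_of_ne hl]
  have h1 := fftG (cls := lab) (inv := Sum.swap) (jj := fun x => ω (e x) (e x.swap))
    (fun x => Sum.swap_swap x) (fun x => by
      rw [Sum.swap_swap, om_skew ω halt]) he1 (fun x y h => by
      rw [hlab', hlab', h]) m κ hm t hF
  have h3 : MatG lab Sum.swap (fun x => ω (e x) (e x.swap)) κ m ≤
      (Submodule.span K {M | ∃ (ε : Fin m × Fin 2 ≃ κ) (c : Fin m → I),
        M = MM ω ε c}).map coef := by
    unfold MatG
    rw [Submodule.span_le]
    rintro _ ⟨σ, c, rfl⟩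
    refine ⟨MM ω σ c, Submodule.subset_span ⟨σ, c, rfl⟩, ?_⟩
    funext J
    change MM ω σ c (fun k => e (J k)) = _
    rw [MM_apply]
    refine Finset.prod_congr rfl fun s _ => ?_
    rw [e_pc e lab hlab]
    split_ifs
    · exact hJJ _ _
    · rw [map_zero, LinearMap.zero_apply]
  obtain ⟨φ', hφ', hφφ⟩ := h3 h1
  rw [← hinj hφφ]
  exact hφ'

end

end Pool.Agent.W522.S
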