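import Mathlib
import Pool.Agent.W522.S.S6

/-!
# Extraction of determinants
-/

set_option linter.unusedSectionVars false

namespace Pool.Agent.W522.S

open Module Pool.Agent.H204R3.SP Pool.Agent.H204R3.GP
open Pool.Agent.W522.U (piRep piRep_apply piRep_single blk blk_apply blk_single par par_apply
  par_inj par_bij finrank_st r_inv r_inv' Irr gen_eig gen_pow gen_single exists_pow_mem om_skew cnt
  exists_fb finrank_lab e_single e_zero)

noncomputable section

section products

variable {K : Type*} [Field K] {X : Type*} [AddCommGroup X] [Module K X] {Γ : Type*} [Group Γ]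
  {R : Representation K Γ X} {κ : Type*} [DecidableEq κ]

theorem isProduct_pairs {α : Type*} [DecidableEq α] (S : Finset α) (k0 k1 : α → κ)
    (B : α → X →ₗ[K] X →ₗ[K] K) (hB : ∀ s, Semi2 R (B s))
    (h0 : ∀ s ∈ S, ∀ s' ∈ S, k0 s = k0 s' → s = s') (h1 : ∀ s ∈ S, ∀ s' ∈ S, k1 s = k1 s' → s = s')
    (h01 : ∀ s ∈ S, ∀ s' ∈ S, k0 s ≠ k1 s') :
    IsProduct R (S.image k0 ∪ S.image k1) (fun v => ∏ s ∈ S, B s (v (k0 s)) (v (k1 s))) := by
  induction S using Finset.induction_on with
  | empty =>
    simp only [Finset.image_empty, Finset.empty_union, Finset.prod_empty]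
    exact IsProduct.one
  | insert s S hs ih =>
    have ih' := ih (fun s hs s' hs' => h0 s (Finset.mem_insert_of_mem hs) s'
      (Finset.mem_insert_of_mem hs')) (fun s hs s' hs' => h1 s (Finset.mem_insert_of_mem hs) s'
      (Finset.mem_insert_of_mem hs')) (fun s hs s' hs' => h01 s (Finset.mem_insert_of_mem hs) s'
      (Finset.mem_insert_of_mem hs'))
    have hself := Finset.mem_insert_self s S
    have h2 := IsProduct.pairing _ _ ih' (k0 s) (k1 s) (by
      rw [Finset.mem_union, Finset.mem_image, Finset.mem_image]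
      rintro (⟨s', hs', h⟩ | ⟨s', hs', h⟩)
      · have h3 := h0 s' (Finset.mem_insert_of_mem hs') s hself h
        subst h3
        exact hs hs'
      · exact h01 s hself s' (Finset.mem_insert_of_mem hs') h.symm) (by
      rw [Finset.mem_union, Finset.mem_image, Finset.mem_image]
      rintro (⟨s', hs', h⟩ | ⟨s', hs', h⟩)
      · exact h01 s' (Finset.mem_insert_of_mem hs') s hself h
      · have h3 := h1 s' (Finset.mem_insert_of_mem hs') s hself h
        subst h3
        exact hs hs') (h01 s hself s hself) (B s) (hB s)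
    have h3 : insert (k0 s) (insert (k1 s) (S.image k0 ∪ S.image k1)) =
        (insert s S).image k0 ∪ (insert s S).image k1 := by
      ext k
      simp only [Finset.mem_insert, Finset.mem_union, Finset.mem_image, Finset.image_insert]
      generalize (∃ a ∈ S, k0 a = k) = P
      generalize (∃ a ∈ S, k1 a = k) = Q
      tauto
    rw [h3] at h2
    have h4 : (fun v : κ → X => B s (v (k0 s)) (v (k1 s)) * ∏ s ∈ S, B s (v (k0 s)) (v (k1 s))) =
        fun v => ∏ s ∈ insert s S, B s (v (k0 s)) (v (k1 s)) := by
      funext v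
      rw [Finset.prod_insert hs]
    rw [h4] at h2
    exact h2

theorem isProduct_dets {S : Finset κ} {f : (κ → X) → K} (h : IsProduct R S f) {L : Type*}
    [DecidableEq L] {B : L → Type*} [∀ l, Fintype (B l)] [∀ l, DecidableEq (B l)]
    (p : (Σ l, B l) → κ) (hp : Function.Injective p) (hS : ∀ d, p d ∉ S)
    (T : ∀ l, B l → X →ₗ[K] (B l → K))
    (hT : ∀ l, ∃ Δ : Subgroup Γ, Δ.FiniteIndex ∧ ∃ θ : Γ → K, ∀ g ∈ Δ, ∀ v : B l → X,
      Matrix.det (Matrix.of fun y => T l y (R g (v y))) =
        θ g * Matrix.det (Matrix.of fun y => T l y (v y))) (Λ : Finset L) :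
    IsProduct R (Λ.biUnion (fun l => Finset.univ.image (fun y : B l => p ⟨l, y⟩)) ∪ S)
      (fun v => (∏ l ∈ Λ, Matrix.det (Matrix.of fun y => T l y (v (p ⟨l, y⟩)))) * f v) := by
  induction Λ using Finset.induction_on with
  | empty =>
    simp only [Finset.biUnion_empty, Finset.empty_union, Finset.prod_empty, one_mul]
    exact h
  | insert l Λ hl ih =>
    have h2 := ih.detB (fun y : B l => p ⟨l, y⟩) (fun y y' hy => by
      have h3 := hp hy
      exact eq_of_heq (Sigma.mk.inj h3).2) (fun y => by
      rw [Finset.mem_union, Finset.mem_biUnion]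
      rintro (⟨l', hl', h3⟩ | h3)
      · rw [Finset.mem_image] at h3
        obtain ⟨y', -, h4⟩ := h3
        have h5 := congrArg Sigma.fst (hp h4)
        dsimp only at h5
        subst h5
        exact hl hl'
      · exact hS _ h3) (T l) (hT l)
    have h3 : Finset.univ.image (fun y : B l => p ⟨l, y⟩) ∪
        (Λ.biUnion (fun l => Finset.univ.image (fun y : B l => p ⟨l, y⟩)) ∪ S) =
        (insert l Λ).biUnion (fun l => Finset.univ.image (fun y : B l => p ⟨l, y⟩)) ∪ S := by
      rw [Finset.biUnion_insert, Finset.union_assoc]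
    rw [h3] at h2
    have h4 : (fun v : κ → X => Matrix.det (Matrix.of fun y => T l y (v (p ⟨l, y⟩))) *
        ((∏ l ∈ Λ, Matrix.det (Matrix.of fun y => T l y (v (p ⟨l, y⟩)))) * f v)) =
        fun v => (∏ l ∈ insert l Λ, Matrix.det (Matrix.of fun y => T l y (v (p ⟨l, y⟩)))) * f v := by
      funext v
      rw [Finset.prod_insert hl, mul_assoc]
    rw [h4] at h2
    exact h2

end products

variable {K : Type*} [Field K] [CharZero K]
  {I : Type*} [Fintype I] [DecidableEq I] {E : I → Type*} [∀ i, AddCommGroup (E i)]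
  [∀ i, Module K (E i)] [∀ i, FiniteDimensional K (E i)] {G : Type*} [Group G]
  {r : ∀ i, Representation K G (E i)}
  (ω : (∀ i, E i) →ₗ[K] (∀ i, E i) →ₗ[K] K) (halt : ∀ u, ω u u = 0)
  (hnd : ∀ u, (∀ w, ω u w = 0) → u = 0)
  (st : I → I) (hst : ∀ i, st (st i) = i)
  (hor : ∀ i j, j ≠ st i → ∀ (u : E i) (v : E j), ω (Pi.single i u) (Pi.single j v) = 0)
  (χ : I → G → K)
  (hωr : ∀ i g (u : E i) (v : E (st i)), ω (Pi.single i (r i g u)) (Pi.single (st i)
    (r (st i) g v)) = χ i g * ω (Pi.single i u) (Pi.single (st i) v))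
  {n : ℕ} (e : Basis (Fin n ⊕ Fin n) K (∀ i, E i)) (lab : Fin n ⊕ Fin n → I)
  (hlab : ∀ x, e x = Pi.single (lab x) (e x (lab x)))
  (hlab' : ∀ x, lab x.swap = st (lab x))
  (he0 : ∀ x y, y ≠ x.swap → ω (e x) (e y) = 0)
  {L : Type*} [Fintype L] [DecidableEq L] (ty : L → I)

/-- The pairing of the first variable with the extra variable. -/
def GG (j : Fin 2) (c : I) : (∀ i, E i) →ₗ[K] (∀ i, E i) →ₗ[K] K :=
  if j = 1 then ω.comp ((LinearMap.single K E c).comp (LinearMap.proj c))
  else (ω.comp ((LinearMap.single K E c).comp (LinearMap.proj c))).flip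

include hor hωr in
theorem GG_sim (j : Fin 2) (c : I) (g : G) (u w : ∀ i, E i) :
    GG ω j c (piRep r g u) (piRep r g w) = χ c g * GG ω j c u w := by
  unfold GG
  split_ifs
  · exact om_sim ω st hor χ hωr c g u w
  · exact om_sim ω st hor χ hωr c g w u

include hor hωr hlab in
/-- The determinants are semi-invariant. -/
theorem det_GG_semi (i : I) (j : {x // lab x = i} → Fin 2) (c : {x // lab x = i} → I) :
    ∃ Δ : Subgroup G, Δ.FiniteIndex ∧ ∃ θ : G → K, ∀ g ∈ Δ, ∀ v : {x // lab x = i} → ∀ i, E i,
      Matrix.det (Matrix.of fun y => (LinearMap.pi fun z : {x // lab x = i} =>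
        (GG ω (j y) (c y)).flip (e z.1)) (piRep r g (v y))) =
      θ g * Matrix.det (Matrix.of fun y => (LinearMap.pi fun z : {x // lab x = i} =>
        (GG ω (j y) (c y)).flip (e z.1)) (v y)) := by
  obtain ⟨f, hf⟩ := exists_fb e lab hlab i
  refine ⟨⊤, inferInstance, fun g => (∏ y, χ (c y) g) * LinearMap.det (r i g⁻¹), fun g _ v => ?_⟩
  have hfe : ∀ z, (Pi.single i (f z) : ∀ i, E i) = e z.1 := by
    intro z
    obtain ⟨z, rfl⟩ := z
    rw [hf]
    exact (hlab z).symm
  have h1 : (Matrix.of fun y => (LinearMap.pi fun z : {x // lab x = i} =>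
        (GG ω (j y) (c y)).flip (e z.1)) (piRep r g (v y))) =
      Matrix.of fun y z => χ (c y) g * ((Matrix.of fun y => (LinearMap.pi
        fun z : {x // lab x = i} => (GG ω (j y) (c y)).flip (e z.1)) (v y)) *
        LinearMap.toMatrix f f (r i g⁻¹)) y z := by
    ext y z
    rw [Matrix.of_apply, Matrix.of_apply, LinearMap.pi_apply, LinearMap.flip_apply,
      Matrix.mul_apply]
    have h2 : e z.1 = piRep r g (piRep r g⁻¹ (e z.1)) := by
      funext i
      rw [piRep_apply, piRep_apply, r_inv']
    conv_lhs => rw [h2]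
    rw [GG_sim ω st hor χ hωr]
    congr 1
    have h3 : piRep r g⁻¹ (e z.1) = ∑ z', (LinearMap.toMatrix f f (r i g⁻¹)) z' z • e z'.1 := by
      rw [← hfe, piRep_single, ← f.sum_repr (r i g⁻¹ (f z))]
      change LinearMap.single K E i _ = _
      rw [_root_.map_sum]
      refine Finset.sum_congr rfl fun z' _ => ?_
      rw [map_smul, LinearMap.toMatrix_apply, ← hfe]
      rfl
    rw [h3, _root_.map_sum]
    refine Finset.sum_congr rfl fun z' _ => ?_
    rw [map_smul, smul_eq_mul, mul_comm]
    rfl
  rw [h1, Matrix.det_mul_column, Matrix.det_mul, LinearMap.det_toMatrix]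
  ring

include hor hωr hlab hlab' he0 hst in
/-- The sum over the permutations of the extra variables of a product of pairings. -/
theorem anti_MM {κ : Type*} [Fintype κ] [DecidableEq κ] {m : ℕ}
    (ε : Fin m × Fin 2 ≃ κ ⊕ (Σ l, {x // lab x = st (ty l)})) (c : Fin m → I)
    (hty : ∀ l l', ty l' ≠ st (ty l)) :
    (fun v : κ → ∀ i, E i => ∑ π : (∀ l, Equiv.Perm {x // lab x = st (ty l)}),
      (∏ l, ((Equiv.Perm.sign (π l) : ℤ) : K)) *
        MM ω ε c (Sum.elim v (fun d => e (π d.1 d.2).1))) ∈
      Submodule.span K {f | IsProduct (piRep r) Finset.univ f} := by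
  classical
  by_cases hA : ∃ s d0 d1, ε (s, 0) = Sum.inr d0 ∧ ε (s, 1) = Sum.inr d1
  · obtain ⟨s, d0, d1, h0, h1⟩ := hA
    have h2 : (fun v : κ → ∀ i, E i => ∑ π : (∀ l, Equiv.Perm {x // lab x = st (ty l)}),
      (∏ l, ((Equiv.Perm.sign (π l) : ℤ) : K)) *
        MM ω ε c (Sum.elim v (fun d => e (π d.1 d.2).1))) = 0 := by
      funext v
      refine Finset.sum_eq_zero fun π _ => ?_
      rw [MM_apply, Finset.prod_eq_zero (Finset.mem_univ s), mul_zero]
      rw [h0, h1, Sum.elim_inr, Sum.elim_inr, e_pc e lab hlab]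
      split_ifs with h3
      · refine he0 _ _ fun h4 => ?_
        have h5 := congrArg lab h4
        rw [hlab', (π d0.1 d0.2).2, (π d1.1 d1.2).2, hst] at h5
        exact hty _ _ h5.symm
      · rw [map_zero, LinearMap.zero_apply]
    rw [h2]
    exact Submodule.zero_mem _
  · push Not at hA
    let D : Type _ := Σ l, {x // lab x = st (ty l)}
    let sd : D → Fin m := fun d => (ε.symm (Sum.inr d)).1
    let jd : D → Fin 2 := fun d => (ε.symm (Sum.inr d)).2
    have hsj : ∀ d, ε (sd d, jd d) = Sum.inr d := fun d => ε.apply_symm_apply _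
    have hpd : ∀ d, ∃ k, ε (sd d, jd d + 1) = Sum.inl k := by
      intro d
      rcases h1 : ε (sd d, jd d + 1) with k | d'
      · exact ⟨k, rfl⟩
      · exfalso
        have h2 := hsj d
        rcases (show jd d = 0 ∨ jd d = 1 by omega) with h3 | h3
        · rw [h3] at h1 h2
          exact hA _ _ _ h2 h1
        · rw [h3] at h1 h2
          exact hA _ _ _ h1 h2
    choose p hp using hpd
    have hsinj : Function.Injective sd := by
      intro d d' h
      by_cases hj : jd d = jd d'
      · have h1 := hsj d
        rw [h, hj, hsj] at h1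
        exact (Sum.inr_injective h1).symm
      · exfalso
        have h1 : jd d' = jd d + 1 := by omega
        have h2 := hp d
        rw [h, ← h1, hsj] at h2
        exact absurd h2 (by simp)
    have hpinj : Function.Injective p := by
      intro d d' h
      have h1 := (hp d).trans ((congrArg Sum.inl h).trans (hp d').symm)
      have h2 : (sd d, jd d + 1) = (sd d', jd d' + 1) := ε.injective h1
      exact hsinj (Prod.mk.inj h2).1
    let S0 : Finset (Fin m) := Finset.univ.filter (fun s => ∀ d, sd d ≠ s)
    have hS0 : ∀ s ∈ S0, ∀ j, ∃ k, ε (s, j) = Sum.inl k := by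
      intro s hs j
      rcases h1 : ε (s, j) with k | d
      · exact ⟨k, rfl⟩
      · exfalso
        refine (Finset.mem_filter.1 hs).2 d ?_
        change (ε.symm (Sum.inr d)).1 = s
        rw [← h1, Equiv.symm_apply_apply]
    by_cases hS0e : S0.Nonempty ∨ Nonempty κ
    · have hκ : Nonempty κ := by
        rcases hS0e with ⟨s, hs⟩ | h
        · obtain ⟨k, _⟩ := hS0 s hs 0
          exact ⟨k⟩
        · exact h
      let k0 : Fin m → κ := fun s => if h : s ∈ S0 then (hS0 s h 0).choose else hκ.some
      let k1 : Fin m → κ := fun s => if h : s ∈ S0 then (hS0 s h 1).choose else hκ.some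
      have hk0 : ∀ s ∈ S0, ε (s, 0) = Sum.inl (k0 s) := by
        intro s hs
        have h1 : k0 s = (hS0 s hs 0).choose := dif_pos hs
        rw [h1]
        exact (hS0 s hs 0).choose_spec
      have hk1 : ∀ s ∈ S0, ε (s, 1) = Sum.inl (k1 s) := by
        intro s hs
        have h1 : k1 s = (hS0 s hs 1).choose := dif_pos hs
        rw [h1]
        exact (hS0 s hs 1).choose_spec
      have hP1 := isProduct_pairs (R := piRep r) S0 k0 k1
        (fun s => ω.comp ((LinearMap.single K E (c s)).comp (LinearMap.proj (c s))))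
        (fun s => pair_semi ω st hor χ hωr (c s))
        (fun s hs s' hs' h => by
          have h1 := (hk0 s hs).trans ((congrArg Sum.inl h).trans (hk0 s' hs').symm)
          exact congrArg Prod.fst (ε.injective h1))
        (fun s hs s' hs' h => by
          have h1 := (hk1 s hs).trans ((congrArg Sum.inl h).trans (hk1 s' hs').symm)
          exact congrArg Prod.fst (ε.injective h1))
        (fun s hs s' hs' h => by
          have h1 := (hk0 s hs).trans ((congrArg Sum.inl h).trans (hk1 s' hs').symm)
          have h2 := congrArg Prod.snd (ε.injective h1)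
          exact absurd h2 (by simp))
      have hP2 := isProduct_dets hP1 p hpinj (fun d h => by
        rw [Finset.mem_union, Finset.mem_image, Finset.mem_image] at h
        rcases h with ⟨s, hs, h⟩ | ⟨s, hs, h⟩
        · have h1 := (hk0 s hs).trans ((congrArg Sum.inl h).trans (hp d).symm)
          exact (Finset.mem_filter.1 hs).2 d (congrArg Prod.fst (ε.injective h1)).symm
        · have h1 := (hk1 s hs).trans ((congrArg Sum.inl h).trans (hp d).symm)
          exact (Finset.mem_filter.1 hs).2 d (congrArg Prod.fst (ε.injective h1)).symm)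
        (fun l y => LinearMap.pi fun z : {x // lab x = st (ty l)} =>
          (GG ω (jd ⟨l, y⟩) (c (sd ⟨l, y⟩))).flip (e z.1))
        (fun l => det_GG_semi ω st hor χ hωr e lab hlab (st (ty l)) (fun y => jd ⟨l, y⟩)
          (fun y => c (sd ⟨l, y⟩))) Finset.univ
      refine Submodule.subset_span ?_
      have hcov : Finset.univ.biUnion (fun l => Finset.univ.image
          (fun y : {x // lab x = st (ty l)} => p ⟨l, y⟩)) ∪ (S0.image k0 ∪ S0.image k1) =
          Finset.univ := by
        rw [Finset.eq_univ_iff_forall]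
        intro k
        rw [Finset.mem_union, Finset.mem_biUnion, Finset.mem_union, Finset.mem_image,
          Finset.mem_image]
        obtain ⟨⟨s, j⟩, hsj'⟩ : ∃ q, q = ε.symm (Sum.inl k) := ⟨_, rfl⟩
        have hk : ε (s, j) = Sum.inl k := by
          rw [hsj', Equiv.apply_symm_apply]
        by_cases hs : s ∈ S0
        · right
          rcases (show j = 0 ∨ j = 1 by omega) with h3 | h3
          · left
            subst h3
            refine ⟨s, hs, ?_⟩
            have h4 := (hk0 s hs).symm.trans hk
            exact Sum.inl_injective h4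
          · right
            subst h3
            refine ⟨s, hs, ?_⟩
            have h4 := (hk1 s hs).symm.trans hk
            exact Sum.inl_injective h4
        · left
          have h3 : ∃ d, sd d = s := by
            by_contra h4
            push Not at h4
            exact hs (Finset.mem_filter.2 ⟨Finset.mem_univ _, h4⟩)
          obtain ⟨d, hd⟩ := h3
          refine ⟨d.1, Finset.mem_univ _, ?_⟩
          rw [Finset.mem_image]
          refine ⟨d.2, Finset.mem_univ _, ?_⟩
          have h4 : j = jd d + 1 := by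
            by_contra h5
            have h6 : j = jd d := by omega
            rw [h6, ← hd, hsj] at hk
            exact absurd hk (by simp)
          have h5 := hp d
          rw [hd, ← h4, hk] at h5
          exact (Sum.inl_injective h5).symm
      rw [hcov] at hP2
      refine (congrArg (fun f => IsProduct (piRep r) Finset.univ f) ?_).mpr hP2
      funext v
      -- the value of the product of pairings
      have hMM : ∀ π : (∀ l, Equiv.Perm {x // lab x = st (ty l)}),
          MM ω ε c (Sum.elim v (fun d => e (π d.1 d.2).1)) =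
          (∏ l, ∏ y, GG ω (jd ⟨l, y⟩) (c (sd ⟨l, y⟩)) (v (p ⟨l, y⟩)) (e (π l y).1)) *
          ∏ s ∈ S0, ω.comp ((LinearMap.single K E (c s)).comp (LinearMap.proj (c s)))
            (v (k0 s)) (v (k1 s)) := by
        intro π
        rw [MM_apply, ← Finset.prod_filter_mul_prod_filter_not Finset.univ
          (fun s => ∀ d, sd d ≠ s), mul_comm]
        congr 1
        · have h1 : Finset.univ.filter (fun s => ¬ ∀ d, sd d ≠ s) = Finset.univ.image sd := by
            ext s
            simp
          rw [h1, Finset.prod_image (fun d _ d' _ h => hsinj h), Fintype.prod_sigma]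
          refine Finset.prod_congr rfl fun l _ => Finset.prod_congr rfl fun y _ => ?_
          have h2 := hsj ⟨l, y⟩
          have h3 := hp ⟨l, y⟩
          unfold GG
          rcases (show jd ⟨l, y⟩ = 0 ∨ jd ⟨l, y⟩ = 1 by omega) with h4 | h4
          · rw [h4] at h2 h3
            rw [h4, if_neg (by decide), h2]
            rw [show (0 : Fin 2) + 1 = 1 from rfl] at h3
            rw [h3, Sum.elim_inr, Sum.elim_inl]
            rfl
          · rw [h4] at h2 h3
            rw [h4, if_pos rfl, h2]
            rw [show (1 : Fin 2) + 1 = 0 from rfl] at h3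
            rw [h3, Sum.elim_inr, Sum.elim_inl]
            rfl
        · refine Finset.prod_congr rfl fun s hs => ?_
          rw [hk0 s hs, hk1 s hs, Sum.elim_inl, Sum.elim_inl]
          rfl
      rw [Finset.sum_congr rfl (fun π _ => by rw [hMM π, ← mul_assoc, ← Finset.prod_mul_distrib]),
        ← Finset.sum_mul]
      congr 1
      have h1 : ∀ l, Matrix.det (Matrix.of fun y => (LinearMap.pi
          fun z : {x // lab x = st (ty l)} => (GG ω (jd ⟨l, y⟩) (c (sd ⟨l, y⟩))).flip (e z.1))
            (v (p ⟨l, y⟩))) = ∑ σ : Equiv.Perm {x // lab x = st (ty l)},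
            ((Equiv.Perm.sign σ : ℤ) : K) * ∏ y, GG ω (jd ⟨l, y⟩) (c (sd ⟨l, y⟩))
              (v (p ⟨l, y⟩)) (e (σ y).1) := by
        intro l
        rw [← Matrix.det_transpose, Matrix.det_apply']
        rfl
      rw [Finset.prod_congr rfl (fun l _ => h1 l), Finset.prod_univ_sum, Fintype.piFinset_univ]
    · -- no variables
      push Not at hS0e
      have hκ : IsEmpty κ := hS0e.2
      have hD : IsEmpty D := ⟨fun d => hκ.false (p d)⟩
      have h1 : (fun v : κ → ∀ i, E i => ∑ π : (∀ l, Equiv.Perm {x // lab x = st (ty l)}),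
          (∏ l, ((Equiv.Perm.sign (π l) : ℤ) : K)) *
          MM ω ε c (Sum.elim v (fun d => e (π d.1 d.2).1))) =
          (∑ π : (∀ l, Equiv.Perm {x // lab x = st (ty l)}),
          (∏ l, ((Equiv.Perm.sign (π l) : ℤ) : K)) *
          MM ω ε c (Sum.elim (fun k => (hκ.false k).elim) (fun d => e (π d.1 d.2).1))) •
            (fun _ => 1) := by
        funext v
        have h2 : v = fun k => (hκ.false k).elim := Subsingleton.elim _ _
        rw [h2, Pi.smul_apply, smul_eq_mul, mul_one]
      rw [h1]
      refine Submodule.smul_mem _ _ (Submodule.subset_span ?_)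
      change IsProduct (piRep r) Finset.univ _
      rw [Finset.univ_eq_empty]
      exact IsProduct.one

end

end Pool.Agent.W522.S
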