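import Mathlib
import Pool.Agent.W522.S.S7

/-!
# The theorem for a family
-/

set_option linter.unusedSectionVars false

namespace Pool.Agent.W522.S

open Module Pool.Agent.H204R3.SP Pool.Agent.H204R3.GP
open Pool.Agent.W522.U (piRep piRep_apply piRep_single blk blk_apply blk_single par par_apply
  par_inj par_bij finrank_st r_inv r_inv' Irr gen_eig gen_pow gen_single exists_pow_mem om_skew cnt
  exists_fb finrank_lab e_single e_zero exists_graded)

noncomputable section

variable {K : Type*} [Field K] [CharZero K]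
  {I : Type*} [Fintype I] [DecidableEq I] {E : I → Type*} [∀ i, AddCommGroup (E i)]
  [∀ i, Module K (E i)] [∀ i, FiniteDimensional K (E i)] {G : Type*} [Group G]
  {r : ∀ i, Representation K G (E i)}
  (ω : (∀ i, E i) →ₗ[K] (∀ i, E i) →ₗ[K] K) (halt : ∀ u, ω u u = 0)
  (hnd : ∀ u, (∀ w, ω u w = 0) → u = 0)
  (st : I → I) (hst : ∀ i, st (st i) = i)
  (hor : ∀ i j, j ≠ st i → ∀ (u : E i) (v : E j), ω (Pi.single i u) (Pi.single j v) = 0)
  (χ : I → G → K)
  (hωr : ∀ i g (u : E i) (v : E (st i)), ω (Pi.single i (r i g u)) (Pi.single (st i)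
    (r (st i) g v)) = χ i g * ω (Pi.single i u) (Pi.single (st i) v))
  (htw : ∀ i j, i ≠ j → 2 ≤ finrank K (E i) → 2 ≤ finrank K (E j) →
    ∀ (T : E i →ₗ[K] E j) (ψ : G → K), (∀ g u, T (r i g u) = ψ g • r j g (T u)) → T = 0)
  (hirr : ∀ i, 2 ≤ finrank K (E i) → Irr (r i))
  (hnil : ∀ i, 2 ≤ finrank K (E i) → ∃ X ∈ f0 r,
    ∃ (u : E i) (φ : Dual K (E i)), u ≠ 0 ∧ φ ≠ 0 ∧ φ u = 0 ∧ X i = φ.smulRight u)
  (hdim : ∀ i, 2 ≤ finrank K (E i) ∨ (finrank K (E i) = 1 ∧ st i ≠ i))

include hor in
theorem fam_trace' {i : I} (hi : st i ≠ i) (hst : ∀ i, st (st i) = i) (u : E i) (w : E (st i)) :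
    LinearMap.trace K (E (st i)) (fam ω st i u w (st i)) =
      ω (Pi.single i u) (Pi.single (st i) w) := by
  have h1 : fam ω st i u w (st i) = ((ω (Pi.single i u)).comp
      (LinearMap.single K E (st i))).smulRight w := by
    refine LinearMap.ext fun x => ?_
    rw [fam_apply, SS_apply, hor (st i) (st i) (fun h => hi (by rw [hst] at h; exact h)),
      zero_smul, add_zero, Pi.smul_apply, Pi.single_eq_same]
    rfl
  rw [h1, LinearMap.trace_smulRight]
  rfl

include halt hnd hωr hst hor htw hirr hnil hdim in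
/-- **The structure theorem for a family.** -/
theorem fft_family [IsAlgClosed K] {κ : Type*} [Fintype κ] [DecidableEq κ] {t : κ → I}
    {Φ : MultilinearMap K (fun _ : κ => ∀ i, E i) K} (hΦ : Semi (piRep r) Φ) (hp : Pure t Φ) :
    (fun v => Φ v) ∈ Submodule.span K {f | IsProduct (piRep r) Finset.univ f} := by
  classical
  by_cases h0 : Φ = 0
  · have h1 : (fun v => Φ v) = 0 := by
      funext v
      rw [h0]
      rfl
    rw [h1]
    exact Submodule.zero_mem _
  obtain ⟨n, e, lab, -, hlab, hlab', he0, he1, -, -⟩ :=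
    exists_graded (r := fun i => (1 : Representation K Unit (E i))) (χ := 1) ω halt hnd
      (fun _ u v => by
        rw [MonoidHom.one_apply, one_mul]
        rfl) st hst hor ()
  obtain ⟨a, hast, ha⟩ := exists_int ω halt hnd st hst hor χ hωr htw hirr hnil hdim e lab hlab
    hlab' he0 he1 hΦ hp h0
  let L : Type _ := Σ i : I, Fin (a i).toNat
  let ty : L → I := fun l => l.1
  have hty0 : ∀ l : L, 0 < a (ty l) := by
    intro l
    have h1 := l.2.2
    have h2 : 0 < (a l.1).toNat := by omega
    have h3 : 0 < a l.1 := by omega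
    exact h3
  have hty : ∀ l l' : L, ty l' ≠ st (ty l) := by
    intro l l' h
    have h1 := hty0 l'
    rw [h, hast] at h1
    have h2 := hty0 l
    omega
  choose f hf using fun l : L => exists_fb e lab hlab (st (ty l))
  let ψ : ∀ l : L, MultilinearMap K (fun _ : {x // lab x = st (ty l)} => ∀ i, E i) K := fun l =>
    ((f l).det : MultilinearMap K (fun _ : {x // lab x = st (ty l)} =>
      E (st (ty l))) K).compLinearMap (fun _ => LinearMap.proj (st (ty l)))
  let Φ' := mulM Φ (prodM ψ)
  have hΦ' : ∀ (v : κ → ∀ i, E i) (π : ∀ l : L, Equiv.Perm {x // lab x = st (ty l)}),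
      Φ' (Sum.elim v (fun d => e (π d.1 d.2).1)) =
        Φ v * ∏ l, ((Equiv.Perm.sign (π l) : ℤ) : K) := by
    intro v π
    change mulM Φ (prodM ψ) _ = _
    rw [mulM_apply, prodM_apply]
    congr 1
    refine Finset.prod_congr rfl fun l _ => ?_
    change (f l).det (fun y => e (π l y).1 (st (ty l))) = _
    have h1 : (fun y => e (π l y).1 (st (ty l))) = (f l) ∘ (π l) := by
      funext y
      exact (hf l (π l y)).symm
    rw [h1, AlternatingMap.map_perm, (f l).det_self, Units.smul_def, zsmul_eq_mul, mul_one]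
  have hΦ'0 : Φ' ≠ 0 := by
    intro h1
    apply h0
    refine MultilinearMap.ext fun v => ?_
    have h2 := hΦ' v (fun l => 1)
    rw [h1] at h2
    simpa using h2.symm
  have hp' : Pure (Sum.elim t (fun d : (Σ l, {x // lab x = st (ty l)}) => st (ty d.1))) Φ' := by
    intro v v' h
    change mulM Φ (prodM ψ) v = mulM Φ (prodM ψ) v'
    rw [mulM_apply, mulM_apply, prodM_apply, prodM_apply]
    congr 1
    · exact hp _ _ fun k => h (Sum.inl k)
    · refine Finset.prod_congr rfl fun l _ => ?_
      change (f l).det _ = (f l).det _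
      congr 1
      funext y
      exact h (Sum.inr ⟨l, y⟩)
  have hs : ∀ b c, lab c = st (lab b) → Scal (SS ω (e b) (e c)) Φ' 0 := by
    intro b c hbc
    set i := lab b with hi
    have hb : e b = Pi.single i (e b i) := hlab b
    have hc : e c = Pi.single (st i) (e c (st i)) := e_single e lab hlab hbc
    set u := e b i with hu
    set w := e c (st i) with hw
    have h1 := ss_scal ω halt hnd st hst hor χ hωr htw hirr hnil hdim hΦ hp i u w
    rw [ha] at h1
    have h2 := scal_prodM (ψ := ψ) (X := SS ω (Pi.single i u) (Pi.single (st i) w))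
      (c := fun l => LinearMap.trace K (E (st (ty l))) (fam ω st i u w (st (ty l)))) (fun l => by
        rw [← blk_fam ω st hst hor]
        exact det_scal (st (ty l)) (f l) _)
    have h3 := scal_mulM h1 h2
    rw [hb, hc]
    have h4 : ω (Pi.single (st i) w) (Pi.single i u) * (a i : K) +
        ∑ l : L, LinearMap.trace K (E (st (ty l))) (fam ω st i u w (st (ty l))) = 0 := by
      rw [Fintype.sum_sigma]
      have h5 : ∀ i' : I, ∑ _j : Fin (a i').toNat,
          LinearMap.trace K (E (st i')) (fam ω st i u w (st i')) =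
          ((a i').toNat : K) * LinearMap.trace K (E (st i')) (fam ω st i u w (st i')) := by
        intro i'
        rw [Finset.sum_const, Finset.card_univ, Fintype.card_fin, nsmul_eq_mul]
      have h6 : ∑ i', ∑ _j : Fin (a i').toNat,
          LinearMap.trace K (E (st i')) (fam ω st i u w (st i')) =
          ∑ i', ((a i').toNat : K) * LinearMap.trace K (E (st i')) (fam ω st i u w (st i')) :=
        Finset.sum_congr rfl fun i' _ => h5 i'
      refine Eq.trans (congrArg (fun z => _ + z) h6) ?_
      have hz : ∀ i', i' ≠ i → i' ≠ st i → ((a i').toNat : K) *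
          LinearMap.trace K (E (st i')) (fam ω st i u w (st i')) = 0 := by
        intro i' h7 h8
        rw [fam_zero ω st hor hst i u w (st i') (fun h => h8 (by rw [← h, hst]))
          (fun h => h7 (by rw [← hst i', h, hst])), map_zero, mul_zero]
      by_cases hii : st i = i
      · have ha0 : a i = 0 := by
          have h7 := hast i
          rw [hii] at h7
          omega
        rw [ha0, Int.cast_zero, mul_zero, zero_add]
        refine Finset.sum_eq_zero fun i' _ => ?_
        by_cases h7 : i' = i
        · rw [h7, ha0]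
          simp
        · exact hz i' h7 (by rw [hii]; exact h7)
      · rw [← Finset.add_sum_erase _ _ (Finset.mem_univ i),
          ← Finset.add_sum_erase _ _ (Finset.mem_erase.2 ⟨hii, Finset.mem_univ (st i)⟩),
          Finset.sum_eq_zero (s := (Finset.univ.erase i).erase (st i)) (fun i' hi' => by
            rw [Finset.mem_erase, Finset.mem_erase] at hi'
            exact hz i' hi'.2.1 hi'.1), add_zero, fam_trace' ω st hor hii hst]
        have h8 : LinearMap.trace K (E (st (st i))) (fam ω st i u w (st (st i))) =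
            ω (Pi.single (st i) w) (Pi.single i u) := by
          rw [hst]
          exact fam_trace ω st hor halt hii u w
        rw [h8, om_skew ω halt (Pi.single i u), hast]
        have h9 : ((a i : ℤ) : K) = ((a i).toNat : K) - ((-a i).toNat : K) := by
          have h10 := Int.toNat_sub_toNat_neg (a i)
          have h11 : (((((a i).toNat : ℤ) - ((-a i).toNat : ℤ) : ℤ)) : K) = ((a i : ℤ) : K) := by
            rw [h10]
          rw [← h11]
          push_cast
          ring
        rw [h9]
        ring
    rw [h4] at h3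
    exact h3
  obtain ⟨m, hm⟩ := fft_forms ω halt st hst e lab hlab hlab' he0 he1 hp' hs hΦ'0
  -- the antisymmetrisation
  let 𝒜 : MultilinearMap K (fun _ : κ ⊕ (Σ l, {x // lab x = st (ty l)}) => ∀ i, E i) K →ₗ[K]
      ((κ → ∀ i, E i) → K) :=
    { toFun := fun Ψ v => ∑ π : (∀ l, Equiv.Perm {x // lab x = st (ty l)}),
        (∏ l, ((Equiv.Perm.sign (π l) : ℤ) : K)) * Ψ (Sum.elim v (fun d => e (π d.1 d.2).1))
      map_add' := by
        intro Ψ Ψ'
        funext v
        simp only [MultilinearMap.add_apply, Pi.add_apply, mul_add, Finset.sum_add_distrib]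
      map_smul' := by
        intro c Ψ
        funext v
        simp only [MultilinearMap.smul_apply, Pi.smul_apply, smul_eq_mul, RingHom.id_apply,
          Finset.mul_sum]
        refine Finset.sum_congr rfl fun π _ => ?_
        ring }
  have h1 : 𝒜 Φ' ∈ Submodule.span K {f | IsProduct (piRep r) Finset.univ f} := by
    have h2 : Submodule.span K {M | ∃ (ε : Fin m × Fin 2 ≃ κ ⊕ (Σ l, {x // lab x = st (ty l)}))
        (c : Fin m → I), M = MM ω ε c} ≤
        (Submodule.span K {f | IsProduct (piRep r) Finset.univ f}).comap 𝒜 := by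
      rw [Submodule.span_le]
      rintro _ ⟨ε, c, rfl⟩
      exact anti_MM ω st hst hor χ hωr e lab hlab hlab' he0 ty ε c hty
    exact h2 hm
  have h2 : 𝒜 Φ' = (Fintype.card (∀ l : L, Equiv.Perm {x // lab x = st (ty l)}) : K) •
      (fun v => Φ v) := by
    funext v
    change ∑ π : (∀ l, Equiv.Perm {x // lab x = st (ty l)}),
        (∏ l, ((Equiv.Perm.sign (π l) : ℤ) : K)) * Φ' (Sum.elim v (fun d => e (π d.1 d.2).1)) = _
    have h3 : ∀ π : (∀ l, Equiv.Perm {x // lab x = st (ty l)}),
        (∏ l, ((Equiv.Perm.sign (π l) : ℤ) : K)) *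
          Φ' (Sum.elim v (fun d => e (π d.1 d.2).1)) = Φ v := by
      intro π
      rw [hΦ', mul_left_comm, ← Finset.prod_mul_distrib]
      have h4 : ∀ l, ((Equiv.Perm.sign (π l) : ℤ) : K) * ((Equiv.Perm.sign (π l) : ℤ) : K) = 1 := by
        intro l
        rcases Int.units_eq_one_or (Equiv.Perm.sign (π l)) with h5 | h5
        · rw [h5]
          simp
        · rw [h5]
          simp
      rw [Finset.prod_congr rfl (fun l _ => h4 l), Finset.prod_const_one, mul_one]
    rw [Finset.sum_congr rfl (fun π _ => h3 π), Finset.sum_const, Finset.card_univ, Pi.smul_apply,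
      nsmul_eq_mul, smul_eq_mul]
  have h3 : (Fintype.card (∀ l : L, Equiv.Perm {x // lab x = st (ty l)}) : K) ≠ 0 :=
    Nat.cast_ne_zero.2 Fintype.card_ne_zero
  have h4 : (fun v => Φ v) = (Fintype.card (∀ l : L, Equiv.Perm
      {x // lab x = st (ty l)}) : K)⁻¹ • 𝒜 Φ' := by
    rw [h2, smul_smul, inv_mul_cancel₀ h3, one_smul]
  rw [h4]
  exact Submodule.smul_mem _ _ h1

end

end Pool.Agent.W522.S
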