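import Mathlib
import Pool.Agent.W522.S.S8

/-!
# Rank one elements from one group element
-/

set_option linter.unusedSectionVars false

namespace Pool.Agent.W522.S

open Module Pool.Agent.H204R3.SP Pool.Agent.H204R3.GP
open Pool.Agent.W522.U (piRep piRep_apply piRep_single blk blk_apply blk_single par par_apply
  par_inj par_bij finrank_st r_inv r_inv' Irr gen_eig gen_pow gen_single exists_pow_mem om_skew cnt
  exists_fb finrank_lab e_single e_zero exists_graded)
open Pool.Agent.W522.T (IsLog lc lc_zero lc_one gen_pow_apply exists_gen_basis gen_ne_zero)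

noncomputable section

section one

variable {K : Type*} [Field K] [CharZero K] {V : Type*} [AddCommGroup V] [Module K V]

/-- A combination of powers of a nilpotent operator with nonzero linear term. -/
theorem sum_pow_ne {N : Module.End K V} {v : V} {L : ℕ} (hL : (N ^ L) v = 0) (hv : N v ≠ 0)
    {m : ℕ} (c : Fin (m + 2) → K) (h0 : c 0 = 0) (h1 : c 1 ≠ 0) :
    ∑ l, c l • (N ^ l.1) v ≠ 0 := by
  classical
  have hex : ∃ p, (N ^ p) v = 0 := ⟨L, hL⟩
  have hp := Nat.find_spec hex
  have hmin := fun q => Nat.find_min (m := q) hex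
  set p := Nat.find hex with hpdef
  have hp0 : p ≠ 0 := by
    intro h
    rw [h, pow_zero] at hp
    apply hv
    have : v = 0 := hp
    rw [this, map_zero]
  have hp1 : p ≠ 1 := by
    intro h
    rw [h, pow_one] at hp
    exact hv hp
  obtain ⟨q, hq⟩ : ∃ q, p = q + 2 := ⟨p - 2, by omega⟩
  intro h
  have h2 := congrArg (N ^ q) h
  rw [map_zero, _root_.map_sum, Finset.sum_eq_single 1] at h2
  · rw [map_smul] at h2
    have h3 := (smul_eq_zero.1 h2).resolve_left h1
    rw [← Module.End.mul_apply, ← pow_add] at h3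
    refine hmin (q + 1) (by omega) ?_
    exact h3
  · intro l _ hl
    by_cases hl0 : l = 0
    · rw [hl0, h0, zero_smul, map_zero]
    · have h3 : 2 ≤ l.1 := by
        have h4 : l.1 ≠ 0 := fun h => hl0 (Fin.ext h)
        have h5 : l.1 ≠ 1 := fun h => hl (Fin.ext h)
        omega
      rw [map_smul, ← Module.End.mul_apply, ← pow_add]
      obtain ⟨d, hd⟩ := Nat.exists_eq_add_of_le h3
      rw [show q + l.1 = d + p by omega, pow_add, Module.End.mul_apply, hp, map_zero, smul_zero]
  · intro h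
    exact absurd (Finset.mem_univ _) h

/-- The powers of an operator on a generalised eigenvector which is not an eigenvector. -/
theorem pow_ne {T : Module.End K V} {x : K} (hx : x ≠ 0) {L : ℕ} {v : V}
    (hv : ((T - x • (1 : Module.End K V)) ^ L) v = 0) (hne : T v ≠ x • v) {M : ℕ} (hM : M ≠ 0) :
    (T ^ M) v ≠ (x ^ M) • v := by
  intro h
  have hv' : ((T - x • (1 : Module.End K V)) ^ (L + 1)) v = 0 := by
    rw [add_comm, pow_add, Module.End.mul_apply, hv, map_zero]
  have h1 := gen_pow_apply T hx hv' M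
  rw [h, smul_smul, ← mul_pow, inv_mul_cancel₀ hx, one_pow, one_smul] at h1
  set N := x⁻¹ • (T - x • (1 : Module.End K V)) with hN
  have hNv : N v ≠ 0 := by
    intro h2
    apply hne
    rw [hN, LinearMap.smul_apply, LinearMap.sub_apply, LinearMap.smul_apply,
      Module.End.one_apply] at h2
    exact sub_eq_zero.1 ((smul_eq_zero.1 h2).resolve_left (inv_ne_zero hx))
  have hNL : (N ^ L) v = 0 := by
    rw [hN, smul_pow, LinearMap.smul_apply, hv, smul_zero]
  refine sum_pow_ne hNL hNv (m := L) (fun l => if l = 0 then 0 else (M.choose l.1 : K)) rfl ?_ ?_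
  · rw [if_neg (by simp)]
    simp [hM]
  · have h2 : ∑ l : Fin (L + 2), (M.choose l.1 : K) • (N ^ l.1) v = v := h1.symm
    rw [Fin.sum_univ_succ] at h2 ⊢
    rw [if_pos rfl, zero_smul, zero_add]
    rw [Fin.val_zero, pow_zero, Nat.choose_zero_right, Nat.cast_one, one_smul,
      Module.End.one_apply] at h2
    have h3 : ∑ i : Fin (L + 1), (M.choose (Fin.succ i).1 : K) • (N ^ (Fin.succ i).1) v = 0 := by
      have h4 : v + ∑ i : Fin (L + 1), (M.choose (Fin.succ i).1 : K) • (N ^ (Fin.succ i).1) v =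
          v + 0 := by rw [h2, add_zero]
      exact add_left_cancel h4
    rw [← h3]
    refine Finset.sum_congr rfl fun i _ => ?_
    rw [if_neg (Fin.succ_ne_zero i)]

/-- An adapted basis if the eigenvectors span a hyperplane. -/
theorem exists_adapted [IsAlgClosed K] [FiniteDimensional K V] (T : Module.End K V)
    (h : finrank K (⨆ μ, Module.End.eigenspace T μ : Submodule K V) + 1 = finrank K V) :
    ∃ (n : ℕ) (b : Basis (Fin n) K V) (x : Fin n → K) (k₀ : Fin n),
      (∀ k, b k ∈ Module.End.maxGenEigenspace T (x k)) ∧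
      (∀ k, k ≠ k₀ → T (b k) = x k • b k) ∧ T (b k₀) ≠ x k₀ • b k₀ := by
  classical
  set H : Submodule K V := ⨆ μ, Module.End.eigenspace T μ with hH
  let S : Set V := {v | ∃ μ, v ∈ Module.End.eigenspace T μ}
  have hS : Submodule.span K S = H := by
    apply le_antisymm
    · rw [Submodule.span_le]
      rintro v ⟨μ, hv⟩
      exact Submodule.mem_iSup_of_mem μ hv
    · exact iSup_le fun μ v hv => Submodule.subset_span ⟨μ, hv⟩
  obtain ⟨s, hsS, hspan, hli⟩ := exists_linearIndependent K S
  -- a generalised eigenvector outside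
  obtain ⟨y, μ, hy, hyH⟩ : ∃ y μ, y ∈ Module.End.maxGenEigenspace T μ ∧ y ∉ H := by
    by_contra hcon
    push Not at hcon
    have h1 : (⊤ : Submodule K V) ≤ H := by
      rw [← Module.End.iSup_maxGenEigenspace_eq_top T]
      exact iSup_le fun μ v hv => hcon v μ hv
    have h2 : H = ⊤ := top_le_iff.1 h1
    rw [h2, finrank_top] at h
    omega
  have hys : y ∉ Submodule.span K s := by rw [hspan, hS]; exact hyH
  have hyns : y ∉ s := fun hy => hys (Submodule.subset_span hy)
  have hli' : LinearIndependent K (fun a : (insert y s : Set V) => (a : V)) :=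
    LinearIndepOn.id_insert (s := s) hli hys
  have hfin : Finite (insert y s : Set V) := hli'.finite
  have hsfin : s.Finite := (Set.toFinite (insert y s)).subset (Set.subset_insert _ _)
  have _ : Fintype s := hsfin.fintype
  have _ : Fintype (insert y s : Set V) := Fintype.ofFinite _
  have hcard : Fintype.card (insert y s : Set V) = finrank K V := by
    have h1 : finrank K H = Fintype.card s := by
      rw [← hS, ← hspan]
      have h2 := finrank_span_eq_card hli
      rwa [Subtype.range_coe] at h2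
    have h2 : Fintype.card (insert y s : Set V) = Fintype.card s + 1 := by
      rw [← Set.toFinset_card, ← Set.toFinset_card, Set.toFinset_insert,
        Finset.card_insert_of_notMem (by rwa [Set.mem_toFinset])]
    rw [h2, ← h1, h]
  let e := Fintype.equivFin (insert y s : Set V)
  let b := (basisOfLinearIndependentOfCardEqFinrank hli' hcard).reindex e
  have hb : ∀ k, b k = (e.symm k : V) := by
    intro k
    rw [Basis.reindex_apply, coe_basisOfLinearIndependentOfCardEqFinrank]
  have hs : ∀ a ∈ s, ∃ μ : K, T a = μ • a := by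
    intro a ha
    obtain ⟨μ, hμ⟩ := hsS ha
    exact ⟨μ, Module.End.mem_eigenspace_iff.1 hμ⟩
  choose! ν hν using hs
  let k₀ : Fin _ := e ⟨y, Set.mem_insert _ _⟩
  have hk₀ : b k₀ = y := by
    rw [hb, Equiv.symm_apply_apply]
  have hk : ∀ k, k ≠ k₀ → b k ∈ s := by
    intro k hk
    rw [hb]
    rcases (e.symm k).2 with h1 | h1
    · exact absurd (by
        rw [← e.apply_symm_apply k]
        congr 1
        exact Subtype.ext h1) hk
    · exact h1
  refine ⟨_, b, fun k => if k = k₀ then μ else ν (b k), k₀, fun k => ?_, fun k hkk => ?_, ?_⟩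
  · dsimp only
    by_cases h1 : k = k₀
    · rw [if_pos h1, h1, hk₀]
      exact hy
    · rw [if_neg h1]
      exact Module.End.mem_maxGenEigenspace T _ _ |>.2 ⟨1, by
        rw [pow_one, LinearMap.sub_apply, LinearMap.smul_apply, Module.End.one_apply,
          hν _ (hk k h1), sub_self]⟩
  · dsimp only
    rw [if_neg hkk]
    exact hν _ (hk k hkk)
  · dsimp only
    rw [if_pos rfl, hk₀]
    intro h1
    exact hyH (Submodule.mem_iSup_of_mem μ (Module.End.mem_eigenspace_iff.2 h1))

end one

variable {K : Type*} [Field K] [CharZero K] [IsAlgClosed K]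
  {I : Type*} [Fintype I] [DecidableEq I] {E : I → Type*} [∀ i, AddCommGroup (E i)]
  [∀ i, Module K (E i)] [∀ i, FiniteDimensional K (E i)] {G : Type*} [Group G]
  {r : ∀ i, Representation K G (E i)}

/-- Toral elements with a given basis in one component. -/
theorem toral_at {i : I} (g : G) {n : ℕ} (b : Basis (Fin n) K (E i)) (x : Fin n → K)
    (hb : ∀ k, b k ∈ Module.End.maxGenEigenspace (r i g) (x k)) {f : K → K} (hf : IsLog f) :
    ∃ Y ∈ f1 r, ∀ k, Y i (b k) = f (x k) • b k := by
  have hbas : ∀ j, ∃ (n' : ℕ) (b' : Basis (Fin n') K (E j)) (y : Fin n' → K),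
      (∀ k, b' k ∈ Module.End.maxGenEigenspace (r j g) (y k)) ∧
      (∀ h : i = j, ∀ k, b'.constr K (fun k => f (y k) • b' k) (h ▸ b k) = f (x k) • (h ▸ b k)) := by
    intro j
    by_cases hj : i = j
    · subst hj
      refine ⟨n, b, x, hb, fun _ k => ?_⟩
      dsimp only
      rw [Basis.constr_basis]
    · obtain ⟨n', b', y, h1, -, -⟩ := exists_gen_basis (r j g)
      exact ⟨n', b', y, h1, fun h => absurd h hj⟩
  choose n' b' y h1 h2 using hbas
  exact ⟨_, toral r g b' y h1 hf, fun k => h2 i rfl k⟩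

/-- Reflections. -/
theorem nil_refl_fam {i : I} (hirr : Irr (r i)) (h2 : 2 ≤ finrank K (E i)) (g : G) {n : ℕ}
    (b : Basis (Fin n) K (E i)) (x : Fin n → K)
    (hb : ∀ k, b k ∈ Module.End.maxGenEigenspace (r i g) (x k)) {f : K → K} (hf : IsLog f)
    {k₀ : Fin n} {c : K} (hk : ∀ k, k ≠ k₀ → f (x k) = c) (hk₀ : f (x k₀) ≠ c) :
    ∃ Z ∈ f0 r, ∃ (u : E i) (φ : Dual K (E i)), u ≠ 0 ∧ φ ≠ 0 ∧ φ u = 0 ∧
      Z i = φ.smulRight u := by
  obtain ⟨Y, hY, hYb⟩ := toral_at g b x hb hf
  refine nil_of_refl hirr h2 hY (c₀ := c) (c₁ := f (x k₀) - c) (sub_ne_zero.2 hk₀) (v := b k₀)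
    (ξ := b.coord k₀) (by simp) ?_
  have h3 : Y i = c • LinearMap.id + (f (x k₀) - c) • (b.coord k₀).smulRight (b k₀) := by
    refine b.ext fun k => ?_
    rw [hYb, LinearMap.add_apply, LinearMap.smul_apply, LinearMap.smul_apply, LinearMap.id_apply,
      LinearMap.smulRight_apply, Basis.coord_apply, Basis.repr_self]
    by_cases hkk : k = k₀
    · subst hkk
      rw [Finsupp.single_eq_same, one_smul, ← add_smul]
      congr 1
      ring
    · rw [Finsupp.single_eq_of_ne (Ne.symm hkk), zero_smul, smul_zero, add_zero, hk k hkk]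
  intro w
  rw [h3]
  simp only [LinearMap.add_apply, LinearMap.smul_apply, LinearMap.id_apply,
    LinearMap.smulRight_apply, smul_smul]

/-- Symplectic reflections. -/
theorem nil_sprefl_fam {i : I} (hirr : Irr (r i)) (h2 : 2 ≤ finrank K (E i)) (g : G) {n : ℕ}
    (B : E i →ₗ[K] Dual K (E i)) (hB : Function.Injective B) (halt : ∀ u, B u u = 0)
    (χ : G → K) (hχ : ∀ g, χ g ≠ 0)
    (hsim : ∀ g u v, B (r i g u) (r i g v) = χ g * B u v)
    (b : Basis (Fin n) K (E i)) (x : Fin n → K)
    (hb : ∀ k, b k ∈ Module.End.maxGenEigenspace (r i g) (x k)) {f : K → K} (hf : IsLog f)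
    {k₁ k₂ : Fin n} (hkk : k₁ ≠ k₂) {c δ : K} (hδ : δ ≠ 0) (h₁ : f (x k₁) = c + δ)
    (h₂ : f (x k₂) = c - δ) (hk : ∀ k, k ≠ k₁ → k ≠ k₂ → f (x k) = c) :
    ∃ Z ∈ f0 r, ∃ (u : E i) (φ : Dual K (E i)), u ≠ 0 ∧ φ ≠ 0 ∧ φ u = 0 ∧
      Z i = φ.smulRight u := by
  obtain ⟨Y, hY, hYb⟩ := toral_at g b x hb hf
  have h3 : Y i = c • LinearMap.id + δ • (b.coord k₁).smulRight (b k₁) -
      δ • (b.coord k₂).smulRight (b k₂) := by
    refine b.ext fun k => ?_
    rw [hYb, LinearMap.sub_apply, LinearMap.add_apply, LinearMap.smul_apply,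
      LinearMap.smul_apply, LinearMap.smul_apply, LinearMap.id_apply,
      LinearMap.smulRight_apply, LinearMap.smulRight_apply, Basis.coord_apply, Basis.coord_apply,
      Basis.repr_self]
    by_cases h4 : k = k₁
    · subst h4
      rw [Finsupp.single_eq_same, one_smul, Finsupp.single_eq_of_ne (Ne.symm hkk), zero_smul,
        smul_zero, sub_zero, h₁, ← add_smul]
    · rw [Finsupp.single_eq_of_ne (Ne.symm h4), zero_smul, smul_zero, add_zero]
      by_cases h5 : k = k₂
      · subst h5
        rw [Finsupp.single_eq_same, one_smul, h₂, ← sub_smul]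
      · rw [Finsupp.single_eq_of_ne (Ne.symm h5), zero_smul, smul_zero, sub_zero, hk k h4 h5]
  refine nil_of_sprefl hirr h2 B hB halt χ hχ hsim ?_ hY (c₀ := c) (δ := δ) hδ b hkk ?_
  · intro Z hZ
    have h4 : Semi2 (piRep r) (B.compl₁₂ (LinearMap.proj i) (LinearMap.proj i)) := by
      refine ⟨⊤, inferInstance, χ, fun g _ u v => ?_⟩
      exact hsim g (u i) (v i)
    obtain ⟨c, hc⟩ := lie1_two h4 ((mem_f1 r Z).1 hZ)
    refine ⟨c, fun u v => ?_⟩
    have h5 := hc (Pi.single i u) (Pi.single i v)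
    rw [blk_single, blk_single] at h5
    simpa using h5
  · intro w
    rw [h3]
    simp only [LinearMap.add_apply, LinearMap.sub_apply, LinearMap.smul_apply, LinearMap.id_apply,
      LinearMap.smulRight_apply, smul_smul]

/-- Unipotent elements. -/
theorem nil_unip_fam {i : I} (g : G) {n : ℕ}
    (b : Basis (Fin n) K (E i)) (x : Fin n → K)
    (hb : ∀ k, b k ∈ Module.End.maxGenEigenspace (r i g) (x k)) {k₀ : Fin n}
    (hk : ∀ k, k ≠ k₀ → r i g (b k) = x k • b k) (hk₀ : r i g (b k₀) ≠ x k₀ • b k₀) :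
    ∃ Z ∈ f0 r, ∃ (u : E i) (φ : Dual K (E i)), u ≠ 0 ∧ φ ≠ 0 ∧ φ u = 0 ∧
      Z i = φ.smulRight u := by
  have hbas : ∀ j, ∃ (n' : ℕ) (b' : Basis (Fin n') K (E j)) (y : Fin n' → K),
      (∀ k, b' k ∈ Module.End.maxGenEigenspace (r j g) (y k)) ∧
      (∀ h : i = j, ∀ k L, b'.constr K (fun k => ∑ l : Fin (L + 2), lc K l.1 •
      (((y k)⁻¹ • (r j g - y k • (1 : Module.End K (E j)))) ^ l.1) (b' k)) (h ▸ b k) =
        h ▸ (∑ l : Fin (L + 2), lc K l.1 •
      (((x k)⁻¹ • (r i g - x k • (1 : Module.End K (E i)))) ^ l.1) (b k))) := by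
    intro j
    by_cases hj : i = j
    · subst hj
      refine ⟨n, b, x, hb, fun _ k L => ?_⟩
      dsimp only
      rw [Basis.constr_basis]
    · obtain ⟨n', b', y, h1, -, -⟩ := exists_gen_basis (r j g)
      exact ⟨n', b', y, h1, fun h => absurd h hj⟩
  choose n' b' y h1 h2 using hbas
  obtain ⟨L, hL⟩ := unipotent r g b' y h1
  set Z : ∀ j, Module.End K (E j) := fun j => (b' j).constr K (fun k => ∑ l : Fin (L + 2),
    lc K l.1 • (((y j k)⁻¹ • (r j g - y j k • (1 : Module.End K (E j)))) ^ l.1) (b' j k)) with hZ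
  have hZi : ∀ k, Z i (b k) = ∑ l : Fin (L + 2), lc K l.1 •
      (((x k)⁻¹ • (r i g - x k • (1 : Module.End K (E i)))) ^ l.1) (b k) := fun k => h2 i rfl k L
  have hZk : ∀ k, k ≠ k₀ → Z i (b k) = 0 := by
    intro k hkk
    rw [hZi]
    refine Finset.sum_eq_zero fun l _ => ?_
    by_cases hl : l.1 = 0
    · rw [hl, lc_zero, zero_smul]
    · obtain ⟨q, hq⟩ := Nat.exists_eq_succ_of_ne_zero hl
      rw [hq, pow_succ, Module.End.mul_apply, LinearMap.smul_apply, LinearMap.sub_apply, hk k hkk,
        LinearMap.smul_apply, Module.End.one_apply, sub_self, smul_zero, map_zero, smul_zero]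
  have h3 : Z i = (b.coord k₀).smulRight (Z i (b k₀)) := by
    refine b.ext fun k => ?_
    rw [LinearMap.smulRight_apply, Basis.coord_apply, Basis.repr_self]
    by_cases hkk : k = k₀
    · subst hkk
      rw [Finsupp.single_eq_same, one_smul]
    · rw [Finsupp.single_eq_of_ne (Ne.symm hkk), zero_smul, hZk k hkk]
  have hx0 : x k₀ ≠ 0 := gen_ne_zero (r_inv (r := r i) g) (b.ne_zero k₀) (hb k₀)
  refine ⟨Z, hL, Z i (b k₀), b.coord k₀, ?_, ?_, ?_, h3⟩
  · rw [hZi]
    obtain ⟨p, hp⟩ := Module.End.mem_maxGenEigenspace (r i g) (x k₀) (b k₀) |>.1 (hb k₀)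
    refine sum_pow_ne (L := p) ?_ ?_ (fun l : Fin (L + 2) => lc K l.1) lc_zero ?_
    · rw [smul_pow, LinearMap.smul_apply, hp, smul_zero]
    · intro h4
      apply hk₀
      rw [LinearMap.smul_apply, LinearMap.sub_apply, LinearMap.smul_apply,
        Module.End.one_apply] at h4
      exact sub_eq_zero.1 ((smul_eq_zero.1 h4).resolve_left (inv_ne_zero hx0))
    · change lc K 1 ≠ 0
      rw [lc_one]
      exact one_ne_zero
  · intro h4
    have h5 := congrArg (fun f : Dual K (E i) => f (b k₀)) h4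
    simp at h5
  · have h4 := f0_tr r hL i
    rw [h3, LinearMap.trace_smulRight] at h4
    exact h4

end

end Pool.Agent.W522.S
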