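import Mathlib
import Pool.Agent.W522.S.S9

/-!
# Twisted homomorphisms and contragredient representations
-/

set_option linter.unusedSectionVars false

namespace Pool.Agent.W522.S

open Module
open Pool.Agent.W522.U (Rinv Rinv' Irr)

noncomputable section

section schur

variable {K : Type*} [Field K] {G : Type*} [Group G] {V V' : Type*} [AddCommGroup V] [Module K V]
  [AddCommGroup V'] [Module K V'] {r : Representation K G V} {r' : Representation K G V'}

/-- No twisted homomorphisms. -/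
def NoT (r : Representation K G V) (r' : Representation K G V') : Prop :=
  ∀ (T : V →ₗ[K] V') (ψ : G → K), (∀ g u, T (r g u) = ψ g • r' g (T u)) → T = 0

/-- No twisted pairings. -/
def NoB (r : Representation K G V) (r' : Representation K G V') : Prop :=
  ∀ (β : V →ₗ[K] V' →ₗ[K] K) (ψ : G → K), (∀ g u v, β (r g u) (r' g v) = ψ g * β u v) → β = 0

theorem twm_inj (hr : Irr r) {T : V →ₗ[K] V'} {ψ : G → K} (hT0 : T ≠ 0)
    (hT : ∀ g u, T (r g u) = ψ g • r' g (T u)) : Function.Injective T := by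
  rcases hr ⊤ inferInstance (LinearMap.ker T) (fun g _ u hu => by
    rw [LinearMap.mem_ker] at hu ⊢
    rw [hT, hu, map_zero, smul_zero]) with h | h
  · exact LinearMap.ker_eq_bot.1 h
  · exact absurd (LinearMap.ker_eq_top.1 h) hT0

theorem twm_ne {T : V →ₗ[K] V'} {ψ : G → K} (hT0 : T ≠ 0)
    (hT : ∀ g u, T (r g u) = ψ g • r' g (T u)) (g : G) : ψ g ≠ 0 := by
  intro h
  apply hT0
  ext u
  have h1 := hT g (r g⁻¹ u)
  rw [Rinv', h, zero_smul] at h1
  exact h1

theorem twm_surj (hr' : Irr r') {T : V →ₗ[K] V'} {ψ : G → K} (hT0 : T ≠ 0)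
    (hT : ∀ g u, T (r g u) = ψ g • r' g (T u)) : Function.Surjective T := by
  rcases hr' ⊤ inferInstance (LinearMap.range T) (fun g _ u hu => by
    obtain ⟨v, rfl⟩ := hu
    refine ⟨(ψ g)⁻¹ • r g v, ?_⟩
    rw [map_smul, hT, smul_smul, inv_mul_cancel₀ (twm_ne hT0 hT g), one_smul]) with h | h
  · exact absurd (LinearMap.range_eq_bot.1 h) hT0
  · exact LinearMap.range_eq_top.1 h

/-- A twisted homomorphism of irreducible representations is invertible. -/
theorem twm_inv (hr : Irr r) (hr' : Irr r') {T : V →ₗ[K] V'} {ψ : G → K} (hT0 : T ≠ 0)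
    (hT : ∀ g u, T (r g u) = ψ g • r' g (T u)) : ∃ e : V ≃ₗ[K] V', (∀ u, e u = T u) ∧
      ∀ g v, e.symm (r' g v) = (ψ g)⁻¹ • r g (e.symm v) := by
  let e := LinearEquiv.ofBijective T ⟨twm_inj hr hT0 hT, twm_surj hr' hT0 hT⟩
  have he : ∀ u, e u = T u := fun _ => rfl
  refine ⟨e, he, fun g v => ?_⟩
  rw [LinearEquiv.symm_apply_eq, map_smul, he, hT, smul_smul, inv_mul_cancel₀ (twm_ne hT0 hT g),
    one_smul, ← he, e.apply_symm_apply]

theorem NoT.symm (hr : Irr r) (hr' : Irr r') (h : NoT r r') : NoT r' r := by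
  intro T ψ hT
  by_contra hT0
  obtain ⟨e, -, h2⟩ := twm_inv hr' hr hT0 hT
  have h3 := h e.symm.toLinearMap _ h2
  apply hT0
  ext v
  have h4 := congrArg (fun f : V →ₗ[K] V' => f (e v)) h3
  have h5 : v = 0 := by
    rw [← e.symm_apply_apply v]
    exact h4
  rw [h5, map_zero, map_zero]

theorem NoB.symm (h : NoB r r') : NoB r' r := by
  intro β ψ hβ
  have h1 := h β.flip ψ (fun g u v => hβ g v u)
  ext u v
  exact congrArg (fun f : V →ₗ[K] V' →ₗ[K] K => f v u) h1

end schur

section cg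

variable {K : Type*} [Field K] {G : Type*} [Group G] {n n' : ℕ}

/-- The contragredient representation. -/
def cg (ρ : Representation K G (Fin n → K)) : Representation K G (Fin n → K) where
  toFun g := Matrix.toLin' (LinearMap.toMatrix' (ρ g⁻¹)).transpose
  map_one' := by
    rw [inv_one, map_one, LinearMap.toMatrix'_one, Matrix.transpose_one, Matrix.toLin'_one]
    rfl
  map_mul' g h := by
    rw [mul_inv_rev, map_mul, LinearMap.toMatrix'_mul, Matrix.transpose_mul, Matrix.toLin'_mul]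
    rfl

theorem cg_apply (ρ : Representation K G (Fin n → K)) (g : G) (v : Fin n → K) :
    cg ρ g v = Matrix.mulVec (LinearMap.toMatrix' (ρ g⁻¹)).transpose v := rfl

theorem dot_transpose (T : (Fin n → K) →ₗ[K] (Fin n' → K)) (u : Fin n → K) (v : Fin n' → K) :
    u ⬝ᵥ (LinearMap.toMatrix' T).transpose.mulVec v = T u ⬝ᵥ v := by
  rw [Matrix.dotProduct_mulVec, Matrix.vecMul_transpose, LinearMap.toMatrix'_mulVec]

theorem cg_dot (ρ : Representation K G (Fin n → K)) (g : G) (u v : Fin n → K) :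
    ρ g u ⬝ᵥ cg ρ g v = u ⬝ᵥ v := by
  rw [cg_apply, dot_transpose, Rinv]

theorem dot_ext {u : Fin n → K} (h : ∀ v, u ⬝ᵥ v = 0) : u = 0 := by
  funext i
  have h1 := h (Pi.single i 1)
  rwa [dotProduct_single, mul_one] at h1

theorem dot_ext' {u : Fin n → K} (h : ∀ v, v ⬝ᵥ u = 0) : u = 0 :=
  dot_ext fun v => by rw [dotProduct_comm]; exact h v

theorem cg_cg (ρ : Representation K G (Fin n → K)) : cg (cg ρ) = ρ := by
  ext1 g
  refine LinearMap.ext fun v => ?_
  rw [← sub_eq_zero]
  refine dot_ext fun w => ?_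
  have h1 := cg_dot (cg ρ) g (cg ρ g⁻¹ w) v
  rw [Rinv'] at h1
  have h2 := cg_dot ρ g v (cg ρ g⁻¹ w)
  rw [Rinv'] at h2
  rw [sub_dotProduct, dotProduct_comm, h1, h2, dotProduct_comm, sub_self]

theorem irr_cg {ρ : Representation K G (Fin n → K)} (hρ : Irr ρ) : Irr (cg ρ) := by
  intro Δ hΔ W hW
  let W' : Submodule K (Fin n → K) :=
    { carrier := {u | ∀ w ∈ W, u ⬝ᵥ w = 0}
      add_mem' := fun ha hb w hw => by rw [add_dotProduct, ha w hw, hb w hw, add_zero]
      zero_mem' := fun w _ => zero_dotProduct w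
      smul_mem' := fun c a ha w hw => by rw [smul_dotProduct, ha w hw, smul_zero] }
  rcases hρ Δ hΔ W' (fun g hg u hu w hw => by
    have h1 := cg_dot ρ g u (cg ρ g⁻¹ w)
    rw [Rinv'] at h1
    rw [h1]
    exact hu _ (hW _ (Δ.inv_mem hg) w hw)) with h | h
  · right
    by_contra hne
    obtain ⟨φ, hφ, hφW⟩ := Submodule.exists_le_ker_of_lt_top W (lt_top_iff_ne_top.2 hne)
    have h1 : ∀ w, (fun i => φ (Pi.single i 1)) ⬝ᵥ w = φ w := by
      intro w
      conv_rhs => rw [← Finset.univ_sum_single w]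
      rw [map_sum, dotProduct]
      refine Finset.sum_congr rfl fun i _ => ?_
      have h2 : (Pi.single i (w i) : Fin n → K) = w i • Pi.single i 1 := by
        rw [← Pi.single_smul, smul_eq_mul, mul_one]
      rw [h2, map_smul, smul_eq_mul, mul_comm]
    have h2 : (fun i => φ (Pi.single i 1)) ∈ W' := by
      intro w hw
      rw [h1]
      exact hφW hw
    rw [h, Submodule.mem_bot] at h2
    apply hφ
    refine LinearMap.ext fun w => ?_
    rw [← h1, h2, zero_dotProduct]
    rfl
  · left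
    rw [eq_bot_iff]
    intro w hw
    rw [Submodule.mem_bot]
    refine dot_ext' fun u => ?_
    have h1 : u ∈ W' := by
      rw [h]
      trivial
    exact h1 w hw

/-- Transposition. -/
theorem NoT.dual {ρ : Representation K G (Fin n → K)} {ρ' : Representation K G (Fin n' → K)}
    (h : NoT ρ ρ') : NoT (cg ρ') (cg ρ) := by
  intro T ψ hT
  let S : (Fin n → K) →ₗ[K] (Fin n' → K) := Matrix.toLin' (LinearMap.toMatrix' T).transpose
  have hS : ∀ a u, a ⬝ᵥ S u = T a ⬝ᵥ u := fun a u => dot_transpose T a u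
  have h1 : ∀ g u, S (ρ g u) = ψ g • ρ' g (S u) := by
    intro g u
    rw [← sub_eq_zero]
    refine dot_ext' fun a => ?_
    have h2 : a ⬝ᵥ S (ρ g u) = ψ g * (T (cg ρ' g⁻¹ a) ⬝ᵥ u) := by
      rw [hS]
      have h3 := hT g (cg ρ' g⁻¹ a)
      rw [Rinv'] at h3
      rw [h3, smul_dotProduct, smul_eq_mul, dotProduct_comm, cg_dot, dotProduct_comm]
    have h4 : a ⬝ᵥ ρ' g (S u) = T (cg ρ' g⁻¹ a) ⬝ᵥ u := by
      rw [← hS]
      have h3 := cg_dot ρ' g (S u) (cg ρ' g⁻¹ a)
      rw [Rinv'] at h3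
      rw [dotProduct_comm, h3, dotProduct_comm]
    rw [dotProduct_sub, dotProduct_smul, h2, h4, smul_eq_mul, sub_self]
  have h2 := h S ψ h1
  refine LinearMap.ext fun a => ?_
  refine dot_ext fun u => ?_
  rw [← hS, h2, LinearMap.zero_apply, dotProduct_zero]

/-- Pairings are twisted homomorphisms to the contragredient representation. -/
theorem NoB.noT {ρ : Representation K G (Fin n → K)} {ρ' : Representation K G (Fin n' → K)}
    (h : NoB ρ ρ') : NoT ρ (cg ρ') := by
  intro T ψ hT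
  let β : (Fin n → K) →ₗ[K] (Fin n' → K) →ₗ[K] K :=
    LinearMap.mk₂ K (fun u v => T u ⬝ᵥ v)
      (fun u u' v => by rw [map_add, add_dotProduct])
      (fun c u v => by rw [map_smul, smul_dotProduct])
      (fun u v v' => by rw [dotProduct_add])
      (fun c u v => by rw [dotProduct_smul])
  have h1 := h β ψ (fun g u v => by
    change T (ρ g u) ⬝ᵥ ρ' g v = ψ g * (T u ⬝ᵥ v)
    rw [hT, smul_dotProduct, smul_eq_mul, dotProduct_comm, cg_dot, dotProduct_comm])
  refine LinearMap.ext fun u => ?_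
  refine dot_ext fun v => ?_
  exact congrArg (fun f : (Fin n → K) →ₗ[K] (Fin n' → K) →ₗ[K] K => f u v) h1

end cg

end

end Pool.Agent.W522.S
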