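import Mathlib
import Pool.Agent.W522.S.S10

/-!
# The family of the classes
-/

set_option linter.unusedSectionVars false

namespace Pool.Agent.W522.S

open Module
open Pool.Agent.W522.U (piRep piRep_apply piRep_single blk blk_apply blk_single Rinv Rinv' Irr)

noncomputable section

section
variable {P Q : Type*}

/-- The class of a component. -/
def bs : P ⊕ (Q × Bool) → P ⊕ Q
  | .inl p => .inl p
  | .inr x => .inr x.1

/-- The dual component. -/
def sti : P ⊕ (Q × Bool) → P ⊕ (Q × Bool)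
  | .inl p => .inl p
  | .inr x => .inr (x.1, !x.2)

/-- The component of a class. -/
def up : P ⊕ Q → P ⊕ (Q × Bool)
  | .inl p => .inl p
  | .inr q => .inr (q, true)

theorem sti_sti (i : P ⊕ (Q × Bool)) : sti (sti i) = i := by
  rcases i with p | ⟨q, _ | _⟩ <;> rfl

end

section dot

/-- The dot product. -/
def dotL (K : Type*) [Field K] (n : ℕ) : (Fin n → K) →ₗ[K] (Fin n → K) →ₗ[K] K :=
  LinearMap.mk₂ K (fun u v => u ⬝ᵥ v) (fun u u' v => add_dotProduct u u' v)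
    (fun c u v => smul_dotProduct c u v) (fun u v v' => dotProduct_add u v v')
    (fun c u v => dotProduct_smul c u v)

theorem dotL_apply {K : Type*} [Field K] (n : ℕ) (u v : Fin n → K) : dotL K n u v = u ⬝ᵥ v := rfl


variable {K : Type*} [Field K] {G : Type*} [Group G] {n : ℕ}

theorem dot_cancel (a b : Fin n → K) : a ⬝ᵥ b + -(b ⬝ᵥ a) = 0 := by
  rw [dotProduct_comm, add_neg_cancel]

theorem cg_sim1 (ρ : Representation K G (Fin n → K)) (g : G) (u v : Fin n → K) :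
    ρ g u ⬝ᵥ cg ρ g v = 1 * (u ⬝ᵥ v) := by
  rw [one_mul, cg_dot]

theorem cg_sim2 (ρ : Representation K G (Fin n → K)) (g : G) (u v : Fin n → K) :
    -(cg ρ g u ⬝ᵥ ρ g v) = 1 * -(u ⬝ᵥ v) := by
  rw [one_mul, dotProduct_comm, cg_dot, dotProduct_comm]

theorem dot_dual (φ : Dual K (Fin n → K)) (a : Fin n → K) :
    (fun i => φ (Pi.single i 1)) ⬝ᵥ a = φ a := by
  conv_rhs => rw [← Finset.univ_sum_single a]
  rw [_root_.map_sum, dotProduct]
  refine Finset.sum_congr rfl fun i _ => ?_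
  have h2 : (Pi.single i (a i) : Fin n → K) = a i • Pi.single i 1 := by
    rw [← Pi.single_smul, smul_eq_mul, mul_one]
  rw [h2, map_smul, smul_eq_mul, mul_comm]

theorem nil_tr {A B : Module.End K (Fin n → K)} {u : Fin n → K} {φ : Dual K (Fin n → K)}
    (hu : u ≠ 0) (hφ : φ ≠ 0) (hφu : φ u = 0) (hA : A = φ.smulRight u)
    (h : ∀ a v, A a ⬝ᵥ v + a ⬝ᵥ B v = 0) : ∃ (w : Fin n → K) (ψ : Dual K (Fin n → K)),
      w ≠ 0 ∧ ψ ≠ 0 ∧ ψ w = 0 ∧ B = ψ.smulRight w := by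
  have h3 : ∀ v, B v = -(u ⬝ᵥ v) • fun i => φ (Pi.single i 1) := by
    intro v
    rw [← sub_eq_zero]
    refine dot_ext' fun a => ?_
    have h4 := h a v
    rw [hA, LinearMap.smulRight_apply, smul_dotProduct, smul_eq_mul] at h4
    rw [dotProduct_sub, dotProduct_smul, smul_eq_mul, ← dotProduct_comm (fun i => φ (Pi.single i 1)) a, dot_dual]
    linear_combination h4
  refine ⟨fun i => φ (Pi.single i 1), -dotL K n u, ?_, ?_, ?_, ?_⟩
  · intro h4
    apply hφ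
    refine LinearMap.ext fun a => ?_
    rw [← dot_dual, h4, zero_dotProduct]
    rfl
  · intro h4
    apply hu
    refine dot_ext fun v => ?_
    have h5 := congrArg (fun f : Dual K (Fin n → K) => f v) h4
    change -(u ⬝ᵥ v) = 0 at h5
    exact neg_eq_zero.1 h5
  · change -(u ⬝ᵥ _) = 0
    rw [dotProduct_comm, dot_dual, hφu, neg_zero]
  · exact LinearMap.ext h3

end dot

variable {K : Type*} [Field K] [CharZero K] {G : Type*} [Group G] {P Q : Type*} [Fintype P]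
  [Fintype Q] [DecidableEq P] [DecidableEq Q]
  (m : P ⊕ Q → ℕ) (ρ : ∀ c, Representation K G (Fin (m c) → K))

/-- The representations of the family. -/
def rr : ∀ i : P ⊕ (Q × Bool), Representation K G (Fin (m (bs i)) → K)
  | .inl p => ρ (.inl p)
  | .inr (q, true) => ρ (.inr q)
  | .inr (q, false) => cg (ρ (.inr q))

variable (BP : ∀ p : P, (Fin (m (.inl p)) → K) →ₗ[K] (Fin (m (.inl p)) → K) →ₗ[K] K)

/-- The pairings of the components. -/
def eta : ∀ i : P ⊕ (Q × Bool), (Fin (m (bs i)) → K) →ₗ[K] (Fin (m (bs (sti i))) → K) →ₗ[K] K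
  | .inl p => BP p
  | .inr (q, true) => dotL K (m (.inr q))
  | .inr (q, false) => -dotL K (m (.inr q))

/-- The form of the family. -/
def omg : (∀ i : P ⊕ (Q × Bool), (Fin (m (bs i)) → K)) →ₗ[K]
    (∀ i : P ⊕ (Q × Bool), (Fin (m (bs i)) → K)) →ₗ[K] K :=
  ∑ i, (eta m BP i).compl₁₂ (LinearMap.proj i) (LinearMap.proj (sti i))

theorem omg_apply (u v : ∀ i : P ⊕ (Q × Bool), (Fin (m (bs i)) → K)) :
    omg m BP u v = ∑ i, eta m BP i (u i) (v (sti i)) := by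
  unfold omg
  rw [LinearMap.sum_apply, LinearMap.sum_apply]
  rfl

theorem omg_left (i : P ⊕ (Q × Bool)) (x : Fin (m (bs i)) → K)
    (v : ∀ i : P ⊕ (Q × Bool), (Fin (m (bs i)) → K)) :
    omg m BP (Pi.single i x) v = eta m BP i x (v (sti i)) := by
  rw [omg_apply, Finset.sum_eq_single i]
  · rw [Pi.single_eq_same]
  · intro j _ hj
    rw [Pi.single_eq_of_ne hj, map_zero, LinearMap.zero_apply]
  · intro h
    exact absurd (Finset.mem_univ _) h

theorem omg_right (i : P ⊕ (Q × Bool)) (u : ∀ i : P ⊕ (Q × Bool), (Fin (m (bs i)) → K))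
    (y : Fin (m (bs (sti i))) → K) :
    omg m BP u (Pi.single (sti i) y) = eta m BP i (u i) y := by
  rw [omg_apply, Finset.sum_eq_single i]
  · rw [Pi.single_eq_same]
  · intro j _ hj
    have h1 : sti j ≠ sti i := by
      intro h
      apply hj
      rw [← sti_sti j, h, sti_sti]
    rw [Pi.single_eq_of_ne h1, map_zero]
  · intro h
    exact absurd (Finset.mem_univ _) h

theorem omg_alt (hBalt : ∀ p u, BP p u u = 0) (u : ∀ i : P ⊕ (Q × Bool), (Fin (m (bs i)) → K)) :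
    omg m BP u u = 0 := by
  rw [omg_apply, Fintype.sum_sum_type, Finset.sum_eq_zero, zero_add, Fintype.sum_prod_type,
    Finset.sum_eq_zero]
  · intro q _
    rw [Fintype.sum_bool]
    exact dot_cancel _ _
  · intro p _
    exact hBalt p _

theorem omg_nd (hBnd : ∀ p u, (∀ v, BP p u v = 0) → u = 0)
    (u : ∀ i : P ⊕ (Q × Bool), (Fin (m (bs i)) → K)) (hu : ∀ w, omg m BP u w = 0) : u = 0 := by
  funext i
  have h1 : ∀ y, eta m BP i (u i) y = 0 := by
    intro y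
    rw [← omg_right]
    exact hu _
  rcases i with p | ⟨q, _ | _⟩
  · exact hBnd p _ h1
  · exact dot_ext fun v => neg_eq_zero.1 (h1 v)
  · exact dot_ext fun v => h1 v

/-- The multipliers. -/
def mul (χP : P → G → K) : P ⊕ (Q × Bool) → G → K
  | .inl p => χP p
  | .inr _ => fun _ => 1

theorem omg_sim (χP : P → G → K)
    (hBr : ∀ p g u v, BP p (ρ (.inl p) g u) (ρ (.inl p) g v) = χP p g * BP p u v)
    (i : P ⊕ (Q × Bool)) (g : G) (u : Fin (m (bs i)) → K) (v : Fin (m (bs (sti i))) → K) :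
    omg m BP (Pi.single i (rr m ρ i g u)) (Pi.single (sti i) (rr m ρ (sti i) g v)) =
      mul χP i g * omg m BP (Pi.single i u) (Pi.single (sti i) v) := by
  rw [omg_left, omg_left, Pi.single_eq_same, Pi.single_eq_same]
  rcases i with p | ⟨q, _ | _⟩
  · exact hBr p g u v
  · exact cg_sim2 (ρ (.inr q)) g u v
  · exact cg_sim1 (ρ (.inr q)) g u v

theorem f0_eta (χP : P → G → K)
    (hBr : ∀ p g u v, BP p (ρ (.inl p) g u) (ρ (.inl p) g v) = χP p g * BP p u v)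
    {X : ∀ i : P ⊕ (Q × Bool), Module.End K (Fin (m (bs i)) → K)} (hX : X ∈ f0 (rr m ρ))
    (i : P ⊕ (Q × Bool)) (u : Fin (m (bs i)) → K) (v : Fin (m (bs (sti i))) → K) :
    eta m BP i (X i u) v + eta m BP i u (X (sti i) v) = 0 := by
  have hsp := f0_sp (omg m BP) sti (fun i j hij u v => by
    rw [omg_left, Pi.single_eq_of_ne (Ne.symm hij), map_zero]) (mul χP) (omg_sim m ρ BP χP hBr)
    hX i u v
  rw [omg_left, omg_left, Pi.single_eq_same, Pi.single_eq_same] at hsp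
  exact hsp

theorem rr_tw (hirr : ∀ c, 2 ≤ m c → Irr (ρ c))
    (h1 : ∀ c c', c ≠ c' → 2 ≤ m c → 2 ≤ m c' → NoT (ρ c) (ρ c'))
    (h2 : ∀ c q, 2 ≤ m c → 2 ≤ m (.inr q) → NoB (ρ c) (ρ (.inr q)))
    (i j : P ⊕ (Q × Bool)) (hij : i ≠ j) (hi : 2 ≤ m (bs i)) (hj : 2 ≤ m (bs j)) :
    NoT (rr m ρ i) (rr m ρ j) := by
  rcases i with p | ⟨q, _ | _⟩ <;> rcases j with p' | ⟨q', _ | _⟩
  · exact h1 (.inl p) (.inl p') (fun h => hij (by
      rw [Sum.inl.inj h])) hi hj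
  · exact (h2 (.inl p) q' hi hj).noT
  · exact h1 (.inl p) (.inr q') (by simp) hi hj
  · exact (h2 (.inl p') q hj hi).noT.symm (hirr _ hj) (irr_cg (hirr _ hi))
  · exact (h1 (.inr q') (.inr q) (fun h => hij (by
      rw [Sum.inr.inj h])) hj hi).dual
  · exact (h2 (.inr q') q hj hi).noT.symm (hirr _ hj) (irr_cg (hirr _ hi))
  · exact h1 (.inr q) (.inl p') (by simp) hi hj
  · exact (h2 (.inr q) q' hi hj).noT
  · exact h1 (.inr q) (.inr q') (fun h => hij (by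
      rw [Sum.inr.inj h])) hi hj

theorem rr_irr (hirr : ∀ c, 2 ≤ m c → Irr (ρ c)) (i : P ⊕ (Q × Bool)) (hi : 2 ≤ m (bs i)) :
    Irr (rr m ρ i) := by
  rcases i with p | ⟨q, _ | _⟩
  · exact hirr _ hi
  · exact irr_cg (hirr _ hi)
  · exact hirr _ hi

theorem rr_nil (χP : P → G → K)
    (hBr : ∀ p g u v, BP p (ρ (.inl p) g u) (ρ (.inl p) g v) = χP p g * BP p u v)
    (hnil : ∀ c, 2 ≤ m c → ∃ X ∈ f0 (rr m ρ), ∃ (u : Fin (m (bs (up c))) → K)
      (φ : Dual K (Fin (m (bs (up c))) → K)), u ≠ 0 ∧ φ ≠ 0 ∧ φ u = 0 ∧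
        X (up c) = φ.smulRight u) (i : P ⊕ (Q × Bool)) (hi : 2 ≤ m (bs i)) :
    ∃ X ∈ f0 (rr m ρ), ∃ (u : Fin (m (bs i)) → K)
      (φ : Dual K (Fin (m (bs i)) → K)), u ≠ 0 ∧ φ ≠ 0 ∧ φ u = 0 ∧ X i = φ.smulRight u := by
  rcases i with p | ⟨q, _ | _⟩
  · exact hnil (.inl p) hi
  · obtain ⟨X, hX, u, φ, hu, hφ, hφu, hXi⟩ := hnil (.inr q) hi
    obtain ⟨w, ψ, hw, hψ, hψw, hB⟩ := nil_tr (B := X (.inr (q, false))) hu hφ hφu hXi
      (fun a v => f0_eta m ρ BP χP hBr hX (up (.inr q)) a v)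
    exact ⟨X, hX, w, ψ, hw, hψ, hψw, hB⟩
  · exact hnil (.inr q) hi

/-- **The structure theorem for the family of the classes.** -/
theorem fft_classes [IsAlgClosed K] (hBalt : ∀ p u, BP p u u = 0)
    (hBnd : ∀ p u, (∀ v, BP p u v = 0) → u = 0) (χP : P → G → K)
    (hBr : ∀ p g u v, BP p (ρ (.inl p) g u) (ρ (.inl p) g v) = χP p g * BP p u v)
    (hP : ∀ p, 2 ≤ m (.inl p)) (hQ : ∀ q, 2 ≤ m (.inr q) ∨ m (.inr q) = 1)
    (hirr : ∀ c, 2 ≤ m c → Irr (ρ c))
    (h1 : ∀ c c', c ≠ c' → 2 ≤ m c → 2 ≤ m c' → NoT (ρ c) (ρ c'))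
    (h2 : ∀ c q, 2 ≤ m c → 2 ≤ m (.inr q) → NoB (ρ c) (ρ (.inr q)))
    (hnil : ∀ c, 2 ≤ m c → ∃ X ∈ f0 (rr m ρ), ∃ (u : Fin (m (bs (up c))) → K)
      (φ : Dual K (Fin (m (bs (up c))) → K)), u ≠ 0 ∧ φ ≠ 0 ∧ φ u = 0 ∧ X (up c) = φ.smulRight u)
    {κ : Type*} [Fintype κ] [DecidableEq κ] {t : κ → P ⊕ (Q × Bool)}
    {Φ : MultilinearMap K (fun _ : κ => ∀ i : P ⊕ (Q × Bool), (Fin (m (bs i)) → K)) K}
    (hΦ : Semi (piRep (rr m ρ)) Φ) (hp : Pure t Φ) :
    (fun v => Φ v) ∈ Submodule.span K {f | IsProduct (piRep (rr m ρ)) Finset.univ f} := by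
  refine fft_family (omg m BP) (omg_alt m BP hBalt) (omg_nd m BP hBnd) sti sti_sti
    (fun i j hij u v => by
      rw [omg_left, Pi.single_eq_of_ne (Ne.symm hij), map_zero]) (mul χP) (omg_sim m ρ BP χP hBr)
    (fun i j hij hi hj => ?_) (fun i hi => ?_) (fun i hi => ?_) (fun i => ?_) hΦ hp
  · rw [finrank_fin_fun] at hi hj
    exact rr_tw m ρ hirr h1 h2 i j hij hi hj
  · rw [finrank_fin_fun] at hi
    exact rr_irr m ρ hirr i hi
  · rw [finrank_fin_fun] at hi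
    exact rr_nil m ρ BP χP hBr hnil i hi
  · rw [finrank_fin_fun]
    rcases i with p | ⟨q, b⟩
    · exact Or.inl (hP p)
    · rcases hQ q with h | h
      · exact Or.inl h
      · exact Or.inr ⟨h, by cases b <;> simp [sti]⟩

end

end Pool.Agent.W522.S
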