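import Mathlib
import Pool.Agent.W522.S.S11
import Pool.Agent.W522.T.C1
import Pool.Agent.W522.T.Defs

/-!
# Special elements
-/

set_option linter.unusedSectionVars false

namespace Pool.Agent.W522.S

open Module
open Pool.Agent.W522.U (piRep piRep_apply piRep_single blk blk_apply blk_single Rinv Rinv' Irr
  gen_pow exists_pow_mem resR resR_apply SI)
open Pool.Agent.W522.T (IsLog gen_ne_zero exists_gen_basis HasReflection HasSymplecticReflection
  restrict_pow)

noncomputable section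

section ops

variable {K : Type*} [Field K] {V W : Type*} [AddCommGroup V] [Module K V] [AddCommGroup W]
  [Module K W]

/-- Reflections up to a logarithm. -/
def RefOp (T : Module.End K V) : Prop :=
  ∃ (n : ℕ) (b : Basis (Fin n) K V) (x : Fin n → K) (f : K → K) (k₀ : Fin n) (c : K), IsLog f ∧
    (∀ k, b k ∈ Module.End.maxGenEigenspace T (x k)) ∧ (∀ k, k ≠ k₀ → f (x k) = c) ∧ f (x k₀) ≠ c

/-- Symplectic reflections up to a logarithm. -/
def SprOp (T : Module.End K V) : Prop :=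
  ∃ (n : ℕ) (b : Basis (Fin n) K V) (x : Fin n → K) (f : K → K) (k₁ k₂ : Fin n) (c δ : K),
    IsLog f ∧ (∀ k, b k ∈ Module.End.maxGenEigenspace T (x k)) ∧ k₁ ≠ k₂ ∧ δ ≠ 0 ∧
      f (x k₁) = c + δ ∧ f (x k₂) = c - δ ∧ ∀ k, k ≠ k₁ → k ≠ k₂ → f (x k) = c

/-- The eigenvectors span a hyperplane. -/
def UniOp (T : Module.End K V) : Prop :=
  ∃ (n : ℕ) (b : Basis (Fin n) K V) (x : Fin n → K) (k₀ : Fin n),
    (∀ k, b k ∈ Module.End.maxGenEigenspace T (x k)) ∧
    (∀ k, k ≠ k₀ → T (b k) = x k • b k) ∧ T (b k₀) ≠ x k₀ • b k₀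

theorem gen_conj {T : Module.End K V} {T' : Module.End K W} (e : V ≃ₗ[K] W)
    (h : ∀ v, T' (e v) = e (T v)) {v : V} {μ : K} (hv : v ∈ Module.End.maxGenEigenspace T μ) :
    e v ∈ Module.End.maxGenEigenspace T' μ := by
  rw [Module.End.mem_maxGenEigenspace] at hv ⊢
  obtain ⟨k, hk⟩ := hv
  refine ⟨k, ?_⟩
  have h1 : ∀ (k : ℕ) (v : V), ((T' - μ • (1 : Module.End K W)) ^ k) (e v) =
      e (((T - μ • (1 : Module.End K V)) ^ k) v) := by
    intro k
    induction k with
    | zero => intro v; rfl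
    | succ k ih =>
      intro v
      rw [pow_succ, pow_succ, Module.End.mul_apply, Module.End.mul_apply, ← ih]
      congr 1
      rw [LinearMap.sub_apply, LinearMap.sub_apply, LinearMap.smul_apply, LinearMap.smul_apply,
        Module.End.one_apply, Module.End.one_apply, h, map_sub, map_smul]
  rw [h1, hk, map_zero]

theorem RefOp.conj {T : Module.End K V} {T' : Module.End K W} (e : V ≃ₗ[K] W)
    (h : ∀ v, T' (e v) = e (T v)) (hT : RefOp T) : RefOp T' := by
  obtain ⟨n, b, x, f, k₀, c, hf, hb, h1, h2⟩ := hT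
  refine ⟨n, b.map e, x, f, k₀, c, hf, fun k => ?_, h1, h2⟩
  rw [Basis.map_apply]
  exact gen_conj e h (hb k)

theorem SprOp.conj {T : Module.End K V} {T' : Module.End K W} (e : V ≃ₗ[K] W)
    (h : ∀ v, T' (e v) = e (T v)) (hT : SprOp T) : SprOp T' := by
  obtain ⟨n, b, x, f, k₁, k₂, c, δ, hf, hb, h1⟩ := hT
  refine ⟨n, b.map e, x, f, k₁, k₂, c, δ, hf, fun k => ?_, h1⟩
  rw [Basis.map_apply]
  exact gen_conj e h (hb k)

theorem UniOp.conj {T : Module.End K V} {T' : Module.End K W} (e : V ≃ₗ[K] W)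
    (h : ∀ v, T' (e v) = e (T v)) (hT : UniOp T) : UniOp T' := by
  obtain ⟨n, b, x, k₀, hb, h1, h2⟩ := hT
  refine ⟨n, b.map e, x, k₀, fun k => ?_, fun k hk => ?_, ?_⟩
  · rw [Basis.map_apply]
    exact gen_conj e h (hb k)
  · rw [Basis.map_apply, h, h1 k hk, map_smul]
  · rw [Basis.map_apply, h, ← map_smul]
    exact fun h3 => h2 (e.injective h3)

theorem RefOp.pow [CharZero K] {T S : Module.End K V} (hS : ∀ v, S (T v) = v) (hT : RefOp T)
    {M : ℕ} (hM : M ≠ 0) : RefOp (T ^ M) := by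
  obtain ⟨n, b, x, f, k₀, c, hf, hb, h1, h2⟩ := hT
  have hMK : (M : K) ≠ 0 := Nat.cast_ne_zero.2 hM
  have hx : ∀ k, x k ≠ 0 := fun k => gen_ne_zero hS (b.ne_zero k) (hb k)
  refine ⟨n, b, fun k => x k ^ M, f, k₀, M * c, hf, fun k => gen_pow _ _ _ (hb k),
    fun k hk => ?_, ?_⟩
  · dsimp only
    rw [hf.pow (hx k), h1 k hk]
  · dsimp only
    rw [hf.pow (hx k₀)]
    exact fun h => h2 (mul_left_cancel₀ hMK h)

theorem SprOp.pow [CharZero K] {T S : Module.End K V} (hS : ∀ v, S (T v) = v) (hT : SprOp T)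
    {M : ℕ} (hM : M ≠ 0) : SprOp (T ^ M) := by
  obtain ⟨n, b, x, f, k₁, k₂, c, δ, hf, hb, hkk, hδ, h1, h2, h3⟩ := hT
  have hMK : (M : K) ≠ 0 := Nat.cast_ne_zero.2 hM
  have hx : ∀ k, x k ≠ 0 := fun k => gen_ne_zero hS (b.ne_zero k) (hb k)
  refine ⟨n, b, fun k => x k ^ M, f, k₁, k₂, M * c, M * δ, hf, fun k => gen_pow _ _ _ (hb k),
    hkk, mul_ne_zero hMK hδ, ?_, ?_, fun k hk hk' => ?_⟩
  · dsimp only
    rw [hf.pow (hx _), h1, mul_add]
  · dsimp only
    rw [hf.pow (hx _), h2, mul_sub]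
  · dsimp only
    rw [hf.pow (hx k), h3 k hk hk']

theorem UniOp.pow [CharZero K] {T S : Module.End K V} (hS : ∀ v, S (T v) = v) (hT : UniOp T)
    {M : ℕ} (hM : M ≠ 0) : UniOp (T ^ M) := by
  obtain ⟨n, b, x, k₀, hb, h1, h2⟩ := hT
  have hx : ∀ k, x k ≠ 0 := fun k => gen_ne_zero hS (b.ne_zero k) (hb k)
  refine ⟨n, b, fun k => x k ^ M, k₀, fun k => gen_pow _ _ _ (hb k), fun k hk => ?_, ?_⟩
  · dsimp only
    have h3 : ∀ M : ℕ, (T ^ M) (b k) = x k ^ M • b k := by
      intro M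
      induction M with
      | zero => rw [pow_zero, pow_zero, one_smul]; rfl
      | succ M ih => rw [pow_succ, Module.End.mul_apply, h1 k hk, map_smul, ih, smul_smul,
          pow_succ, mul_comm]
    exact h3 M
  · dsimp only
    obtain ⟨L, hL⟩ := Module.End.mem_maxGenEigenspace T (x k₀) (b k₀) |>.1 (hb k₀)
    exact pow_ne (hx k₀) hL h2 hM

end ops

section subs

variable {K : Type*} [Field K] [CharZero K] [IsAlgClosed K] {X : Type*} [AddCommGroup X]
  [Module K X] [FiniteDimensional K X] {Γ : Type*} [Group Γ] {R : Representation K Γ X}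
  {U : Submodule K X}

variable (R) in
/-- Some element `γ` of the group stabilises `U`, and its eigenvectors span a hyperplane of `U`. -/
def HasUnipotent (U : Submodule K X) : Prop :=
  ∃ (γ : Γ) (h : ∀ u ∈ U, R γ u ∈ U),
    finrank K (⨆ μ, Module.End.eigenspace ((R γ).restrict h) μ : Submodule K U) + 1 = finrank K U

theorem refOp_of (hR : HasReflection R U) :
    ∃ (γ : Γ) (h : ∀ u ∈ U, R γ u ∈ U), RefOp ((R γ).restrict h) := by
  obtain ⟨γ, h, f, x₀, c, hf, hx₀, hfx, hc⟩ := hR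
  obtain ⟨n, b, x, hb, hev, huniq⟩ := exists_gen_basis ((R γ).restrict h)
  obtain ⟨k₀, hk₀, hk⟩ := huniq x₀ hx₀
  refine ⟨γ, h, n, b, x, f, k₀, c, hf, hb, fun k hkk => hc _ (hev k) fun h4 => hkk (hk k h4), ?_⟩
  rw [hk₀]
  exact hfx

theorem uniOp_of (hR : HasUnipotent R U) :
    ∃ (γ : Γ) (h : ∀ u ∈ U, R γ u ∈ U), UniOp ((R γ).restrict h) := by
  obtain ⟨γ, h, h1⟩ := hR
  obtain ⟨n, b, x, k₀, h2⟩ := exists_adapted ((R γ).restrict h) h1
  exact ⟨γ, h, n, b, x, k₀, h2⟩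

theorem sprOp_of (hR : HasSymplecticReflection R U) :
    ∃ (γ : Γ) (h : ∀ u ∈ U, R γ u ∈ U), SprOp ((R γ).restrict h) := by
  obtain ⟨γ, h, f, x₁, x₂, c, δ, hf, hδ, hx₁, hx₂, hfx₁, hfx₂, hc⟩ := hR
  obtain ⟨n, b, x, hb, hev, huniq⟩ := exists_gen_basis ((R γ).restrict h)
  obtain ⟨k₁, hk₁, hk₁'⟩ := huniq x₁ hx₁
  obtain ⟨k₂, hk₂, hk₂'⟩ := huniq x₂ hx₂
  have hkk : k₁ ≠ k₂ := by
    rintro rfl
    rw [← hk₁, hk₂, hfx₂] at hfx₁
    have h3 : 2 * δ = 0 := by linear_combination -hfx₁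
    exact hδ ((mul_eq_zero.1 h3).resolve_left two_ne_zero)
  refine ⟨γ, h, n, b, x, f, k₁, k₂, c, δ, hf, hb, hkk, hδ, ?_, ?_, fun k h1 h2 => hc _ (hev k)
    (fun h6 => h1 (hk₁' k h6)) fun h6 => h2 (hk₂' k h6)⟩
  · rw [hk₁]
    exact hfx₁
  · rw [hk₂]
    exact hfx₂

/-- The restriction of an element to a stable subspace is invertible. -/
theorem restrict_inv {γ : Γ} (h : ∀ u ∈ U, R γ u ∈ U) :
    ∃ S : Module.End K U, ∀ v, S ((R γ).restrict h v) = v := by
  have h1 : LinearMap.ker ((R γ).restrict h) = ⊥ := by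
    rw [LinearMap.ker_eq_bot']
    intro v hv
    have h2 : R γ (v : X) = 0 := congrArg Subtype.val hv
    refine Subtype.ext ?_
    rw [← Rinv (R := R) γ (v : X), h2, map_zero]
    rfl
  obtain ⟨S, hS⟩ := ((R γ).restrict h).exists_leftInverse_of_injective h1
  exact ⟨S, fun v => congrArg (fun f : Module.End K U => f v) hS⟩

/-- The transported representation. -/
def trR {K : Type*} [Field K] {G : Type*} [Group G] {V W : Type*} [AddCommGroup V] [Module K V]
    [AddCommGroup W] [Module K W] (e : V ≃ₗ[K] W) (r : Representation K G V) :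
    Representation K G W where
  toFun g := e.toLinearMap.comp ((r g).comp e.symm.toLinearMap)
  map_one' := by
    rw [map_one]
    ext v
    exact e.apply_symm_apply v
  map_mul' g h := by
    rw [map_mul]
    ext v
    change e (r g (r h (e.symm v))) = e (r g (e.symm (e (r h (e.symm v)))))
    rw [e.symm_apply_apply]

theorem trR_apply {K : Type*} [Field K] {G : Type*} [Group G] {V W : Type*} [AddCommGroup V]
    [Module K V] [AddCommGroup W] [Module K W] (e : V ≃ₗ[K] W) (r : Representation K G V) (g : G)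
    (v : V) : trR e r g (e v) = e (r g v) := by
  change e (r g (e.symm (e v))) = e (r g v)
  rw [e.symm_apply_apply]

theorem trR_symm {K : Type*} [Field K] {G : Type*} [Group G] {V W : Type*} [AddCommGroup V]
    [Module K V] [AddCommGroup W] [Module K W] (e : V ≃ₗ[K] W) (r : Representation K G V) (g : G)
    (w : W) : e.symm (trR e r g w) = r g (e.symm w) := by
  change e.symm (e (r g (e.symm w))) = _
  rw [e.symm_apply_apply]

theorem irr_trR {K : Type*} [Field K] {G : Type*} [Group G] {V W : Type*} [AddCommGroup V]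
    [Module K V] [AddCommGroup W] [Module K W] (e : V ≃ₗ[K] W) {r : Representation K G V}
    (hr : Irr r) : Irr (trR e r) := by
  intro Δ hΔ Y hY
  rcases hr Δ hΔ (Y.comap e.toLinearMap) (fun g hg v hv => by
    change e (r g v) ∈ Y
    rw [← trR_apply]
    exact hY g hg _ hv) with h | h
  · left
    rw [eq_bot_iff]
    intro y hy
    have h1 : e.symm y ∈ Y.comap e.toLinearMap := by
      change e (e.symm y) ∈ Y
      rwa [e.apply_symm_apply]
    rw [h, Submodule.mem_bot] at h1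
    rw [Submodule.mem_bot, ← e.apply_symm_apply y, h1, map_zero]
  · right
    rw [eq_top_iff]
    intro y _
    have h1 : e.symm y ∈ Y.comap e.toLinearMap := by
      rw [h]
      trivial
    change e (e.symm y) ∈ Y at h1
    rwa [e.apply_symm_apply] at h1

section tr

variable (Δ : Subgroup Γ) (hΔ : Δ.FiniteIndex) (hU : ∀ g ∈ Δ, ∀ u ∈ U, R g u ∈ U) {W : Type*}
  [AddCommGroup W] [Module K W] (e : U ≃ₗ[K] W)

include hΔ in
theorem refOp_tr (hR : HasReflection R U) : ∃ g : Δ, RefOp (trR e (resR R Δ U hU) g) := by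
  obtain ⟨γ, h, h1⟩ := refOp_of hR
  obtain ⟨S, hS⟩ := restrict_inv h
  obtain ⟨M, hM0, hM⟩ := exists_pow_mem Δ hΔ γ
  refine ⟨⟨γ ^ M, hM⟩, (h1.pow hS hM0).conj e fun v => ?_⟩
  rw [trR_apply]
  congr 1
  refine Subtype.ext ?_
  rw [restrict_pow, resR_apply]

include hΔ in
theorem uniOp_tr (hR : HasUnipotent R U) : ∃ g : Δ, UniOp (trR e (resR R Δ U hU) g) := by
  obtain ⟨γ, h, h1⟩ := uniOp_of hR
  obtain ⟨S, hS⟩ := restrict_inv h
  obtain ⟨M, hM0, hM⟩ := exists_pow_mem Δ hΔ γ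
  refine ⟨⟨γ ^ M, hM⟩, (h1.pow hS hM0).conj e fun v => ?_⟩
  rw [trR_apply]
  congr 1
  refine Subtype.ext ?_
  rw [restrict_pow, resR_apply]

include hΔ in
theorem sprOp_tr (hR : HasSymplecticReflection R U) :
    ∃ g : Δ, SprOp (trR e (resR R Δ U hU) g) := by
  obtain ⟨γ, h, h1⟩ := sprOp_of hR
  obtain ⟨S, hS⟩ := restrict_inv h
  obtain ⟨M, hM0, hM⟩ := exists_pow_mem Δ hΔ γ
  refine ⟨⟨γ ^ M, hM⟩, (h1.pow hS hM0).conj e fun v => ?_⟩
  rw [trR_apply]
  congr 1
  refine Subtype.ext ?_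
  rw [restrict_pow, resR_apply]

end tr

end subs

section fam

variable {K : Type*} [Field K] [CharZero K] [IsAlgClosed K]
  {I : Type*} [Fintype I] [DecidableEq I] {E : I → Type*} [∀ i, AddCommGroup (E i)]
  [∀ i, Module K (E i)] [∀ i, FiniteDimensional K (E i)] {G : Type*} [Group G]
  {r : ∀ i, Representation K G (E i)}

theorem nil_of_elem {i : I} (hirr : Irr (r i)) (h2 : 2 ≤ finrank K (E i))
    (h : (∃ g, RefOp (r i g)) ∨ ∃ g, UniOp (r i g)) :
    ∃ Z ∈ f0 r, ∃ (u : E i) (φ : Dual K (E i)), u ≠ 0 ∧ φ ≠ 0 ∧ φ u = 0 ∧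
      Z i = φ.smulRight u := by
  rcases h with ⟨g, n, b, x, f, k₀, c, hf, hb, h3, h4⟩ | ⟨g, n, b, x, k₀, hb, h3, h4⟩
  · exact nil_refl_fam hirr h2 g b x hb hf h3 h4
  · exact nil_unip_fam g b x hb h3 h4

theorem nil_of_spr {i : I} (hirr : Irr (r i)) (h2 : 2 ≤ finrank K (E i))
    (h : ∃ g, SprOp (r i g)) (B : E i →ₗ[K] E i →ₗ[K] K) (hB : ∀ u, (∀ v, B u v = 0) → u = 0)
    (halt : ∀ u, B u u = 0) (χ : G → K) (hχ : ∀ g, χ g ≠ 0)
    (hsim : ∀ g u v, B (r i g u) (r i g v) = χ g * B u v) :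
    ∃ Z ∈ f0 r, ∃ (u : E i) (φ : Dual K (E i)), u ≠ 0 ∧ φ ≠ 0 ∧ φ u = 0 ∧
      Z i = φ.smulRight u := by
  obtain ⟨g, n, b, x, f, k₁, k₂, c, δ, hf, hb, hkk, hδ, h3, h4, h5⟩ := h
  have hinj : Function.Injective B := by
    rw [injective_iff_map_eq_zero]
    intro u hu
    exact hB u fun v => congrArg (fun f : Dual K (E i) => f v) hu
  exact nil_sprefl_fam hirr h2 g B hinj halt χ hχ hsim b x hb hf hkk hδ h3 h4 h5

end fam

section alt

variable {K : Type*} [Field K] [CharZero K] [IsAlgClosed K] {V : Type*} [AddCommGroup V]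
  [Module K V] [FiniteDimensional K V] {G : Type*} [Group G] {r : Representation K G V}

theorem pair_nd {V' : Type*} [AddCommGroup V'] [Module K V'] {r' : Representation K G V'}
    (hr : Irr r) {β : V →ₗ[K] V' →ₗ[K] K} (h0 : β ≠ 0) {ψ : G → K}
    (hβ : ∀ g u v, β (r g u) (r' g v) = ψ g * β u v) : ∀ u, (∀ v, β u v = 0) → u = 0 := by
  have h1 : LinearMap.ker β = ⊥ := by
    rcases hr ⊤ inferInstance (LinearMap.ker β) (fun g _ u hu => by
      rw [LinearMap.mem_ker] at hu ⊢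
      refine LinearMap.ext fun v => ?_
      rw [← Rinv' (R := r') g v, hβ, hu, LinearMap.zero_apply, mul_zero, LinearMap.zero_apply])
      with h | h
    · exact h
    · exact absurd (LinearMap.ker_eq_top.1 h) h0
  intro u hu
  have h2 : u ∈ LinearMap.ker β := LinearMap.mem_ker.2 (LinearMap.ext hu)
  rwa [h1, Submodule.mem_bot] at h2

theorem pair_ne {V' : Type*} [AddCommGroup V'] [Module K V'] {r' : Representation K G V'}
    {β : V →ₗ[K] V' →ₗ[K] K} (h0 : β ≠ 0) {ψ : G → K}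
    (hβ : ∀ g u v, β (r g u) (r' g v) = ψ g * β u v) (g : G) : ψ g ≠ 0 := by
  intro h
  apply h0
  ext u v
  have h1 := hβ g (r g⁻¹ u) (r' g⁻¹ v)
  rw [Rinv', Rinv', h, zero_mul] at h1
  exact h1

/-- Twisted self-pairings are alternating. -/
theorem alt_of_elem (hirr : Irr r) (h2 : 2 ≤ finrank K V)
    (h : (∃ g, RefOp (r g)) ∨ ∃ g, UniOp (r g)) (β : V →ₗ[K] V →ₗ[K] K) (ψ : G → K)
    (hβ : ∀ g u v, β (r g u) (r g v) = ψ g * β u v) (u : V) : β u u = 0 := by
  obtain ⟨Z, hZ, w, φ, hw, hφ, hφw, hZw⟩ := nil_of_elem (r := fun _ : Unit => r) (i := ())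
    hirr h2 h
  let B := β + β.flip
  have hB' : ∀ u v, B u v = β u v + β v u := fun _ _ => rfl
  have hBr : ∀ g u v, B (r g u) (r g v) = ψ g * B u v := by
    intro g u v
    rw [hB', hB', hβ, hβ, mul_add]
  have hB0 : B = 0 := by
    by_contra h0
    have hnd := pair_nd hirr h0 hBr
    have hsk : ∀ a b : V, φ a * B w b + φ b * B a w = 0 := by
      intro a b
      have h4 : Semi2 (piRep (fun _ : Unit => r))
          (B.compl₁₂ (LinearMap.proj ()) (LinearMap.proj ())) := by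
        exact ⟨⊤, inferInstance, ψ, fun g _ u v => hBr g (u ()) (v ())⟩
      have h5 := lie0_two h4 ((mem_f0 _ Z).1 hZ) (Pi.single () a) (Pi.single () b)
      rw [blk_single, blk_single, hZw] at h5
      have h6 : B (φ a • w) b + B a (φ b • w) = 0 := by simpa using h5
      rw [map_smul, map_smul, LinearMap.smul_apply, smul_eq_mul, smul_eq_mul] at h6
      exact h6
    obtain ⟨a, ha⟩ : ∃ a, φ a ≠ 0 := by
      by_contra h
      push Not at h
      exact hφ (LinearMap.ext h)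
    have hau : B a w = 0 := by
      have h3 := hsk a a
      rw [hB' w a, hB' a w] at h3
      have h4 : φ a * (2 * (β a w + β w a)) = 0 := by linear_combination h3
      rcases mul_eq_zero.1 h4 with h5 | h5
      · exact absurd h5 ha
      · rw [hB']
        exact (mul_eq_zero.1 h5).resolve_left two_ne_zero
    apply hw
    refine hnd w fun b => ?_
    have h3 := hsk a b
    rw [hau, mul_zero, add_zero] at h3
    exact (mul_eq_zero.1 h3).resolve_left ha
  have h3 := hB' u u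
  rw [hB0, LinearMap.zero_apply, LinearMap.zero_apply, ← two_mul] at h3
  exact (mul_eq_zero.1 h3.symm).resolve_left two_ne_zero

end alt

end

end Pool.Agent.W522.S
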