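import Mathlib
import Pool.Agent.W522.S.S12

/-!
# Transfer of the structure theorem
-/

set_option linter.unusedSectionVars false

namespace Pool.Agent.W522.S

open Module

noncomputable section

variable {K : Type*} [Field K] {G0 G1 : Type*} [Group G0] [Group G1] (ι : G1 →* G0)
  (hι : ∀ Δ : Subgroup G1, Δ.FiniteIndex → (Δ.map ι).FiniteIndex)
  (hι' : ∀ Δ : Subgroup G0, Δ.FiniteIndex → (Δ.comap ι).FiniteIndex)
  {X Y : Type*} [AddCommGroup X] [Module K X] [AddCommGroup Y] [Module K Y]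
  {R0 : Representation K G0 X} {R1 : Representation K G1 Y} {L : Type*} [Fintype L]
  (A : L → X →ₗ[K] Y) (A' : L → Y →ₗ[K] X) (ψ ψ' : L → G1 → K)
  (hA : ∀ l g x, A l (R0 (ι g) x) = ψ l g • R1 g (A l x))
  (hA' : ∀ l g y, A' l (R1 g y) = ψ' l g • R0 (ι g) (A' l y))
  (hsum : ∀ x, ∑ l, A' l (A l x) = x)
  {κ : Type*} [Fintype κ] [DecidableEq κ]

include hι' hA' in
/-- The form obtained by the maps is semi-invariant. -/
theorem semi_comp {φ : MultilinearMap K (fun _ : κ => X) K} (hφ : Semi R0 φ) (J : κ → L) :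
    Semi R1 (φ.compLinearMap (fun k => A' (J k))) := by
  obtain ⟨Δ, hΔ, θ, hθ⟩ := hφ
  refine ⟨Δ.comap ι, hι' Δ hΔ, fun g => (∏ k, ψ' (J k) g) * θ (ι g), fun g hg v => ?_⟩
  rw [MultilinearMap.compLinearMap_apply, MultilinearMap.compLinearMap_apply]
  have h1 : (fun k => A' (J k) (R1 g (v k))) =
      fun k => ψ' (J k) g • R0 (ι g) (A' (J k) (v k)) := by
    funext k
    exact hA' _ _ _
  rw [h1, MultilinearMap.map_smul_univ, hθ _ hg, smul_eq_mul, mul_assoc]

include hι hA in
theorem semi2_pull {B : Y →ₗ[K] Y →ₗ[K] K} (hB : Semi2 R1 B) (l l' : L) :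
    Semi2 R0 (B.compl₁₂ (A l) (A l')) := by
  obtain ⟨Δ, hΔ, θ, hθ⟩ := hB
  classical
  refine ⟨Δ.map ι, hι Δ hΔ, fun g => if h : ∃ a ∈ Δ, ι a = g then
    ψ l h.choose * ψ l' h.choose * θ h.choose else 1, ?_⟩
  intro g hg u v
  obtain ⟨a, ha, hag⟩ := hg
  have h : ∃ a ∈ Δ, ι a = g := ⟨a, ha, hag⟩
  dsimp only
  rw [dif_pos h]
  have h1 := h.choose_spec
  generalize h.choose = b at h1 ⊢
  obtain ⟨hb, rfl⟩ := h1
  rw [LinearMap.compl₁₂_apply, LinearMap.compl₁₂_apply, hA, hA, map_smul, map_smul,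
    LinearMap.smul_apply, hθ b hb, smul_eq_mul, smul_eq_mul]
  ring

include hι hA in
theorem semiDet_pull {d : ℕ} {T : Fin d → Y →ₗ[K] (Fin d → K)} (hT : SemiDet R1 T)
    (l : Fin d → L) : SemiDet R0 (fun j => (T j).comp (A (l j))) := by
  obtain ⟨Δ, hΔ, θ, hθ⟩ := hT
  classical
  refine ⟨Δ.map ι, hι Δ hΔ, fun g => if h : ∃ a ∈ Δ, ι a = g then
    (∏ j, ψ (l j) h.choose) * θ h.choose else 1, ?_⟩
  intro g hg v
  obtain ⟨a, ha, hag⟩ := hg
  have h : ∃ a ∈ Δ, ι a = g := ⟨a, ha, hag⟩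
  dsimp only
  rw [dif_pos h]
  have h1 := h.choose_spec
  generalize h.choose = b at h1 ⊢
  obtain ⟨hb, rfl⟩ := h1
  have h2 : Matrix.of (fun j => ((T j).comp (A (l j))) (R0 (ι b) (v j))) =
      Matrix.of (fun i j => ψ (l i) b * Matrix.of (fun j => T j (R1 b (A (l j) (v j)))) i j) := by
    ext i j
    rw [Matrix.of_apply, Matrix.of_apply, Matrix.of_apply, LinearMap.comp_apply, hA, map_smul,
      Pi.smul_apply, smul_eq_mul]
  rw [h2, Matrix.det_mul_column, hθ b hb]
  rw [mul_assoc]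
  rfl

include hι hA in
theorem isProduct_pull (J : κ → L) {S : Finset κ} {f : (κ → Y) → K} (h : IsProduct R1 S f) :
    IsProduct R0 S (fun v => f (fun k => A (J k) (v k))) := by
  induction h with
  | one => exact IsProduct.one
  | pairing S f _ k l hk hl hkl B hB ih =>
    exact IsProduct.pairing S _ ih k l hk hl hkl _ (semi2_pull ι hι A ψ hA hB (J k) (J l))
  | det S f _ d k hk T hT ih =>
    exact IsProduct.det S _ ih d k hk _ (semiDet_pull ι hι A ψ hA hT (fun j => J (k j)))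

include hι hA hsum in
/-- **Transfer.** -/
theorem transfer {φ : MultilinearMap K (fun _ : κ => X) K}
    (h1 : ∀ J : κ → L, (fun v => φ.compLinearMap (fun k => A' (J k)) v) ∈
      Submodule.span K {f | IsProduct R1 Finset.univ f}) :
    (fun v => φ v) ∈ Submodule.span K {f | IsProduct R0 Finset.univ f} := by
  classical
  have h2 : (fun v => φ v) = ∑ J : κ → L, fun v : κ → X =>
      (fun v => φ.compLinearMap (fun k => A' (J k)) v) (fun k => A (J k) (v k)) := by
    funext v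
    rw [Finset.sum_apply]
    have h3 : v = fun k => ∑ l, A' l (A l (v k)) := by
      funext k
      exact (hsum (v k)).symm
    conv_lhs => rw [h3]
    rw [MultilinearMap.map_sum]
    rfl
  rw [h2]
  refine Submodule.sum_mem _ fun J _ => ?_
  let pb : ((κ → Y) → K) →ₗ[K] ((κ → X) → K) :=
    { toFun := fun f v => f (fun k => A (J k) (v k))
      map_add' := fun _ _ => rfl
      map_smul' := fun _ _ => rfl }
  have h4 : Submodule.span K {f | IsProduct R1 Finset.univ f} ≤
      (Submodule.span K {f | IsProduct R0 (Finset.univ : Finset κ) f}).comap pb := by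
    rw [Submodule.span_le]
    intro f hf
    exact Submodule.subset_span (isProduct_pull ι hι A ψ hA J hf)
  exact h4 (h1 J)

end

end Pool.Agent.W522.S
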