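import Mathlib
import Pool.Agent.W522.S.S13

/-!
# The structure theorem for a family of irreducible representations
-/

set_option linter.unusedSectionVars false

namespace Pool.Agent.W522.S

open Module
open Pool.Agent.W522.U (piRep piRep_apply piRep_single blk blk_apply blk_single Rinv Rinv' Irr)

noncomputable section

section twi

variable {K : Type*} [Field K] {G : Type*} [Group G] {V V' V'' : Type*} [AddCommGroup V]
  [Module K V] [AddCommGroup V'] [Module K V'] [AddCommGroup V''] [Module K V'']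
  {r : Representation K G V} {r' : Representation K G V'} {r'' : Representation K G V''}

/-- Twisted isomorphic representations. -/
def TwI (r : Representation K G V) (r' : Representation K G V') : Prop :=
  ∃ (T : V ≃ₗ[K] V') (ψ : G → K), (∀ g, ψ g ≠ 0) ∧ ∀ g v, T (r g v) = ψ g • r' g (T v)

theorem TwI.refl (r : Representation K G V) : TwI r r :=
  ⟨LinearEquiv.refl K V, fun _ => 1, fun _ => one_ne_zero, fun g v => by rw [one_smul]; rfl⟩

theorem TwI.symm (h : TwI r r') : TwI r' r := by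
  obtain ⟨T, ψ, h0, h1⟩ := h
  refine ⟨T.symm, fun g => (ψ g)⁻¹, fun g => inv_ne_zero (h0 g), fun g v => ?_⟩
  rw [LinearEquiv.symm_apply_eq, map_smul, h1, smul_smul, inv_mul_cancel₀ (h0 g), one_smul,
    T.apply_symm_apply]

theorem TwI.trans (h : TwI r r') (h' : TwI r' r'') : TwI r r'' := by
  obtain ⟨T, ψ, h0, h1⟩ := h
  obtain ⟨T', ψ', h0', h1'⟩ := h'
  refine ⟨T.trans T', fun g => ψ g * ψ' g, fun g => mul_ne_zero (h0 g) (h0' g), fun g v => ?_⟩
  rw [LinearEquiv.trans_apply, LinearEquiv.trans_apply, h1, map_smul, h1', smul_smul]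

theorem TwI.tr (e : V ≃ₗ[K] V') (r : Representation K G V) : TwI r (trR e r) :=
  ⟨e, fun _ => 1, fun _ => one_ne_zero, fun g v => by rw [one_smul, trR_apply]⟩

theorem TwI.of_not (hr : Irr r) (hr' : Irr r') (h : ¬ NoT r r') : TwI r r' := by
  unfold NoT at h
  push Not at h
  obtain ⟨T, ψ, hT, hT0⟩ := h
  obtain ⟨e, he, -⟩ := twm_inv hr hr' hT0 hT
  exact ⟨e, ψ, twm_ne hT0 hT, fun g v => by rw [he, he, hT]⟩

theorem TwI.of_pair {n : ℕ} (hr : Irr r) (hr' : Irr r') (e : V' ≃ₗ[K] (Fin n → K))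
    (h : ¬ NoB r r') : TwI r (cg (trR e r')) := by
  unfold NoB at h
  push Not at h
  obtain ⟨β, ψ, hβ, hβ0⟩ := h
  let T : V →ₗ[K] (Fin n → K) := LinearMap.pi fun i => β.flip (e.symm (Pi.single i 1))
  have hT : ∀ u v, T u ⬝ᵥ v = β u (e.symm v) := by
    intro u v
    conv_rhs => rw [← Finset.univ_sum_single v]
    rw [_root_.map_sum, _root_.map_sum, dotProduct]
    refine Finset.sum_congr rfl fun i _ => ?_
    have h2 : (Pi.single i (v i) : Fin n → K) = v i • Pi.single i 1 := by
      rw [← Pi.single_smul, smul_eq_mul, mul_one]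
    rw [h2, map_smul, map_smul, smul_eq_mul, mul_comm]
    rfl
  have hT0 : T ≠ 0 := by
    intro h1
    apply hβ0
    ext u v
    have h2 := hT u (e v)
    rw [h1, e.symm_apply_apply, LinearMap.zero_apply, zero_dotProduct] at h2
    exact h2.symm
  have hTr : ∀ g u, T (r g u) = ψ g • cg (trR e r') g (T u) := by
    intro g u
    rw [← sub_eq_zero]
    refine dot_ext fun v => ?_
    have h3 := cg_dot (trR e r') g (trR e r' g⁻¹ v) (T u)
    rw [Rinv'] at h3
    rw [sub_dotProduct, smul_dotProduct, dotProduct_comm (cg _ g _) v, h3, hT, dotProduct_comm,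
      hT, trR_symm]
    have h4 := hβ g u (r' g⁻¹ (e.symm v))
    rw [Rinv'] at h4
    rw [h4, smul_eq_mul, sub_self]
  exact TwI.of_not hr (irr_cg (irr_trR e hr')) fun h1 => hT0 (h1 T ψ hTr)

theorem NoT.tr {V₁ V₁' : Type*} [AddCommGroup V₁] [Module K V₁] [AddCommGroup V₁'] [Module K V₁']
    (e : V ≃ₗ[K] V₁) (e' : V' ≃ₗ[K] V₁') (h : NoT r r') : NoT (trR e r) (trR e' r') := by
  intro T ψ hT
  have h1 := h (e'.symm.toLinearMap.comp (T.comp e.toLinearMap)) ψ (fun g u => by
    change e'.symm (T (e (r g u))) = ψ g • r' g (e'.symm (T (e u)))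
    rw [← trR_apply, hT, map_smul, trR_symm])
  ext v
  have h2 := congrArg (fun f : V →ₗ[K] V' => f (e.symm v)) h1
  change e'.symm (T (e (e.symm v))) = 0 at h2
  rw [e.apply_symm_apply] at h2
  rw [LinearMap.zero_apply]
  rw [← e'.apply_symm_apply (T v), h2, map_zero]

theorem NoB.tr {V₁ V₁' : Type*} [AddCommGroup V₁] [Module K V₁] [AddCommGroup V₁'] [Module K V₁']
    (e : V ≃ₗ[K] V₁) (e' : V' ≃ₗ[K] V₁') (h : NoB r r') : NoB (trR e r) (trR e' r') := by
  intro β ψ hβ
  have h1 := h (β.compl₁₂ e.toLinearMap e'.toLinearMap) ψ (fun g u v => by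
    change β (e (r g u)) (e' (r' g v)) = ψ g * β (e u) (e' v)
    rw [← trR_apply, ← trR_apply, hβ])
  ext u v
  have h2 := congrArg (fun f : V →ₗ[K] V' →ₗ[K] K => f (e.symm u) (e'.symm v)) h1
  change β (e (e.symm u)) (e' (e'.symm v)) = 0 at h2
  rw [e.apply_symm_apply, e'.apply_symm_apply] at h2
  exact h2

end twi

/-- A maximal subset of pairwise unrelated elements. -/
theorem exists_indep {α : Type*} [Fintype α] [DecidableEq α] (D : α → Prop) (Rel : α → α → Prop)
    (hsymm : ∀ a b, Rel a b → Rel b a) : ∃ C : Finset α, (∀ c ∈ C, D c) ∧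
      (∀ c ∈ C, ∀ c' ∈ C, c ≠ c' → ¬ Rel c c') ∧ ∀ a, D a → ∃ c ∈ C, c = a ∨ Rel c a := by
  classical
  let S : Finset (Finset α) := Finset.univ.filter fun C => (∀ c ∈ C, D c) ∧
    ∀ c ∈ C, ∀ c' ∈ C, c ≠ c' → ¬ Rel c c'
  have hS : S.Nonempty := ⟨∅, by simp [S]⟩
  obtain ⟨C, hC, hmax⟩ := S.exists_max_image Finset.card hS
  have hC' := (Finset.mem_filter.1 hC).2
  refine ⟨C, hC'.1, hC'.2, fun a ha => ?_⟩
  by_contra hcon
  push Not at hcon
  have haC : a ∉ C := fun h => (hcon a h).1 rfl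
  have h1 : insert a C ∈ S := by
    refine Finset.mem_filter.2 ⟨Finset.mem_univ _, fun c hc => ?_, fun c hc c' hc' hcc => ?_⟩
    · rcases Finset.mem_insert.1 hc with rfl | hc
      · exact ha
      · exact hC'.1 c hc
    · rcases Finset.mem_insert.1 hc with h2 | h2
      · rcases Finset.mem_insert.1 hc' with h3 | h3
        · exact absurd (h2.trans h3.symm) hcc
        · rw [h2]
          exact fun h => (hcon c' h3).2 (hsymm _ _ h)
      · rcases Finset.mem_insert.1 hc' with h3 | h3
        · rw [h3]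
          exact (hcon c h2).2
        · exact hC'.2 c h2 c' h3 hcc
  have h2 := hmax _ h1
  rw [Finset.card_insert_of_notMem haC] at h2
  omega

section fam

variable {K : Type*} [Field K] [CharZero K] [IsAlgClosed K] {J : Type*} [Fintype J]
  [DecidableEq J] {V : J → Type*} [∀ j, AddCommGroup (V j)] [∀ j, Module K (V j)]
  [∀ j, FiniteDimensional K (V j)] {G : Type*} [Group G] (r : ∀ j, Representation K G (V j))

/-- The dimensions of the representations and of the trivial one. -/
def dimO (K : Type*) [Field K] {J : Type*} (V : J → Type*) [∀ j, AddCommGroup (V j)]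
    [∀ j, Module K (V j)] : Option J → ℕ
  | none => 1
  | some j => finrank K (V j)

/-- The coordinates. -/
def eqv (K : Type*) [Field K] {J : Type*} (V : J → Type*) [∀ j, AddCommGroup (V j)]
    [∀ j, Module K (V j)] [∀ j, FiniteDimensional K (V j)] (j : J) :
    V j ≃ₗ[K] (Fin (finrank K (V j)) → K) := (Module.finBasis K (V j)).equivFun

/-- The representations in coordinates and the trivial one. -/
def rhoO : ∀ o : Option J, Representation K G (Fin (dimO K V o) → K)
  | none => 1
  | some j => trR (eqv K V j) (r j)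

/-- The conclusions about one representation. -/
theorem exists_altB {j : J} (h2 : 2 ≤ finrank K (V j)) (hirr : Irr (r j))
    (hel : (∃ g, RefOp (r j g)) ∨ (∃ g, UniOp (r j g)) ∨ ((∃ g, SprOp (r j g)) ∧
      ∃ (β : V j →ₗ[K] V j →ₗ[K] K) (ψ : G → K), β ≠ 0 ∧ (∀ u, β u u = 0) ∧
        ∀ g u v, β (r j g u) (r j g v) = ψ g * β u v)) (hsd : ¬ NoB (r j) (r j)) :
    ∃ (β : V j →ₗ[K] V j →ₗ[K] K) (ψ : G → K), β ≠ 0 ∧ (∀ u, β u u = 0) ∧
        ∀ g u v, β (r j g u) (r j g v) = ψ g * β u v := by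
  have h3 : ((∃ g, RefOp (r j g)) ∨ ∃ g, UniOp (r j g)) →
    ∃ (β : V j →ₗ[K] V j →ₗ[K] K) (ψ : G → K), β ≠ 0 ∧ (∀ u, β u u = 0) ∧
        ∀ g u v, β (r j g u) (r j g v) = ψ g * β u v := by
    intro h
    unfold NoB at hsd
    push Not at hsd
    obtain ⟨β, ψ, hβ, hβ0⟩ := hsd
    exact ⟨β, ψ, hβ0, alt_of_elem hirr h2 h β ψ hβ, hβ⟩
  rcases hel with h | h | ⟨-, h⟩
  · exact h3 (Or.inl h)
  · exact h3 (Or.inr h)
  · exact h

/-- **The structure theorem for a family of irreducible representations.** -/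
theorem fft_irr (hdim : ∀ j, 2 ≤ finrank K (V j) ∨ finrank K (V j) = 1)
    (hirr : ∀ j, 2 ≤ finrank K (V j) → Irr (r j))
    (hel : ∀ j, 2 ≤ finrank K (V j) → (∃ g, RefOp (r j g)) ∨ (∃ g, UniOp (r j g)) ∨
      ((∃ g, SprOp (r j g)) ∧
      ∃ (β : V j →ₗ[K] V j →ₗ[K] K) (ψ : G → K), β ≠ 0 ∧ (∀ u, β u u = 0) ∧
        ∀ g u v, β (r j g u) (r j g v) = ψ g * β u v))
    {κ : Type*} [Fintype κ] [DecidableEq κ]
    {φ : MultilinearMap K (fun _ : κ => ∀ j, V j) K} (hφ : Semi (piRep r) φ) :
    (fun v => φ v) ∈ Submodule.span K {f | IsProduct (piRep r) Finset.univ f} := by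
  classical
  obtain ⟨C, hCD, hCu, hCall⟩ := exists_indep (fun j => 2 ≤ finrank K (V j))
    (fun i j => ¬ NoT (r i) (r j) ∨ ¬ NoT (r j) (r i) ∨ ¬ NoB (r i) (r j) ∨ ¬ NoB (r j) (r i))
    (fun a b h => by tauto)
  let P : Type _ := {j : J // j ∈ C ∧ ¬ NoB (r j) (r j)}
  let Q' : Type _ := {j : J // j ∈ C ∧ NoB (r j) (r j)}
  let cl : P ⊕ Option Q' → Option J := fun c => match c with
    | .inl p => some p.1
    | .inr none => none
    | .inr (some q) => some q.1
  have hcl : ∀ c c', c ≠ c' → cl c ≠ cl c' := by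
    intro c c' hcc h
    apply hcc
    rcases c with p | _ | q <;> rcases c' with p' | _ | q'
    · exact congrArg Sum.inl (Subtype.ext (Option.some.inj h))
    · exact absurd h (by simp [cl])
    · exact absurd p.2.2 (fun h1 => h1 (by
        have h3 : p.1 = q'.1 := Option.some.inj h
        rw [h3]
        exact q'.2.2))
    · exact absurd h (by simp [cl])
    · rfl
    · exact absurd h (by simp [cl])
    · exact absurd p'.2.2 (fun h1 => h1 (by
        have h3 : q.1 = p'.1 := Option.some.inj h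
        rw [← h3]
        exact q.2.2))
    · exact absurd h (by simp [cl])
    · exact congrArg (fun x => Sum.inr (some x)) (Subtype.ext (Option.some.inj h))
  have hclC : ∀ c j, cl c = some j → j ∈ C := by
    intro c j h
    rcases c with p | _ | q
    · have h1 : p.1 = j := Option.some.inj h
      rw [← h1]
      exact p.2.1
    · exact absurd h (by simp [cl])
    · have h1 : q.1 = j := Option.some.inj h
      rw [← h1]
      exact q.2.1
  let m : P ⊕ Option Q' → ℕ := fun c => dimO K V (cl c)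
  let ρ : ∀ c, Representation K G (Fin (m c) → K) := fun c => rhoO r (cl c)
  -- the facts about the classes
  have firr : ∀ o : Option J, 2 ≤ dimO K V o → Irr (rhoO r o) := by
    rintro (_ | j) h
    · exact absurd h (by simp [dimO])
    · exact irr_trR _ (hirr j h)
  have f1 : ∀ o o' : Option J, o ≠ o' → (∀ j, o = some j → j ∈ C) → (∀ j, o' = some j → j ∈ C) →
      2 ≤ dimO K V o → 2 ≤ dimO K V o' → NoT (rhoO r o) (rhoO r o') := by
    rintro (_ | j) (_ | j') hne ho ho' h h'
    · exact absurd h (by simp [dimO])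
    · exact absurd h (by simp [dimO])
    · exact absurd h' (by simp [dimO])
    · have h1 := hCu j (ho j rfl) j' (ho' j' rfl) (fun h => hne (congrArg some h))
      push Not at h1
      exact h1.1.tr _ _
  have f2 : ∀ o o' : Option J, o ≠ o' → (∀ j, o = some j → j ∈ C) → (∀ j, o' = some j → j ∈ C) →
      2 ≤ dimO K V o → 2 ≤ dimO K V o' → NoB (rhoO r o) (rhoO r o') := by
    rintro (_ | j) (_ | j') hne ho ho' h h'
    · exact absurd h (by simp [dimO])
    · exact absurd h (by simp [dimO])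
    · exact absurd h' (by simp [dimO])
    · have h1 := hCu j (ho j rfl) j' (ho' j' rfl) (fun h => hne (congrArg some h))
      push Not at h1
      exact h1.2.2.1.tr _ _
  have halt : ∀ p : P, ∃ (β : V p.1 →ₗ[K] V p.1 →ₗ[K] K) (ψ : G → K), β ≠ 0 ∧
      (∀ u, β u u = 0) ∧ ∀ g u v, β (r p.1 g u) (r p.1 g v) = ψ g * β u v := fun p =>
    exists_altB r (hCD _ p.2.1) (hirr _ (hCD _ p.2.1)) (hel _ (hCD _ p.2.1)) p.2.2
  choose β ψ hβ0 hβa hβr using halt
  let BP : ∀ p : P, (Fin (m (.inl p)) → K) →ₗ[K] (Fin (m (.inl p)) → K) →ₗ[K] K := fun p =>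
    (β p).compl₁₂ (eqv K V p.1).symm.toLinearMap (eqv K V p.1).symm.toLinearMap
  have hBP : ∀ p (u v : Fin (m (.inl p)) → K), BP p u v =
      β p ((eqv K V p.1).symm u) ((eqv K V p.1).symm v) := fun _ _ _ => rfl
  have hBPr : ∀ p g u v, BP p (ρ (.inl p) g u) (ρ (.inl p) g v) = ψ p g * BP p u v := by
    intro p g u v
    rw [hBP, hBP, ← hβr]
    exact congrArg₂ (fun a b => β p a b) (trR_symm _ _ _ _) (trR_symm _ _ _ _)
  have hBnd : ∀ p u, (∀ v, BP p u v = 0) → u = 0 := by
    intro p u hu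
    have h1 := pair_nd (hirr _ (hCD _ p.2.1)) (hβ0 p) (hβr p) ((eqv K V p.1).symm u) (fun v => by
      have h2 : β p ((eqv K V p.1).symm u) ((eqv K V p.1).symm (eqv K V p.1 v)) = 0 :=
        hu (eqv K V p.1 v)
      have h3 : (eqv K V p.1).symm (eqv K V p.1 v) = v := (eqv K V p.1).symm_apply_apply v
      rw [h3] at h2
      exact h2)
    have h2 : eqv K V p.1 ((eqv K V p.1).symm u) = u := (eqv K V p.1).apply_symm_apply u
    rw [h1, map_zero] at h2
    exact h2.symm
  have hmain : ∀ {t : κ → P ⊕ (Option Q' × Bool)}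
      {Φ : MultilinearMap K (fun _ : κ => ∀ i : P ⊕ (Option Q' × Bool), (Fin (m (bs i)) → K)) K},
      Semi (piRep (rr m ρ)) Φ → Pure t Φ →
      (fun v => Φ v) ∈ Submodule.span K {f | IsProduct (piRep (rr m ρ)) Finset.univ f} := by
    intro t Φ
    refine fft_classes m ρ BP (fun p u => hβa p _) hBnd ψ hBPr (fun p => hCD _ p.2.1) ?_
      (fun c hc => firr _ hc) (fun c c' hcc h h' => f1 _ _ (hcl _ _ hcc) (hclC c) (hclC c') h h')
      ?_ ?_
    · rintro (_ | q)
      · exact Or.inr rfl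
      · exact Or.inl (hCD _ q.2.1)
    · intro c q h h'
      by_cases hcq : c = .inr q
      · subst hcq
        rcases q with _ | q
        · exact absurd h (by simp [m, cl, dimO])
        · exact NoB.tr _ _ q.2.2
      · exact f2 _ _ (hcl _ _ hcq) (hclC c) (hclC _) h h'
    · intro c hc
      have hfr : 2 ≤ finrank K (Fin (m (bs (up c))) → K) := by
        rw [finrank_fin_fun]
        rcases c with p | q
        · exact hc
        · exact hc
      have hir : Irr (rr m ρ (up c)) := by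
        rcases c with p | q
        · exact firr _ hc
        · exact firr _ hc
      rcases c with p | _ | q
      · rcases hel p.1 hc with ⟨g, hg⟩ | ⟨g, hg⟩ | ⟨⟨g, hg⟩, -⟩
        · exact nil_of_elem hir hfr (Or.inl ⟨g, hg.conj (eqv K V p.1) fun v => trR_apply _ _ _ _⟩)
        · exact nil_of_elem hir hfr (Or.inr ⟨g, hg.conj (eqv K V p.1) fun v => trR_apply _ _ _ _⟩)
        · refine nil_of_spr hir hfr ⟨g, hg.conj (eqv K V p.1) fun v => trR_apply _ _ _ _⟩
            (BP p) (hBnd p) (fun u => hβa p _) (ψ p) (pair_ne (hβ0 p) (hβr p)) (hBPr p)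
      · exact absurd hc (by simp [m, cl, dimO])
      · rcases hel q.1 hc with ⟨g, hg⟩ | ⟨g, hg⟩ | ⟨-, β', ψ', h0, -, h1⟩
        · exact nil_of_elem hir hfr (Or.inl ⟨g, hg.conj (eqv K V q.1) fun v => trR_apply _ _ _ _⟩)
        · exact nil_of_elem hir hfr (Or.inr ⟨g, hg.conj (eqv K V q.1) fun v => trR_apply _ _ _ _⟩)
        · exact absurd (q.2.2 β' ψ' h1) h0
  -- the maps to the classes
  have key : ∀ j : J, ∃ i : P ⊕ (Option Q' × Bool), TwI (r j) (rr m ρ i) := by
    intro j
    rcases hdim j with h2 | h1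
    · obtain ⟨c, hcC, hc⟩ := hCall j h2
      have hirj := hirr j h2
      have hirc := hirr c (hCD c hcC)
      have hT : TwI (r j) (r c) ∨ TwI (r j) (cg (trR (eqv K V c) (r c))) := by
        rcases hc with rfl | h | h | h | h
        · exact Or.inl (TwI.refl _)
        · exact Or.inl (TwI.of_not hirc hirj h).symm
        · exact Or.inl (TwI.of_not hirj hirc h)
        · exact Or.inr (TwI.of_pair hirj hirc _ fun h' => h h'.symm)
        · exact Or.inr (TwI.of_pair hirj hirc _ h)
      by_cases hsd : NoB (r c) (r c)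
      · rcases hT with hT | hT
        · exact ⟨.inr (some ⟨c, hcC, hsd⟩, true), hT.trans (TwI.tr _ _)⟩
        · exact ⟨.inr (some ⟨c, hcC, hsd⟩, false), hT⟩
      · rcases hT with hT | hT
        · exact ⟨.inl ⟨c, hcC, hsd⟩, hT.trans (TwI.tr _ _)⟩
        · exact ⟨.inl ⟨c, hcC, hsd⟩,
            (hT.trans (TwI.of_pair hirc hirc (eqv K V c) hsd).symm).trans (TwI.tr _ _)⟩
    · refine ⟨.inr (none, true), ?_⟩
      have h3 : finrank K (V j) = finrank K (Fin 1 → K) := by rw [h1, finrank_fin_fun]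
      have h4 : ∀ g, ∃ a : K, ∀ v, r j g v = a • v := by
        intro g
        obtain ⟨w, hw0, hw⟩ := finrank_eq_one_iff'.1 h1
        obtain ⟨a, ha⟩ := hw (r j g w)
        refine ⟨a, fun v => ?_⟩
        obtain ⟨b, rfl⟩ := hw v
        rw [map_smul, ← ha, smul_comm]
      choose a ha using h4
      refine ⟨LinearEquiv.ofFinrankEq _ _ h3, a, fun g h5 => ?_, fun g v => ?_⟩
      · obtain ⟨w, hw0, -⟩ := finrank_eq_one_iff'.1 h1
        apply hw0
        rw [← Rinv (R := r j) g w, ha g w, h5, zero_smul, map_zero]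
      · rw [ha, map_smul]
        rfl
  choose tt T χ hχ hT using key
  let AA : J → (∀ j, V j) →ₗ[K] (∀ i : P ⊕ (Option Q' × Bool), (Fin (m (bs i)) → K)) := fun j =>
    (LinearMap.single K _ (tt j)).comp ((T j).toLinearMap.comp (LinearMap.proj j))
  let AA' : J → (∀ i : P ⊕ (Option Q' × Bool), (Fin (m (bs i)) → K)) →ₗ[K] (∀ j, V j) := fun j =>
    (LinearMap.single K _ j).comp ((T j).symm.toLinearMap.comp (LinearMap.proj (tt j)))
  have hAA : ∀ j x, AA j x = Pi.single (tt j) (T j (x j)) := fun _ _ => rfl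
  have hAA' : ∀ j y, AA' j y = Pi.single j ((T j).symm (y (tt j))) := fun _ _ => rfl
  have e1 : ∀ j g x, AA j (piRep r g x) = χ j g • piRep (rr m ρ) g (AA j x) := by
    intro j g x
    rw [hAA, hAA, piRep_single, piRep_apply, hT, Pi.single_smul]
  have e2 : ∀ j g y, AA' j (piRep (rr m ρ) g y) = (χ j g)⁻¹ • piRep r g (AA' j y) := by
    intro j g y
    rw [hAA', hAA', piRep_single, ← Pi.single_smul, piRep_apply]
    congr 1
    rw [LinearEquiv.symm_apply_eq, map_smul, hT, smul_smul, inv_mul_cancel₀ (hχ j g), one_smul,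
      LinearEquiv.apply_symm_apply]
  have e3 : ∀ x, ∑ j, AA' j (AA j x) = x := by
    intro x
    funext j
    rw [Finset.sum_apply, Finset.sum_eq_single j]
    · rw [hAA', hAA, Pi.single_eq_same, Pi.single_eq_same, (T j).symm_apply_apply]
    · intro j' _ hj
      rw [hAA']
      exact Pi.single_eq_of_ne (Ne.symm hj) _
    · intro h
      exact absurd (Finset.mem_univ _) h
  clear_value AA AA'
  have e4 : ∀ Jx : κ → J, (fun v => φ.compLinearMap (fun k => AA' (Jx k)) v) ∈
      Submodule.span K {f | IsProduct (piRep (rr m ρ)) (Finset.univ : Finset κ) f} := by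
    intro Jx
    refine hmain (t := fun k => tt (Jx k)) ?_ ?_
    · exact semi_comp (MonoidHom.id G) (fun Δ hΔ => by rw [Subgroup.comap_id]; exact hΔ)
        AA' (fun j g => (χ j g)⁻¹) e2 hφ Jx
    · intro v v' hv
      rw [MultilinearMap.compLinearMap_apply, MultilinearMap.compLinearMap_apply]
      congr 1
      funext k
      rw [hAA', hAA', hv k]
  exact transfer (MonoidHom.id G) (fun Δ hΔ => by rw [Subgroup.map_id]; exact hΔ) AA AA' χ e1 e3 e4

end fam

end

end Pool.Agent.W522.S
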