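import Mathlib
import Pool.Agent.W522.S.S14
import Pool.Agent.W522.T.C2
import Pool.Agent.W522.U.C7

/-!
# The structure theorem over an algebraically closed field
-/

set_option linter.unusedSectionVars false

namespace Pool.Agent.W522.S

open Module
open Pool.Agent.H204R3.GP (HasProj)
open Pool.Agent.W522.U (piRep piRep_apply piRep_single Rinv Rinv' Irr resR resR_apply SI Pot
  exists_reps decomp fi_map)
open Pool.Agent.W522.T (HasReflection HasSymplecticReflection irr_res)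

noncomputable section

variable {K : Type*} [Field K] {X : Type*} [AddCommGroup X] [Module K X]
  {Γ : Type*} [Group Γ] (R : Representation K Γ X)

/-- There is a nonzero alternating pairing of `U` on which the elements of a subgroup of finite
index act by scalars. -/
def AltTw (U : Submodule K X) : Prop :=
  ∃ Δ : Subgroup Γ, Δ.FiniteIndex ∧ ∃ (B : X →ₗ[K] X →ₗ[K] K) (θ : Γ → K),
    (∃ u ∈ U, ∃ v ∈ U, B u v ≠ 0) ∧ (∀ u ∈ U, B u u = 0) ∧
    ∀ g ∈ Δ, ∀ u ∈ U, ∀ v ∈ U, B (R g u) (R g v) = θ g * B u v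

/-- For every strongly irreducible subspace `U` of dimension at least two, the group contains a
reflection, an element whose eigenvectors span a hyperplane, or (if `U` has an alternating pairing)
a symplectic reflection of `U`. -/
def Elements : Prop :=
  ∀ U, SI R U → 2 ≤ finrank K U → HasReflection R U ∨ HasUnipotent R U ∨
    (HasSymplecticReflection R U ∧ AltTw R U)

variable {R} [CharZero K] [IsAlgClosed K] [FiniteDimensional K X]

/-- The elements of the representation on a strongly irreducible subspace. -/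
theorem elem_res (hE : Elements R) {U : Submodule K X} (hU : SI R U) (h2 : 2 ≤ finrank K U)
    {Δ : Subgroup Γ} (hΔ : Δ.FiniteIndex) (hUΔ : ∀ g ∈ Δ, ∀ u ∈ U, R g u ∈ U)
    (hA : AltTw R U → ∃ (B : X →ₗ[K] X →ₗ[K] K) (θ : Γ → K),
      (∃ u ∈ U, ∃ v ∈ U, B u v ≠ 0) ∧ (∀ u ∈ U, B u u = 0) ∧
      ∀ g ∈ Δ, ∀ u ∈ U, ∀ v ∈ U, B (R g u) (R g v) = θ g * B u v) :
    (∃ g, RefOp (resR R Δ U hUΔ g)) ∨ (∃ g, UniOp (resR R Δ U hUΔ g)) ∨
      ((∃ g, SprOp (resR R Δ U hUΔ g)) ∧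
      ∃ (β : U →ₗ[K] U →ₗ[K] K) (ψ : Δ → K), β ≠ 0 ∧ (∀ u, β u u = 0) ∧
        ∀ g u v, β (resR R Δ U hUΔ g u) (resR R Δ U hUΔ g v) = ψ g * β u v) := by
  rcases hE U hU h2 with h | h | ⟨h, h'⟩
  · obtain ⟨g, hg⟩ := refOp_tr Δ hΔ hUΔ (LinearEquiv.refl K U) h
    exact Or.inl ⟨g, hg.conj (LinearEquiv.refl K U).symm fun v => (trR_symm _ _ _ _).symm⟩
  · obtain ⟨g, hg⟩ := uniOp_tr Δ hΔ hUΔ (LinearEquiv.refl K U) h
    exact Or.inr (Or.inl ⟨g, hg.conj (LinearEquiv.refl K U).symm fun v => (trR_symm _ _ _ _).symm⟩)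
  · obtain ⟨g, hg⟩ := sprOp_tr Δ hΔ hUΔ (LinearEquiv.refl K U) h
    refine Or.inr (Or.inr ⟨⟨g, hg.conj (LinearEquiv.refl K U).symm
      fun v => (trR_symm _ _ _ _).symm⟩, ?_⟩)
    obtain ⟨B, θ, ⟨u, hu, v, hv, huv⟩, halt, hB⟩ := hA h'
    refine ⟨B.compl₁₂ U.subtype U.subtype, fun g => θ g.1, fun h0 => huv ?_, fun u => halt u u.2,
      fun g u v => hB g.1 g.2 u u.2 v v.2⟩
    exact congrArg (fun f : U →ₗ[K] U →ₗ[K] K => f ⟨u, hu⟩ ⟨v, hv⟩) h0

/-- **The structure theorem.** -/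
theorem structure_theorem (hss : HasProj R) (hE : Elements R) {κ : Type*} [Fintype κ]
    [DecidableEq κ] {φ : MultilinearMap K (fun _ : κ => X) K} (hφ : Semi R φ) :
    (fun v => φ v) ∈ Submodule.span K {f | IsProduct R Finset.univ f} := by
  classical
  obtain ⟨s, W, hW, -, hall⟩ := exists_reps hss
  obtain ⟨n, f, T, hfT⟩ := Submodule.mem_span_set'.1 (decomp hss W hW hall)
  choose i p ι D hD hp hι hT using fun l => (T l).2
  choose Dst hDfi hDs using fun i => (hW i).2.1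
  have hA : ∀ j, ∃ D' : Subgroup Γ, D'.FiniteIndex ∧ (AltTw R (W j) →
      ∃ (B : X →ₗ[K] X →ₗ[K] K) (θ : Γ → K),
      (∃ u ∈ W j, ∃ v ∈ W j, B u v ≠ 0) ∧ (∀ u ∈ W j, B u u = 0) ∧
      ∀ g ∈ D', ∀ u ∈ W j, ∀ v ∈ W j, B (R g u) (R g v) = θ g * B u v) := by
    intro j
    by_cases h : AltTw R (W j)
    · obtain ⟨D', hD', B, θ, h1⟩ := h
      exact ⟨D', hD', fun _ => ⟨B, θ, h1⟩⟩
    · exact ⟨⊤, inferInstance, fun h' => absurd h' h⟩
  choose D' hD'fi hD' using hA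
  have hDD : (⨅ l, D l).FiniteIndex := Subgroup.finiteIndex_iInf hD
  have hDs2 : (⨅ j, Dst j ⊓ D' j).FiniteIndex := Subgroup.finiteIndex_iInf (fun j => inferInstance)
  let Δ : Subgroup Γ := (⨅ j, Dst j ⊓ D' j) ⊓ ⨅ l, D l
  have hΔ : Δ.FiniteIndex := inferInstance
  have hm : ∀ g ∈ Δ, ∀ j, g ∈ Dst j ∧ g ∈ D' j := fun g hg j => Subgroup.mem_iInf.1 hg.1 j
  have hm' : ∀ g ∈ Δ, ∀ l, g ∈ D l := fun g hg l => Subgroup.mem_iInf.1 hg.2 l
  clear_value Δ
  have hWΔ : ∀ j, ∀ g ∈ Δ, ∀ u ∈ W j, R g u ∈ W j := fun j g hg u hu => hDs j g (hm g hg j).1 u hu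
  let r : ∀ j, Representation K Δ (W j) := fun j => resR R Δ (W j) (hWΔ j)
  have hr : ∀ j (g : Δ) (u : W j), ((r j g u : W j) : X) = R g.1 u := fun _ _ _ => rfl
  let A : Fin n → X →ₗ[K] (∀ j, W j) := fun l =>
    (LinearMap.single K (fun j => W j) (i l)).comp (p l)
  let A' : Fin n → (∀ j, W j) →ₗ[K] X := fun l => f l • (ι l).comp (LinearMap.proj (i l))
  have hA1 : ∀ l x, A l x = Pi.single (i l) (p l x) := fun _ _ => rfl
  have hA2 : ∀ l y, A' l y = f l • ι l (y (i l)) := fun _ _ => rfl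
  have e1 : ∀ l (g : Δ) x, A l (R (Δ.subtype g) x) = (1 : K) • piRep r g (A l x) := by
    intro l g x
    rw [hA1, hA1, piRep_single, one_smul]
    congr 1
    exact Subtype.ext (hp l g.1 (hm' g.1 g.2 l) x)
  have e2 : ∀ l (g : Δ) y, A' l (piRep r g y) = (1 : K) • R (Δ.subtype g) (A' l y) := by
    intro l g y
    rw [hA2, hA2, one_smul, map_smul, piRep_apply]
    congr 1
    exact hι l g.1 (hm' g.1 g.2 l) _ _ rfl
  have e3 : ∀ x, ∑ l, A' l (A l x) = x := by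
    intro x
    have h2 := congrArg (fun F : Module.End K X => F x) hfT
    simp only [LinearMap.sum_apply, LinearMap.smul_apply, Module.End.one_apply] at h2
    conv_rhs => rw [← h2]
    refine Finset.sum_congr rfl fun l _ => ?_
    rw [hA2, hA1, Pi.single_eq_same, hT]
    rfl
  clear_value A A'
  refine transfer Δ.subtype (fun Δ' h => fi_map hΔ Δ' h) A A' (fun _ _ => 1) e1 e3 fun J => ?_
  refine fft_irr r (fun j => ?_) (fun j _ => irr_res (hW j) hΔ (hWΔ j)) (fun j h2 =>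
    elem_res hE (hW j) h2 hΔ (hWΔ j) fun h => ?_)
    (semi_comp Δ.subtype (fun Δ' h => ?_) A' (fun _ _ => 1) e2 hφ J)
  · have h1 : 0 < finrank K (W j) := by
      rw [Nat.pos_iff_ne_zero, ne_eq, Submodule.finrank_eq_zero]
      exact (hW j).1
    omega
  · obtain ⟨B, θ, h1, h2, h3⟩ := hD' j h
    exact ⟨B, θ, h1, h2, fun g hg => h3 g (hm g hg j).2⟩
  · change (Δ'.subgroupOf Δ).FiniteIndex
    infer_instance

end

end Pool.Agent.W522.S
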