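import Mathlib
import Pool.Agent.W522.S.S15
import Pool.Agent.W522.T.F1
import Pool.Agent.W522.T.F2
import Pool.Agent.W522.T.F3
import Pool.Agent.H204R3.SP.Descent

/-!
# Strongly irreducible subspaces of dimension two
-/

set_option linter.unusedSectionVars false

namespace Pool.Agent.W522.S

open Module TensorProduct
open Pool.Agent.H204R3.SP (bcr)
open Pool.Agent.W522.U (Irr resR resR_apply SI)
open Pool.Agent.W522.T (HasReflection IsLog exists_log roots_bound fin_scalars irr_res)

noncomputable section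

section

variable {K : Type*} [Field K] [IsAlgClosed K] {U : Type*} [AddCommGroup U] [Module K U]
  [FiniteDimensional K U]

/-- The eigenvalues of an operator of the plane. -/
theorem two_roots (h2 : finrank K U = 2) (T : Module.End K U) : ∃ x y : K,
    (∀ μ, T.HasEigenvalue μ ↔ μ = x ∨ μ = y) ∧ LinearMap.trace K U T = x + y ∧
      LinearMap.det T = x * y := by
  have hs : T.charpoly.Splits := IsAlgClosed.splits _
  have hc : T.charpoly.roots.card = 2 := by
    rw [← hs.natDegree_eq_card_roots, LinearMap.charpoly_natDegree, h2]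
  obtain ⟨x, y, hxy⟩ := Multiset.card_eq_two.1 hc
  refine ⟨x, y, fun μ => ?_, ?_, ?_⟩
  · rw [Module.End.hasEigenvalue_iff_isRoot_charpoly, ← Polynomial.mem_roots
      (LinearMap.charpoly_monic T).ne_zero, hxy]
    simp
  · rw [Module.End.trace_eq_sum_roots_charpoly_of_splits hs, hxy]
    simp
  · rw [Module.End.det_eq_prod_roots_charpoly_of_splits hs, hxy]
    simp

/-- Different eigenvalues of an operator of the plane are simple. -/
theorem two_simple (h2 : finrank K U = 2) (T : Module.End K U) {x y : K} (hxy : x ≠ y)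
    (hx : T.HasEigenvalue x) (hy : T.HasEigenvalue y) :
    finrank K (Module.End.maxGenEigenspace T x) = 1 := by
  have h1 : ∀ μ, T.HasEigenvalue μ → 1 ≤ finrank K (Module.End.maxGenEigenspace T μ) := by
    intro μ hμ
    have h3 : 0 < finrank K (Module.End.eigenspace T μ) := by
      rw [Nat.pos_iff_ne_zero, ne_eq, Submodule.finrank_eq_zero]
      exact hμ
    have h4 : Module.End.eigenspace T μ ≤ Module.End.maxGenEigenspace T μ := by
      intro v hv
      rw [Module.End.mem_maxGenEigenspace]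
      refine ⟨1, ?_⟩
      rw [pow_one, LinearMap.sub_apply, LinearMap.smul_apply, Module.End.one_apply,
        Module.End.mem_eigenspace_iff.1 hv, sub_self]
    exact h3.trans_le (Submodule.finrank_mono h4)
  have h3 := Submodule.finrank_add_finrank_le_of_disjoint
    (Module.End.disjoint_genEigenspace T hxy ⊤ ⊤)
  have h4 := h1 x hx
  have h5 := h1 y hy
  rw [h2] at h3
  change finrank K (Module.End.maxGenEigenspace T x) +
    finrank K (Module.End.maxGenEigenspace T y) ≤ 2 at h3
  omega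

end

variable (ℓ : ℕ) [Fact ℓ.Prime] {V : Type*} [AddCommGroup V] [Module ℚ_[ℓ] V]
  [FiniteDimensional ℚ_[ℓ] V] {Γ : Type*} [Group Γ] (ρ : Representation ℚ_[ℓ] Γ V)
  {Ω : Type*} [Field Ω] [Algebra ℚ_[ℓ] Ω]

/-- The degree of the eigenvalues. -/
theorem eig_degree (g : Γ) {x : Ω} (hx : Module.End.HasEigenvalue (bcr ρ Ω g) x) :
    IsIntegral ℚ_[ℓ] x ∧
      finrank ℚ_[ℓ] (IntermediateField.adjoin ℚ_[ℓ] {x}) ≤ finrank ℚ_[ℓ] V := by
  have h1 : (bcr ρ Ω g).charpoly = (ρ g).charpoly.map (algebraMap ℚ_[ℓ] Ω) :=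
    LinearMap.charpoly_baseChange (ρ g) Ω
  rw [Module.End.hasEigenvalue_iff_isRoot_charpoly, h1, Polynomial.IsRoot,
    Polynomial.eval_map, ← Polynomial.aeval_def] at hx
  have h2 : IsIntegral ℚ_[ℓ] x := ⟨_, LinearMap.charpoly_monic (ρ g), hx⟩
  refine ⟨h2, ?_⟩
  rw [IntermediateField.adjoin.finrank h2, ← LinearMap.charpoly_natDegree (ρ g)]
  exact Polynomial.natDegree_le_of_dvd (minpoly.dvd _ _ hx) (LinearMap.charpoly_monic (ρ g)).ne_zero

/-- The degree of the ratios of eigenvalues. -/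
theorem ratio_degree (g : Γ) {x y : Ω} (hx : Module.End.HasEigenvalue (bcr ρ Ω g) x)
    (hy : Module.End.HasEigenvalue (bcr ρ Ω g) y) :
    finrank ℚ_[ℓ] (IntermediateField.adjoin ℚ_[ℓ] {x / y}) ≤
      finrank ℚ_[ℓ] V * finrank ℚ_[ℓ] V := by
  obtain ⟨hx1, hx2⟩ := eig_degree ℓ ρ g hx
  obtain ⟨hy1, hy2⟩ := eig_degree ℓ ρ g hy
  have _ : FiniteDimensional ℚ_[ℓ] (IntermediateField.adjoin ℚ_[ℓ] {x}) :=
    IntermediateField.adjoin.finiteDimensional hx1
  have _ : FiniteDimensional ℚ_[ℓ] (IntermediateField.adjoin ℚ_[ℓ] {y}) :=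
    IntermediateField.adjoin.finiteDimensional hy1
  have h : IntermediateField.adjoin ℚ_[ℓ] {x / y} ≤
      IntermediateField.adjoin ℚ_[ℓ] {x} ⊔ IntermediateField.adjoin ℚ_[ℓ] {y} := by
    rw [IntermediateField.adjoin_le_iff, Set.singleton_subset_iff]
    have h1 : IntermediateField.adjoin ℚ_[ℓ] {x} ≤
      IntermediateField.adjoin ℚ_[ℓ] {x} ⊔ IntermediateField.adjoin ℚ_[ℓ] {y} := le_sup_left
    have h2 : IntermediateField.adjoin ℚ_[ℓ] {y} ≤
      IntermediateField.adjoin ℚ_[ℓ] {x} ⊔ IntermediateField.adjoin ℚ_[ℓ] {y} := le_sup_right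
    exact div_mem (h1 (IntermediateField.mem_adjoin_simple_self _ x))
      (h2 (IntermediateField.mem_adjoin_simple_self _ y))
  exact (IntermediateField.finrank_le_of_le_right h).trans
    ((IntermediateField.finrank_sup_le _ _).trans (Nat.mul_le_mul hx2 hy2))

theorem refl_of_two_aux [IsAlgClosed Ω] [CharZero Ω] {X : Type*} [AddCommGroup X] [Module Ω X]
    [FiniteDimensional Ω X] (R : Representation Ω Γ X) (D : ℕ)
    (hdeg : ∀ (g : Γ) (x y : Ω), Module.End.HasEigenvalue (R g) x →
      Module.End.HasEigenvalue (R g) y →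
      finrank ℚ_[ℓ] (IntermediateField.adjoin ℚ_[ℓ] {x / y}) ≤ D)
    {U : Submodule Ω X} (hU : SI R U) (h2 : finrank Ω U = 2) : HasReflection R U := by
  classical
  by_contra hcon
  obtain ⟨Δ, hΔ, hUΔ⟩ := hU.2.1
  let r := resR R Δ U hUΔ
  have hr : ∀ g : Δ, r g = (R g.1).restrict (hUΔ g.1 g.2) := fun _ => rfl
  have hirr := irr_res hU hΔ hUΔ
  -- eigenvalues on the subspace are eigenvalues
  have hev : ∀ (g : Δ) (x : Ω), Module.End.HasEigenvalue (r g) x → Module.End.HasEigenvalue (R g.1) x := by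
    intro g x hx
    obtain ⟨v, hv, hv0⟩ := hx.exists_hasEigenvector
    rw [Module.End.mem_eigenspace_iff] at hv
    have h3 : R g.1 (v : X) = x • (v : X) := congrArg Subtype.val hv
    exact Module.End.hasEigenvalue_of_hasEigenvector (x := (v : X))
      ⟨Module.End.mem_eigenspace_iff.2 h3, fun h4 => hv0 (Subtype.ext h4)⟩
  have hne : ∀ (g : Δ) (x : Ω), Module.End.HasEigenvalue (r g) x → x ≠ 0 := by
    rintro g x hx rfl
    obtain ⟨v, hv, hv0⟩ := hx.exists_hasEigenvector
    rw [Module.End.mem_eigenspace_iff, zero_smul] at hv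
    apply hv0
    rw [← Module.End.one_apply (R := Ω) v, ← map_one r, ← inv_mul_cancel g, map_mul,
      Module.End.mul_apply, hv, map_zero]
  have hroot : ∀ (g : Δ) (x y : Ω), Module.End.HasEigenvalue (r g) x → Module.End.HasEigenvalue (r g) y →
      (∀ μ, Module.End.HasEigenvalue (r g) μ → μ = x ∨ μ = y) → ∃ n : ℕ, 0 < n ∧ (x / y) ^ n = 1 := by
    intro g x y hx hy hxy
    by_contra h3
    push Not at h3
    apply hcon
    have hx0 := hne g x hx
    have hy0 := hne g y hy
    obtain ⟨f, hf, hfx⟩ := exists_log (div_ne_zero hx0 hy0) h3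
    have hfxy : f x = f (x / y) + f y := by
      rw [← hf _ _ (div_ne_zero hx0 hy0) hy0, div_mul_cancel₀ _ hy0]
    have hne' : x ≠ y := by
      rintro rfl
      exact h3 1 one_pos (by rw [div_self hx0, pow_one])
    refine ⟨g.1, hUΔ g.1 g.2, f, x, f y, hf, two_simple h2 (r g) hne' hx hy, ?_, ?_⟩
    · rw [hfxy]
      intro h4
      apply hfx
      have h5 : f (x / y) + f y = 0 + f y := by rw [h4, zero_add]
      exact add_right_cancel h5
    · intro μ hμ hμx
      rcases hxy μ hμ with h4 | h4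
      · exact absurd h4 hμx
      · rw [h4]
  obtain ⟨N, hN0, hN⟩ := roots_bound (Ω := Ω) ℓ D
  let S : Set Ω := (fun t => (t + 1) ^ 2 / t) '' {t | t ^ N = 1}
  have hS : S.Finite := by
    refine Set.Finite.image _ ?_
    refine ((Polynomial.nthRoots N (1 : Ω)).toFinset.finite_toSet).subset ?_
    intro y hy
    rw [Finset.mem_coe, Multiset.mem_toFinset, Polynomial.mem_nthRoots hN0]
    exact hy
  have hpos : 0 < finrank Ω U := by omega
  obtain ⟨Δ', hΔ', hsc⟩ := fin_scalars (r := r) hpos (fun W hW => hirr ⊤ inferInstance W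
    (fun g _ => hW g)) S hS (fun g => by
      obtain ⟨x, y, hxy, htr, hdet⟩ := two_roots h2 (r g)
      have hx := (hxy x).2 (Or.inl rfl)
      have hy := (hxy y).2 (Or.inr rfl)
      have hx0 := hne g x hx
      have hy0 := hne g y hy
      refine ⟨x / y, hN _ (hroot g x y hx hy fun μ hμ => (hxy μ).1 hμ)
        (hdeg g.1 x y (hev g x hx) (hev g y hy)), ?_⟩
      dsimp only
      rw [h2, htr, hdet]
      field_simp)
  have _ : Nontrivial U := Module.nontrivial_of_finrank_pos hpos
  obtain ⟨u, hu⟩ := _root_.exists_ne (0 : U)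
  rcases hirr Δ' hΔ' (Submodule.span Ω {u}) (fun g hg v hv => by
    obtain ⟨c, hc⟩ := hsc g hg
    rw [hc]
    exact Submodule.smul_mem _ _ hv) with h3 | h3
  · exact hu (Submodule.span_singleton_eq_bot.1 h3)
  · have h4 := finrank_span_singleton (K := Ω) hu
    rw [h3, finrank_top] at h4
    omega

/-- **Strongly irreducible planes have reflections.** -/
theorem refl_of_two [IsAlgClosed Ω] [CharZero Ω] {U : Submodule Ω (Ω ⊗[ℚ_[ℓ]] V)}
    (hU : SI (bcr ρ Ω) U) (h2 : finrank Ω U = 2) : HasReflection (bcr ρ Ω) U :=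
  refl_of_two_aux ℓ (bcr ρ Ω) (finrank ℚ_[ℓ] V * finrank ℚ_[ℓ] V)
    (fun g _ _ hx hy => ratio_degree ℓ ρ g hx hy) hU h2

end

end Pool.Agent.W522.S
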